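import Pool.Agent.Work.MP_e10cd8_co.Four.Geo

/-! Mutual incidence: cliques on lines, determined flags, the core case (paper 2). -/

namespace Pool.Agent.Work.MP_e10cd8_co.Four
open Finset

/-- greedy domination: some element of `K` is related to a `d / |K|` share of the uncovered part -/
theorem dominate {φ : Type} [DecidableEq φ] (K U : Finset φ) (rel : φ → φ → Prop) {d : ℕ}
    (hU : U ⊆ K) (h : ∀ z ∈ U, d ≤ (selIn K (rel z)).card) (m : ℕ) :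
    ∃ T ⊆ K, T.card ≤ m ∧ ((selIn U fun z => ∀ t ∈ T, ¬ rel z t).card : ℝ) ≤
      (1 - (d : ℝ) / K.card) ^ m * U.card := by
  rcases U.eq_empty_or_nonempty with rfl | ⟨z0, hz0⟩
  · exact ⟨∅, empty_subset _, by simp, by simp [selIn]⟩
  have hK0 : (0 : ℝ) < K.card := by exact_mod_cast card_pos.2 ⟨z0, hU hz0⟩
  have hdK : (d : ℝ) ≤ K.card := by
    exact_mod_cast (h z0 hz0).trans (card_le_card (selIn_subset _ _))
  have hx : 0 ≤ 1 - (d : ℝ) / K.card := sub_nonneg.2 ((div_le_one hK0).2 hdK)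
  induction m with
  | zero =>
    refine ⟨∅, empty_subset _, by simp, ?_⟩
    rw [pow_zero, one_mul]
    exact_mod_cast card_le_card (selIn_subset _ _)
  | succ m ih =>
    obtain ⟨T, hTK, hTm, hT⟩ := ih
    set V := selIn U fun z => ∀ t ∈ T, ¬ rel z t with hV
    have h1 : ∑ _t ∈ K, (d : ℝ) / K.card * V.card ≤ ∑ t ∈ K, ∑ z ∈ V, ind (rel z t) := by
      rw [sum_comm, sum_const, nsmul_eq_mul, ← mul_assoc, mul_div_cancel₀ _ hK0.ne', mul_comm,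
        ← nsmul_eq_mul, ← sum_const]
      refine sum_le_sum fun z hz => ?_
      rw [← card_selIn]
      exact_mod_cast h z (selIn_subset _ _ hz)
    obtain ⟨t, htK, ht⟩ := exists_le_of_sum_le ⟨z0, hU hz0⟩ h1
    refine ⟨insert t T, insert_subset htK hTK, (card_insert_le _ _).trans (by omega), ?_⟩
    have h2 : (selIn U fun z => ∀ t' ∈ insert t T, ¬ rel z t') = selIn V fun z => ¬ rel z t := by
      ext z
      simp only [hV, mem_selIn, forall_mem_insert]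
      tauto
    have h3 : ∑ z ∈ V, ind (¬ rel z t) + ∑ z ∈ V, ind (rel z t) = V.card := by
      rw [← sum_add_distrib, card_eq_sum_ones, Nat.cast_sum]
      refine sum_congr rfl fun z _ => ?_
      by_cases hz : rel z t
      · rw [ind_pos hz, ind_neg (not_not.2 hz)]; simp
      · rw [ind_neg hz, ind_pos hz]; simp
    rw [h2, card_selIn, pow_succ', mul_assoc]
    have h4 := mul_le_mul_of_nonneg_left hT hx
    linarith

theorem Red1_pow {n d : ℕ} (hd : 1 ≤ d) (hn : d ≤ n) :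
    (1 - (d : ℝ) / n) ^ (2 * (n / d) + 2) ≤ 1 / 4 := by
  have hd0 : (0 : ℝ) < d := by exact_mod_cast hd
  have hn0 : (0 : ℝ) < n := by exact_mod_cast (lt_of_lt_of_le hd hn)
  have hx : 0 ≤ 1 - (d : ℝ) / n := sub_nonneg.2 ((div_le_one hn0).2 (by exact_mod_cast hn))
  have h1 : 1 - (d : ℝ) / n ≤ Real.exp (-((d : ℝ) / n)) := by
    linarith [Real.add_one_le_exp (-((d : ℝ) / n))]
  have h2 : (n : ℝ) ≤ d * ((n / d : ℕ) + 1) := by
    exact_mod_cast (Nat.lt_mul_div_succ n hd).le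
  have h3 : (1 - (d : ℝ) / n) ^ (n / d + 1) ≤ 1 / 2 := by
    refine (pow_le_pow_left₀ hx h1 _).trans ?_
    rw [← Real.exp_nat_mul]
    have h4 : ((n / d + 1 : ℕ) : ℝ) * -((d : ℝ) / n) ≤ -1 := by
      push_cast
      rw [mul_neg, neg_le_neg_iff, ← mul_div_assoc, le_div_iff₀ hn0]
      linarith
    refine (Real.exp_le_exp.2 h4).trans ?_
    rw [Real.exp_neg, one_div]
    exact inv_anti₀ (by norm_num) (by linarith [Real.add_one_le_exp (1 : ℝ)])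
  rw [show 2 * (n / d) + 2 = (n / d + 1) * 2 by ring, pow_mul]
  exact (pow_le_pow_left₀ (pow_nonneg hx _) h3 2).trans (by norm_num)

namespace PG
variable {q : ℕ} {Pt : Type} [Fintype Pt] [DecidableEq Pt] (G : PG q Pt)

theorem mem_flags {z : Pt × Pt} : z ∈ G.flags ↔ z.1 ∈ G.pl z.2 := by simp [flags]

theorem mem_Fl {l : Finset Pt} {z : Pt × Pt} : z ∈ G.Fl l ↔ z.1 ∈ l ∧ l ⊆ G.pl z.2 := by
  simp [Fl]

theorem Red1_line {l : Finset Pt} (hl : l ∈ G.lines) {b b' : Pt} (h : b ≠ b') (h1 : l ⊆ G.pl b)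
    (h2 : l ⊆ G.pl b') : l = G.pl b ∩ G.pl b' :=
  eq_of_subset_of_card_le (subset_inter h1 h2) (by rw [G.codeg b b' h, G.card_line hl])

theorem Red1_mem_det {T : Finset (Pt × Pt)} {z : Pt × Pt} : z ∈ G.det T ↔
    z.1 ∈ G.pl z.2 ∧ (∀ t ∈ T, (z.1 ∈ G.pl t.2 ↔ t.1 ∈ G.pl z.2)) ∧
    ∃ t1 ∈ T, ∃ t2 ∈ T, ∃ l ∈ G.lines, G.mutl z t1 ∧ G.mutl z t2 ∧
      z ∈ G.Fl l ∧ t1 ∈ G.Fl l ∧ t2 ∉ G.Fl l := by
  rw [det, mem_sel]

/-- `l = pl b ∩ pl b'` if the planes differ, otherwise `perp (pl a ∩ pl a')` -/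
theorem exists_Fl_of_mutl {z z' : Pt × Pt} (hz : z ∈ G.flags) (hz' : z' ∈ G.flags)
    (h : G.mutl z z') : ∃ l ∈ G.lines, z ∈ G.Fl l ∧ z' ∈ G.Fl l := by
  rw [mem_flags] at hz hz'
  obtain ⟨hne, h1, h2⟩ := h
  by_cases hb : z.2 = z'.2
  · have ha : z.1 ≠ z'.1 := fun ha => hne (Prod.ext ha hb)
    have hm : z.2 ∈ G.pl z.1 ∩ G.pl z'.1 := mem_inter.2 ⟨(G.symm _ _).1 hz, (G.symm _ _).1 h2⟩
    exact ⟨_, G.perp_mem_lines (G.inter_mem_lines ha),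
      G.mem_Fl.2 ⟨G.mem_perp.2 inter_subset_left, G.perp_subset_pl hm⟩,
      G.mem_Fl.2 ⟨G.mem_perp.2 inter_subset_right, G.perp_subset_pl (hb ▸ hm)⟩⟩
  · exact ⟨_, G.inter_mem_lines hb, G.mem_Fl.2 ⟨mem_inter.2 ⟨hz, h1⟩, inter_subset_left⟩,
      G.mem_Fl.2 ⟨mem_inter.2 ⟨h2, hz'⟩, inter_subset_right⟩⟩

theorem mutl_of_Fl {l : Finset Pt} {z z' : Pt × Pt} (h : z ≠ z') (hz : z ∈ G.Fl l)
    (hz' : z' ∈ G.Fl l) : G.mutl z z' := by
  rw [mem_Fl] at hz hz'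
  exact ⟨h, hz'.2 hz.1, hz.2 hz'.1⟩

theorem Fl_unique {l l' : Finset Pt} (hl : l ∈ G.lines) (hl' : l' ∈ G.lines) {z z' : Pt × Pt}
    (h : z ≠ z') (h1 : z ∈ G.Fl l) (h2 : z' ∈ G.Fl l) (h3 : z ∈ G.Fl l') (h4 : z' ∈ G.Fl l') :
    l = l' := by
  rw [mem_Fl] at h1 h2 h3 h4
  by_cases ha : z.1 = z'.1
  · have hb : z.2 ≠ z'.2 := fun hb => h (Prod.ext ha hb)
    rw [G.Red1_line hl hb h1.2 h2.2, G.Red1_line hl' hb h3.2 h4.2]
  · exact G.lines_eq_of_two hl hl' ha h1.1 h2.1 h3.1 h4.1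

theorem exists_Fl {z : Pt × Pt} (hz : z ∈ G.flags) : ∃ l ∈ G.lines, z ∈ G.Fl l := by
  rw [mem_flags] at hz
  have h1 : 1 < (G.pl z.1).card := by
    rw [G.deg]
    have := G.two_le
    omega
  obtain ⟨b, hb, hne⟩ := exists_mem_ne h1 z.2
  exact ⟨_, G.inter_mem_lines hne.symm,
    G.mem_Fl.2 ⟨mem_inter.2 ⟨hz, (G.symm _ _).1 hb⟩, inter_subset_left⟩⟩

theorem card_Fl_le {l : Finset Pt} (hl : l ∈ G.lines) : (G.Fl l).card ≤ (q + 1) ^ 2 := by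
  have h1 : G.Fl l ⊆ l ×ˢ G.perp l := fun z hz =>
    mem_product.2 ⟨(G.mem_Fl.1 hz).1, G.mem_perp.2 (G.mem_Fl.1 hz).2⟩
  refine (card_le_card h1).trans ?_
  rw [card_product, G.card_line hl, G.card_perp hl, sq]

/-- Three classes. (i) witnesses with `t1.1 ≠ a ≠ t2.1`: the plane is determined by the point
(`a, t1.1, t2.1` are not collinear, every flag at `a` consistent with `T` has both on its plane).
(ii) witnesses with `t1.2 ≠ b ≠ t2.2`: dually. (iii) otherwise `a` and `b` both occur in `T`. The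
flags of `T` are needed only through `t1 ∈ Fl l` and `hT`. -/
theorem card_det_le {T : Finset (Pt × Pt)} (hT : T ⊆ G.flags) :
    (G.det T).card ≤ 2 * (q ^ 3 + q ^ 2 + q + 1) + T.card ^ 2 := by
  set C1 := selIn (G.det T) fun z => ∃ t1 ∈ T, ∃ t2 ∈ T, ∃ l ∈ G.lines, G.mutl z t1 ∧
    G.mutl z t2 ∧ z ∈ G.Fl l ∧ t1 ∈ G.Fl l ∧ t2 ∉ G.Fl l ∧ z.1 ≠ t1.1 ∧ z.1 ≠ t2.1 with hC1
  set C2 := selIn (G.det T) fun z => ∃ t1 ∈ T, ∃ t2 ∈ T, ∃ l ∈ G.lines, G.mutl z t1 ∧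
    G.mutl z t2 ∧ z ∈ G.Fl l ∧ t1 ∈ G.Fl l ∧ t2 ∉ G.Fl l ∧ z.2 ≠ t1.2 ∧ z.2 ≠ t2.2 with hC2
  have h0 : G.det T ⊆ C1 ∪ C2 ∪ T.image Prod.fst ×ˢ T.image Prod.snd := by
    intro z hz
    obtain ⟨_, _, t1, ht1, t2, ht2, l, hl, m1, m2, f0, f1, f2⟩ := G.Red1_mem_det.1 hz
    by_cases ha : z.1 ≠ t1.1 ∧ z.1 ≠ t2.1
    · exact mem_union_left _ (mem_union_left _ (mem_selIn.2
        ⟨hz, t1, ht1, t2, ht2, l, hl, m1, m2, f0, f1, f2, ha⟩))
    by_cases hb : z.2 ≠ t1.2 ∧ z.2 ≠ t2.2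
    · exact mem_union_left _ (mem_union_right _ (mem_selIn.2
        ⟨hz, t1, ht1, t2, ht2, l, hl, m1, m2, f0, f1, f2, hb⟩))
    rw [not_and_or, not_not, not_not] at ha hb
    refine mem_union_right _ (mem_product.2 ⟨?_, ?_⟩)
    · rcases ha with ha | ha
      · exact mem_image.2 ⟨t1, ht1, ha.symm⟩
      · exact mem_image.2 ⟨t2, ht2, ha.symm⟩
    · rcases hb with hb | hb
      · exact mem_image.2 ⟨t1, ht1, hb.symm⟩
      · exact mem_image.2 ⟨t2, ht2, hb.symm⟩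
  have h1 : C1.card ≤ q ^ 3 + q ^ 2 + q + 1 := by
    rw [← G.card_pt, ← card_univ]
    refine card_le_card_of_injOn Prod.fst (fun _ _ => mem_coe.2 (mem_univ _)) ?_
    intro z hz z' hz' he
    obtain ⟨hd, t1, ht1, t2, ht2, l, hl, m1, m2, f0, f1, f2, n1, n2⟩ := mem_selIn.1 (mem_coe.1 hz)
    obtain ⟨g0, g1, -⟩ := G.Red1_mem_det.1 (mem_selIn.1 (mem_coe.1 hz')).1
    refine Prod.ext he ?_
    by_contra hne
    rw [← he] at g0 g1
    rw [mem_Fl] at f0 f1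
    have k1 : l ⊆ G.pl z'.2 := G.line_subset_pl hl n1 f0.1 f1.1 g0 ((g1 t1 ht1).1 m1.2.1)
    have k2 : t2.1 ∈ l := by
      rw [G.Red1_line hl hne f0.2 k1]
      exact mem_inter.2 ⟨m2.2.2, (g1 t2 ht2).1 m2.2.1⟩
    exact f2 (G.mem_Fl.2 ⟨k2, G.line_subset_pl hl n2 f0.1 k2 m2.2.1 (G.mem_flags.1 (hT ht2))⟩)
  have h2 : C2.card ≤ q ^ 3 + q ^ 2 + q + 1 := by
    rw [← G.card_pt, ← card_univ]
    refine card_le_card_of_injOn Prod.snd (fun _ _ => mem_coe.2 (mem_univ _)) ?_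
    intro z hz z' hz' he
    obtain ⟨hd, t1, ht1, t2, ht2, l, hl, m1, m2, f0, f1, f2, n1, n2⟩ := mem_selIn.1 (mem_coe.1 hz)
    obtain ⟨g0, g1, -⟩ := G.Red1_mem_det.1 (mem_selIn.1 (mem_coe.1 hz')).1
    refine Prod.ext ?_ he
    by_contra hne
    rw [← he] at g0 g1
    rw [mem_Fl] at f0 f1
    have k0 : z'.1 ∈ l := by
      rw [G.Red1_line hl n1 f0.2 f1.2]
      exact mem_inter.2 ⟨g0, (g1 t1 ht1).2 m1.2.2⟩
    have k1 : l ⊆ G.pl t2.2 := G.line_subset_pl hl hne f0.1 k0 m2.2.1 ((g1 t2 ht2).2 m2.2.2)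
    refine f2 (G.mem_Fl.2 ⟨?_, k1⟩)
    rw [G.Red1_line hl n2 f0.2 k1]
    exact mem_inter.2 ⟨m2.2.2, G.mem_flags.1 (hT ht2)⟩
  have h3 : (T.image Prod.fst ×ˢ T.image Prod.snd).card ≤ T.card ^ 2 := by
    rw [card_product, sq]
    exact Nat.mul_le_mul card_image_le card_image_le
  have h4 := (card_le_card h0).trans (card_union_le _ _)
  have h5 := card_union_le C1 C2
  omega

/-- `dominate` twice with `m = 2 |K| / d + 1`: first `rel = mutl`, then `rel z u` = mutual and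
outside the line chosen for `z` in the first round; `2 exp (-2) ≤ 1/2` -/
theorem core {K : Finset (Pt × Pt)} (hK : G.indep K) {d : ℕ} (hd : 1 ≤ d)
    (h : ∀ z ∈ K, ∀ l ∈ G.lines, z ∈ G.Fl l →
      d ≤ (selIn K fun u => G.mutl z u ∧ u ∉ G.Fl l).card) :
    ∃ T ⊆ K, T.card ≤ 4 * (K.card / d) + 4 ∧ K.card ≤ 2 * (K ∩ G.det T).card := by
  rcases K.eq_empty_or_nonempty with rfl | ⟨z0, hz0⟩
  · exact ⟨∅, Subset.rfl, by simp, by simp⟩
  have hK0 : 0 < K.card := card_pos.2 ⟨z0, hz0⟩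
  have hd1 : ∀ z ∈ K, d ≤ (selIn K (G.mutl z)).card := by
    intro z hz
    obtain ⟨l, hl, hzl⟩ := G.exists_Fl (hK.1 hz)
    refine (h z hz l hl hzl).trans (card_le_card fun u hu => ?_)
    rw [mem_selIn] at hu ⊢
    exact ⟨hu.1, hu.2.1⟩
  have hpow := Red1_pow hd ((hd1 z0 hz0).trans (card_le_card (selIn_subset _ _)))
  have hK1 : (0 : ℝ) ≤ K.card := Nat.cast_nonneg _
  obtain ⟨T1, hT1, c1, u1⟩ := dominate K K G.mutl Subset.rfl hd1 (2 * (K.card / d) + 2)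
  have hL : ∀ z ∈ K, ∃ l ∈ G.lines, z ∈ G.Fl l ∧
      ((∃ t ∈ T1, G.mutl z t) → ∃ t ∈ T1, G.mutl z t ∧ t ∈ G.Fl l) := by
    intro z hz
    by_cases hc : ∃ t ∈ T1, G.mutl z t
    · obtain ⟨t, ht, hm⟩ := hc
      obtain ⟨l, hl, f0, f1⟩ := G.exists_Fl_of_mutl (hK.1 hz) (hK.1 (hT1 ht)) hm
      exact ⟨l, hl, f0, fun _ => ⟨t, ht, hm, f1⟩⟩
    · obtain ⟨l, hl, f0⟩ := G.exists_Fl (hK.1 hz)
      exact ⟨l, hl, f0, fun hc' => absurd hc' hc⟩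
  choose! L hL1 hL2 hL3 using hL
  obtain ⟨T2, hT2, c2, u2⟩ := dominate K K (fun z u => G.mutl z u ∧ u ∉ G.Fl (L z)) Subset.rfl
    (fun z hz => h z hz (L z) (hL1 z hz) (hL2 z hz)) (2 * (K.card / d) + 2)
  refine ⟨T1 ∪ T2, union_subset hT1 hT2, (card_union_le _ _).trans (by omega), ?_⟩
  set U1 := selIn K fun z => ∀ t ∈ T1, ¬ G.mutl z t with hU1
  set U2 := selIn K fun z => ∀ t ∈ T2, ¬ (G.mutl z t ∧ t ∉ G.Fl (L z)) with hU2
  have h0 : K ⊆ K ∩ G.det (T1 ∪ T2) ∪ (U1 ∪ U2) := by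
    intro z hz
    by_cases a1 : ∀ t ∈ T1, ¬ G.mutl z t
    · exact mem_union_right _ (mem_union_left _ (mem_selIn.2 ⟨hz, a1⟩))
    by_cases a2 : ∀ t ∈ T2, ¬ (G.mutl z t ∧ t ∉ G.Fl (L z))
    · exact mem_union_right _ (mem_union_right _ (mem_selIn.2 ⟨hz, a2⟩))
    simp only [not_forall, not_not, exists_prop] at a1 a2
    obtain ⟨t1, ht1, m1, f1⟩ := hL3 z hz a1
    obtain ⟨t2, ht2, m2, f2⟩ := a2
    exact mem_union_left _ (mem_inter.2 ⟨hz, G.Red1_mem_det.2 ⟨G.mem_flags.1 (hK.1 hz),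
      fun t ht => hK.2 z hz t (union_subset hT1 hT2 ht), t1, mem_union_left _ ht1, t2,
      mem_union_right _ ht2, L z, hL1 z hz, m1, m2, hL2 z hz, f1, f2⟩⟩)
  have h1 : K.card ≤ (K ∩ G.det (T1 ∪ T2)).card + (U1.card + U2.card) :=
    (card_le_card h0).trans ((card_union_le _ _).trans
      (Nat.add_le_add_left (card_union_le _ _) _))
  have h2 : (K.card : ℝ) ≤ (K ∩ G.det (T1 ∪ T2)).card + (U1.card + U2.card) := by
    exact_mod_cast h1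
  have h3 := mul_le_mul_of_nonneg_right hpow hK1
  have h4 : (K.card : ℝ) ≤ 2 * (K ∩ G.det (T1 ∪ T2)).card := by linarith
  exact_mod_cast h4

end PG
end Pool.Agent.Work.MP_e10cd8_co.Four
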