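import Pool.Agent.Work.MP_e10cd8_co.Four.Red1

/-! Peeling and the reduction to three cases (paper 2). -/

namespace Pool.Agent.Work.MP_e10cd8_co.Four
open Finset

/-- a set in which every member has fewer than `d` later members has at most `d` members -/
theorem Red2_few {α : Type} [DecidableEq α] (B : Finset α) (rk : α → ℕ)
    (hinj : Set.InjOn rk (B : Set α)) {d : ℕ}
    (h : ∀ z ∈ B, (selIn B fun u => rk z < rk u).card < d) : B.card ≤ d := by
  rcases B.eq_empty_or_nonempty with rfl | hne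
  · simp
  obtain ⟨z, hz, hmin⟩ := exists_min_image B rk hne
  have h1 : B ⊆ insert z (selIn B fun u => rk z < rk u) := by
    intro u hu
    by_cases he : u = z
    · exact mem_insert.2 (Or.inl he)
    · refine mem_insert_of_mem (mem_selIn.2 ⟨hu, lt_of_le_of_ne (hmin u hu) fun hr => ?_⟩)
      exact he (hinj (mem_coe.2 hu) (mem_coe.2 hz) hr.symm)
  have h2 := (card_le_card h1).trans (card_insert_le _ _)
  have h3 := h z hz
  omega

theorem Red2_split {α : Type} (X : Finset α) (p : α → Prop) :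
    (selIn X p).card + (selIn X fun a => ¬ p a).card = X.card := by
  have h : ((selIn X p).card : ℝ) + (selIn X fun a => ¬ p a).card = X.card := by
    rw [card_selIn, card_selIn, ← sum_add_distrib, card_eq_sum_ones, Nat.cast_sum]
    refine sum_congr rfl fun z _ => ?_
    by_cases hz : p z
    · rw [ind_pos hz, ind_neg (not_not.2 hz)]; simp
    · rw [ind_neg hz, ind_pos hz]; simp
  exact_mod_cast h

/-- Markov: few later neighbours each, so half of the members have few neighbours -/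
theorem Red2_markov {α : Type} (X : Finset α) (rel : α → α → Prop)
    (hs : ∀ a b, rel a b → rel b a) (hi : ∀ a b, rel a b → a ≠ b) (rk : α → ℕ)
    (hinj : Set.InjOn rk (X : Set α)) {m : ℕ}
    (h : ∀ z ∈ X, (selIn X fun u => rk z < rk u ∧ rel z u).card ≤ m) :
    X.card ≤ 2 * (selIn X fun z => (selIn X (rel z)).card ≤ 4 * m).card := by
  have h1 : ∑ z ∈ X, ∑ u ∈ X, ind (rk z < rk u ∧ rel z u) ≤ (m : ℝ) * X.card := by
    rw [mul_comm, ← nsmul_eq_mul, ← sum_const]
    refine sum_le_sum fun z hz => ?_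
    rw [← card_selIn]
    exact_mod_cast h z hz
  have h2 : ∑ z ∈ X, ((selIn X (rel z)).card : ℝ) ≤ 2 * m * X.card := by
    have h3 : ∑ z ∈ X, ((selIn X (rel z)).card : ℝ) ≤ ∑ z ∈ X, ∑ u ∈ X,
        (ind (rk z < rk u ∧ rel z u) + ind (rk u < rk z ∧ rel u z)) := by
      refine sum_le_sum fun z hz => ?_
      rw [card_selIn]
      refine sum_le_sum fun u hu => ?_
      by_cases hr : rel z u
      · rw [ind_pos hr]
        have hne : rk z ≠ rk u := fun he => hi z u hr (hinj (mem_coe.2 hz) (mem_coe.2 hu) he)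
        rcases lt_or_gt_of_ne hne with hlt | hlt
        · rw [ind_pos (p := rk z < rk u ∧ rel z u) ⟨hlt, hr⟩]
          linarith [ind_nonneg (rk u < rk z ∧ rel u z)]
        · rw [ind_pos (p := rk u < rk z ∧ rel u z) ⟨hlt, hs _ _ hr⟩]
          linarith [ind_nonneg (rk z < rk u ∧ rel z u)]
      · rw [ind_neg hr]
        exact add_nonneg (ind_nonneg _) (ind_nonneg _)
    simp only [sum_add_distrib] at h3
    rw [sum_comm (f := fun z u => ind (rk u < rk z ∧ rel u z))] at h3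
    linarith
  set Z := selIn X fun z => (selIn X (rel z)).card ≤ 4 * m with hZ
  set B := selIn X fun z => ¬ (selIn X (rel z)).card ≤ 4 * m with hB
  have h4 : Z.card + B.card = X.card := Red2_split X _
  have h5 : ((4 * m + 1 : ℕ) : ℝ) * B.card ≤ ∑ z ∈ X, ((selIn X (rel z)).card : ℝ) := by
    refine le_trans ?_ (sum_le_sum_of_subset_of_nonneg (selIn_subset X _ : B ⊆ X)
      fun _ _ _ => Nat.cast_nonneg _)
    rw [mul_comm, ← nsmul_eq_mul, ← sum_const]
    refine sum_le_sum fun z hz => ?_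
    have := (mem_selIn.1 hz).2
    exact_mod_cast (by omega : 4 * m + 1 ≤ (selIn X (rel z)).card)
  have h6 : (4 * m + 1) * B.card ≤ 2 * m * X.card := by exact_mod_cast h5.trans h2
  rw [← h4] at h6 ⊢
  by_contra hc
  have h7 : Z.card < B.card := by omega
  nlinarith [Nat.mul_le_mul_left m h7.le]

namespace PG

variable {q : ℕ} {Pt : Type} [Fintype Pt] [DecidableEq Pt] (G : PG q Pt)

/-- induction on `S`: remove a thin flag, give it rank `0` and shift the other ranks -/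
theorem peel (d : ℕ) (S : Finset (Pt × Pt)) :
    ∃ K ⊆ S, ∃ (rk : Pt × Pt → ℕ) (ln : Pt × Pt → Finset Pt),
      (∀ z ∈ K, ∀ l ∈ G.lines, z ∈ G.Fl l →
        d ≤ (selIn K fun u => G.mutl z u ∧ u ∉ G.Fl l).card) ∧
      Set.InjOn rk ((S \ K : Finset (Pt × Pt)) : Set (Pt × Pt)) ∧
      ∀ z ∈ S \ K, ln z ∈ G.lines ∧ z ∈ G.Fl (ln z) ∧
        (selIn (S \ K) fun u => rk z < rk u ∧ G.mutl z u ∧ u ∉ G.Fl (ln z)).card < d := by
  induction S using Finset.strongInduction with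
  | H S ih =>
  by_cases hS : ∀ z ∈ S, ∀ l ∈ G.lines, z ∈ G.Fl l →
      d ≤ (selIn S fun u => G.mutl z u ∧ u ∉ G.Fl l).card
  · refine ⟨S, Subset.rfl, fun _ => 0, fun _ => ∅, hS, ?_, ?_⟩
    · rw [Finset.sdiff_self]
      simp
    · intro z hz
      rw [Finset.sdiff_self] at hz
      exact absurd hz (notMem_empty z)
  simp only [not_forall, not_le] at hS
  obtain ⟨z0, hz0, l0, hl0, hf0, hc0⟩ := hS
  obtain ⟨K, hK, rk, ln, h1, h2, h3⟩ := ih (S.erase z0) (erase_ssubset hz0)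
  have hm : ∀ z ∈ S \ K, z ≠ z0 → z ∈ S.erase z0 \ K := fun z hz hne =>
    mem_sdiff.2 ⟨mem_erase.2 ⟨hne, (mem_sdiff.1 hz).1⟩, (mem_sdiff.1 hz).2⟩
  refine ⟨K, hK.trans (erase_subset _ _), fun z => if z = z0 then 0 else rk z + 1,
    fun z => if z = z0 then l0 else ln z, h1, ?_, ?_⟩
  · intro z hz z' hz' he
    by_cases a1 : z = z0 <;> by_cases a2 : z' = z0
    · rw [a1, a2]
    · simp [a1, a2] at he
    · simp [a1, a2] at he
    · simp only [a1, a2, if_false, add_left_inj] at he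
      exact h2 (mem_coe.2 (hm z (mem_coe.1 hz) a1)) (mem_coe.2 (hm z' (mem_coe.1 hz') a2)) he
  · intro z hz
    by_cases a1 : z = z0
    · subst a1
      simp only [if_true]
      refine ⟨hl0, hf0, lt_of_le_of_lt (card_le_card fun u hu => ?_) hc0⟩
      rw [mem_selIn] at hu ⊢
      exact ⟨(mem_sdiff.1 hu.1).1, hu.2.2⟩
    · simp only [a1, if_false]
      obtain ⟨b1, b2, b3⟩ := h3 z (hm z hz a1)
      refine ⟨b1, b2, lt_of_le_of_lt (card_le_card fun u hu => ?_) b3⟩
      rw [mem_selIn] at hu ⊢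
      obtain ⟨c1, c2, c3⟩ := hu
      by_cases a2 : u = z0
      · simp [a2] at c2
      · simp only [a2, if_false, add_lt_add_iff_right] at c2
        exact ⟨hm u c1 a2, c2, c3⟩

/-- a line with `2 d` flags of `Z` is the chosen line of at least `d` of them -/
theorem Red2_big {Z : Finset (Pt × Pt)} {rk : Pt × Pt → ℕ} {ln : Pt × Pt → Finset Pt} {d : ℕ}
    (h2 : Set.InjOn rk (Z : Set (Pt × Pt)))
    (h3 : ∀ z ∈ Z, ln z ∈ G.lines ∧ z ∈ G.Fl (ln z) ∧
      (selIn Z fun u => rk z < rk u ∧ G.mutl z u ∧ u ∉ G.Fl (ln z)).card < d)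
    {l : Finset Pt} (hl : l ∈ G.lines) (hb : 2 * d ≤ (G.Fl l ∩ Z).card) :
    d ≤ (Z.filter fun z => ln z = l).card := by
  have h4 := Red2_split (G.Fl l ∩ Z) fun z => ln z = l
  have h5 : (selIn (G.Fl l ∩ Z) fun z => ln z = l).card ≤ (Z.filter fun z => ln z = l).card :=
    card_le_card fun z hz =>
      mem_filter.2 ⟨(mem_inter.1 (mem_selIn.1 hz).1).2, (mem_selIn.1 hz).2⟩
  have h6 : (selIn (G.Fl l ∩ Z) fun z => ¬ ln z = l).card ≤ d := by
    refine Red2_few _ rk (h2.mono fun z hz => ?_) fun z hz => ?_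
    · exact mem_coe.2 (mem_inter.1 (mem_selIn.1 (mem_coe.1 hz)).1).2
    obtain ⟨hz1, hz2⟩ := mem_selIn.1 hz
    obtain ⟨hz3, hz4⟩ := mem_inter.1 hz1
    obtain ⟨b1, b2, b3⟩ := h3 z hz4
    refine lt_of_le_of_lt (card_le_card fun u hu => ?_) b3
    obtain ⟨hu1, hu2⟩ := mem_selIn.1 hu
    obtain ⟨hu3, hu4⟩ := mem_inter.1 (mem_selIn.1 hu1).1
    have hne : z ≠ u := fun he => by rw [he] at hu2; exact lt_irrefl _ hu2
    exact mem_selIn.2 ⟨hu4, hu2, G.mutl_of_Fl hne hz3 hu3,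
      fun hu5 => hz2 (G.Fl_unique b1 hl hne b2 hu5 hz3 hu3)⟩
  omega

/-- `Z0 = I \ K`. A line is big if `2 d ≤ |Fl l ∩ Z0|`; the members with at least `d` later members
have `ln z = l` (`Fl_unique`, `mutl_of_Fl`), there are at least `d` of them, so at most `|I| / d`
lines are big. Flags of `Z0` on no big line have fewer than `3 d` later mutual neighbours among
themselves; by Markov half of them have at most `12 d` mutual neighbours. -/
theorem reduce {I : Finset (Pt × Pt)} (hI : G.indep I) {d : ℕ} (hd : 1 ≤ d) :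
    (∃ T ⊆ G.flags, T.card ≤ 4 * (I.card / d) + 4 ∧ I.card ≤ 4 * (I ∩ G.det T).card) ∨
    (∃ Ls ⊆ G.lines, Ls.card ≤ I.card / d ∧ I.card ≤ 4 * (I ∩ Ls.biUnion G.Fl).card) ∨
    ∃ Z ⊆ I, I.card ≤ 8 * Z.card ∧ G.sparse (12 * d + 1) Z := by
  obtain ⟨K, hK, rk, ln, h1, h2, h3⟩ := G.peel d I
  by_cases ha : I.card ≤ 2 * K.card
  · have hKi : G.indep K := ⟨hK.trans hI.1, fun u hu v hv => hI.2 u (hK hu) v (hK hv)⟩
    obtain ⟨T, hT, c1, c2⟩ := G.core hKi hd h1
    have c3 : K.card / d ≤ I.card / d := Nat.div_le_div_right (card_le_card hK)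
    have c4 : (K ∩ G.det T).card ≤ (I ∩ G.det T).card :=
      card_le_card (inter_subset_inter_right hK)
    exact Or.inl ⟨T, hT.trans hKi.1, by omega, by omega⟩
  refine Or.inr ?_
  have hc : (I \ K).card + K.card = I.card := card_sdiff_add_card_eq_card hK
  have hZI : I \ K ⊆ I := sdiff_subset
  generalize I \ K = Z0 at h2 h3 hc hZI
  set Ls := selIn G.lines fun l => 2 * d ≤ (G.Fl l ∩ Z0).card with hLs
  by_cases hb : I.card ≤ 4 * (I ∩ Ls.biUnion G.Fl).card
  · refine Or.inl ⟨Ls, selIn_subset _ _, (Nat.le_div_iff_mul_le hd).2 ?_, hb⟩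
    have c1 : Ls.card * d ≤ ∑ l ∈ Ls, (Z0.filter fun z => ln z = l).card := by
      rw [← smul_eq_mul, ← sum_const]
      exact sum_le_sum fun l hl => G.Red2_big h2 h3 (mem_selIn.1 hl).1 (mem_selIn.1 hl).2
    rw [sum_card_fiberwise_eq_card_filter] at c1
    have c2 := card_filter_le Z0 fun z => ln z ∈ Ls
    omega
  refine Or.inr ?_
  set Z1 := Z0 \ Ls.biUnion G.Fl with hZ1
  have hZ10 : Z1 ⊆ Z0 := sdiff_subset
  have c1 : Z0.card ≤ Z1.card + (I ∩ Ls.biUnion G.Fl).card := by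
    refine le_trans (card_le_card fun z hz => ?_) (card_union_le _ _)
    by_cases hz1 : z ∈ Ls.biUnion G.Fl
    · exact mem_union_right _ (mem_inter.2 ⟨hZI hz, hz1⟩)
    · exact mem_union_left _ (mem_sdiff.2 ⟨hz, hz1⟩)
  have c2 := Red2_markov Z1 G.mutl (fun a b h => ⟨h.1.symm, h.2.2, h.2.1⟩) (fun a b h => h.1) rk
    (h2.mono (coe_subset.2 hZ10)) (m := 3 * d) fun z hz => by
      obtain ⟨hz1, hz2⟩ := mem_sdiff.1 hz
      obtain ⟨b1, b2, b3⟩ := h3 z hz1
      have b4 : (G.Fl (ln z) ∩ Z0).card < 2 * d := by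
        by_contra b5
        exact hz2 (mem_biUnion.2 ⟨ln z, mem_selIn.2 ⟨b1, not_lt.1 b5⟩, b2⟩)
      have b6 : (selIn Z1 fun u => rk z < rk u ∧ G.mutl z u) ⊆
          (selIn Z0 fun u => rk z < rk u ∧ G.mutl z u ∧ u ∉ G.Fl (ln z)) ∪
            (G.Fl (ln z) ∩ Z0) := by
        intro u hu
        obtain ⟨e1, e2, e3⟩ := mem_selIn.1 hu
        by_cases e4 : u ∈ G.Fl (ln z)
        · exact mem_union_right _ (mem_inter.2 ⟨e4, hZ10 e1⟩)
        · exact mem_union_left _ (mem_selIn.2 ⟨hZ10 e1, e2, e3, e4⟩)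
      have b7 := (card_le_card b6).trans (card_union_le _ _)
      omega
  set Z := selIn Z1 fun z => (selIn Z1 (G.mutl z)).card ≤ 4 * (3 * d) with hZ
  have hZ1' : Z ⊆ Z1 := selIn_subset _ _
  have hZI' : Z ⊆ I := hZ1'.trans (hZ10.trans hZI)
  refine ⟨Z, hZI', by omega, hZI'.trans hI.1, fun z hz => ?_⟩
  have c3 : (insert z (selIn Z1 (G.mutl z))).card ≤ 12 * d + 1 := by
    have := (mem_selIn.1 hz).2
    have := card_insert_le z (selIn Z1 (G.mutl z))
    omega
  constructor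
  · refine le_trans (card_le_card fun u hu => ?_) c3
    obtain ⟨e1, e2⟩ := mem_selIn.1 hu
    by_cases e3 : u = z
    · exact mem_insert.2 (Or.inl e3)
    · exact mem_insert_of_mem (mem_selIn.2 ⟨hZ1' e1, fun he => e3 he.symm, e2,
        (hI.2 z (hZI' hz) u (hZI' e1)).1 e2⟩)
  · refine le_trans (card_le_card fun u hu => ?_) c3
    obtain ⟨e1, e2⟩ := mem_selIn.1 hu
    by_cases e3 : u = z
    · exact mem_insert.2 (Or.inl e3)
    · exact mem_insert_of_mem (mem_selIn.2 ⟨hZ1' e1, fun he => e3 he.symm,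
        (hI.2 z (hZI' hz) u (hZI' e1)).2 e2, e2⟩)

end PG
end Pool.Agent.Work.MP_e10cd8_co.Four
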