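import Pool.Agent.Work.MP_e10cd8_co.Four.Sparse2
import Pool.Agent.Work.MP_e10cd8_co.Four.Red2

/-! The cover of all independent sets, and the sampled digraph (paper 1, 2, 7). -/

namespace Pool.Agent.Work.MP_e10cd8_co.Four
open Finset

theorem Cover_cnt {ι : Type} [DecidableEq ι] (Ω : Finset ι) {x : ℝ} (hx : 0 < x) (m t : ℕ)
    (h : (Ω.card : ℝ) + 1 ≤ x ^ m) :
    ((selIn Ω.powerset fun T => T.card ≤ t).card : ℝ) ≤ Real.exp (m * t * Real.log x) := by
  have h1 : ((selIn Ω.powerset fun T => T.card ≤ t).card : ℝ) ≤ ((Ω.card : ℝ) + 1) ^ t := by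
    exact_mod_cast card_small_le Ω t
  refine h1.trans ((pow_le_pow_left₀ (by positivity) h t).trans (le_of_eq ?_))
  rw [← Nat.cast_mul, Real.exp_nat_mul, Real.exp_log hx, pow_mul]

theorem Cover_fam {φ κ : Type} [DecidableEq φ] {q R r k : ℕ} (h : FPar q R r k) (I : Finset κ)
    (f : κ → Finset φ) {A β y : ℝ} (hI : (I.card : ℝ) ≤ Real.exp A) (hy : 0 ≤ y)
    (hf : ∀ i ∈ I, ((f i).card : ℝ) ≤ β * (q : ℝ) ^ 3)
    (hβ : 44 * β / (10000 * r) ≤ Real.exp (-y)) (hA : A - y * k / 16 ≤ -(k : ℝ) / 5) :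
    wtC (pp q r k) (ww k) (I.image fun i => ((∅ : Finset φ), f i)) ≤ Real.exp (-(k : ℝ) / 5) := by
  refine (wtC_image_le (FPar.pp_nonneg q r k) _ I _).trans ?_
  refine (sum_le_card_nsmul _ _ (Real.exp (-(y * k / 16))) fun i hi => ?_).trans ?_
  · rw [card_empty, pow_zero, one_mul]
    exact h.pool_factor hy (hf i hi) hβ
  · rw [nsmul_eq_mul]
    refine (mul_le_mul_of_nonneg_right hI (Real.exp_pos _).le).trans ?_
    rw [← Real.exp_add]
    exact Real.exp_le_exp.2 (by linarith)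

theorem Cover_exp4 : Real.exp 4 ≤ 56 := by
  have h := pow_le_pow_left₀ (Real.exp_pos 1).le Real.exp_one_lt_d9.le 4
  rw [← Real.exp_nat_mul] at h
  norm_num at h
  linarith

namespace PG

variable {q : ℕ} {Pt : Type} [Fintype Pt] [DecidableEq Pt] (G : PG q Pt)

/-- `reduce` with `d = dd`. (a) pairs `(∅, det T)`, `T ⊆ flags`, `|T| ≤ 4 r q + 4`: at most
`exp (30 r q L) ≤ exp (k/60)` of them, pools at most `5 q^3`, `pool_factor` with `y = 8`.
(b) pairs `(∅, Ls.biUnion Fl)`, `|Ls| ≤ r q`: at most `exp (7 r q L) ≤ exp (k/280)`, pools at most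
`4 r q^3`, `y = 4`. (c) `sparse_cover`. Total at most `(R+3) exp (-k/5) ≤ 1 / (4 q^5)`. -/
theorem cover_all {R r k : ℕ} (h : FPar q R r k) :
    ∃ C : Finset (Finset (Pt × Pt) × Finset (Pt × Pt)),
      wtC (pp q r k) (ww k) C * (4 * (q : ℝ) ^ 5) ≤ 1 ∧
      ∀ I, G.indep I → I.card = k → hits C (ww k) I := by
  obtain ⟨C, hC, hC'⟩ := G.sparse_cover h
  have hL := h.six_le_L
  have hk := h.hk1
  have q0 : (1000 : ℝ) ≤ q := by exact_mod_cast h.hq
  have r0 : (10 : ℝ) ^ 12 * (R + 2) ≤ r := by exact_mod_cast h.r_ge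
  have r1 : (r : ℝ) ≤ q := by exact_mod_cast h.r_le_q
  have r2 : 25 * (r : ℝ) ^ 2 ≤ q := by exact_mod_cast h.hrq
  have R0 : (0 : ℝ) ≤ R := Nat.cast_nonneg _
  have r3 : (1000 : ℝ) ≤ r := by linarith
  have rq : (1000 : ℝ) ≤ r * q := by nlinarith
  have rqL : 1000 * Real.log q ≤ r * q * Real.log q :=
    mul_le_mul_of_nonneg_right rq (by linarith)
  have qp : (0 : ℝ) < q := by linarith
  have k16 : 16 ≤ k := by
    have : (16 : ℝ) ≤ k := by linarith
    exact_mod_cast this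
  have e4 := Cover_exp4
  have wa := Cover_fam h (selIn G.flags.powerset fun T => T.card ≤ 4 * (r * q) + 4) G.det
    (β := 5) (y := 8)
    (Cover_cnt _ qp 6 _ (by
      have h1 := G.card_flags.2
      have h2 : 1 ≤ (q : ℝ) ^ 5 := one_le_pow₀ (by linarith)
      have h3 := mul_le_mul_of_nonneg_left q0 (pow_pos qp 5).le
      rw [pow_succ]
      linarith)) (by norm_num)
    (fun T hT => by
      rw [mem_selIn, mem_powerset] at hT
      have h1 := G.card_det_le hT.1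
      rw [← G.card_pt] at h1
      have h2 : ((G.det T).card : ℝ) ≤ 2 * Fintype.card Pt + (T.card : ℝ) ^ 2 := by
        exact_mod_cast h1
      have h3 : (T.card : ℝ) ≤ 4 * (r * q) + 4 := by exact_mod_cast hT.2
      have h4 : (T.card : ℝ) ^ 2 ≤ (5 * (r * q)) ^ 2 :=
        pow_le_pow_left₀ (Nat.cast_nonneg _) (by linarith) 2
      have h5 := mul_le_mul_of_nonneg_right r2 (pow_pos qp 2).le
      have h6 := G.card_pt_le
      linarith)
    (by
      have h1 : Real.exp 8 ≤ 56 * 56 := by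
        rw [show (8 : ℝ) = 4 + 4 by norm_num, Real.exp_add]
        exact mul_le_mul e4 e4 (Real.exp_pos _).le (by norm_num)
      rw [Real.exp_neg, ← one_div, div_le_div_iff₀ (by linarith) (Real.exp_pos _)]
      linarith)
    (by
      push_cast
      linarith)
  have wb := Cover_fam h (selIn G.lines.powerset fun T => T.card ≤ r * q)
    (fun Ls => Ls.biUnion G.Fl) (β := 4 * r) (y := 4)
    (Cover_cnt _ qp 7 _ (by
      have h1 := G.card_lines_le
      rw [← G.card_pt] at h1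
      have h2 : (G.lines.card : ℝ) ≤ (Fintype.card Pt : ℝ) ^ 2 := by exact_mod_cast h1
      have h3 := pow_le_pow_left₀ (Nat.cast_nonneg _) G.card_pt_le 2
      have h4 : 1 ≤ (q : ℝ) ^ 6 := one_le_pow₀ (by linarith)
      have h5 := mul_le_mul_of_nonneg_left q0 (pow_pos qp 6).le
      rw [pow_succ]
      linarith)) (by norm_num)
    (fun Ls hT => by
      rw [mem_selIn, mem_powerset] at hT
      have h1 := (card_biUnion_le_card_mul Ls G.Fl _ fun l hl => G.card_Fl_le (hT.1 hl)).trans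
        (Nat.mul_le_mul_right _ hT.2)
      have h2 : ((Ls.biUnion G.Fl).card : ℝ) ≤ r * q * (q + 1) ^ 2 := by exact_mod_cast h1
      have h3 : ((q : ℝ) + 1) ^ 2 ≤ (2 * q) ^ 2 := pow_le_pow_left₀ (by linarith) (by linarith) 2
      have h4 := mul_le_mul_of_nonneg_left h3 (show (0 : ℝ) ≤ r * q by linarith)
      linarith)
    (by
      rw [Real.exp_neg, ← one_div, div_le_div_iff₀ (by linarith) (Real.exp_pos _)]
      have := mul_le_mul_of_nonneg_left e4 (show (0 : ℝ) ≤ r by linarith)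
      linarith)
    (by
      push_cast
      linarith)
  have p0 := FPar.pp_nonneg q r k
  refine ⟨_ ∪ _ ∪ C, le_trans (mul_le_mul_of_nonneg_right ((wtC_union_le p0 _ _ _).trans
    (add_le_add ((wtC_union_le p0 _ _ _).trans (add_le_add wa wb)) (hC.trans
      (mul_le_mul_of_nonneg_left (Real.exp_le_exp.2 (show -(k : ℝ) / 4 ≤ -(k : ℝ) / 5 by linarith))
        (by linarith))))) (by positivity)) ?_, fun I hI hIk => ?_⟩
  · have h1 : Real.exp (-(k : ℝ) / 5) ≤ 1 / (q : ℝ) ^ 7 := by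
      rw [one_div, ← Real.exp_log (pow_pos qp 7), ← Real.exp_neg, Real.log_pow]
      apply Real.exp_le_exp.2
      push_cast
      linarith
    rw [le_div_iff₀ (pow_pos qp 7)] at h1
    have h2 : ((R : ℝ) + 3) * 4 ≤ q * q := by nlinarith
    have h3 := mul_le_mul_of_nonneg_left h2
      (mul_pos (Real.exp_pos (-(k : ℝ) / 5)) (pow_pos qp 5)).le
    linarith
  have hd := h.div_dd_le
  rcases G.reduce hI (d := dd q r k) (Nat.le_add_left _ _) with
    ⟨T, h1, h2, h3⟩ | ⟨Ls, h1, h2, h3⟩ | ⟨Z, h1, h2, h3⟩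
  · refine ⟨(∅, G.det T), mem_union_left _ (mem_union_left _ (mem_image.2
      ⟨T, mem_selIn.2 ⟨mem_powerset.2 h1, ?_⟩, rfl⟩)), empty_subset _, ?_⟩
    · rw [hIk] at h2
      omega
    · rw [sdiff_empty, ww]
      dsimp only
      omega
  · refine ⟨(∅, Ls.biUnion G.Fl), mem_union_left _ (mem_union_right _ (mem_image.2
      ⟨Ls, mem_selIn.2 ⟨mem_powerset.2 h1, ?_⟩, rfl⟩)), empty_subset _, ?_⟩
    · rw [hIk] at h2
      omega
    · rw [sdiff_empty, ww]
      dsimp only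
      omega
  · exact hits_mono subset_union_right h1 (hC' Z h3 (hIk ▸ h2) (hIk ▸ card_le_card h1))

/-- `sample` with `Ω = flags`, `card_flags` -/
theorem host {R r k : ℕ} (h : FPar q R r k) :
    ∃ X ⊆ G.flags, (k : ℝ) * (q : ℝ) ^ 2 / (10000 * r) - 1 ≤ X.card ∧
      ∀ I ⊆ X, G.indep I → I.card ≠ k := by
  obtain ⟨C, h1, h2⟩ := G.cover_all h
  have p0 := FPar.pp_nonneg q r k
  have q0 : (1000 : ℝ) ≤ q := by exact_mod_cast h.hq
  have r0 : (10 : ℝ) ^ 12 * (R + 2) ≤ r := by exact_mod_cast h.r_ge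
  have R0 : (0 : ℝ) ≤ R := Nat.cast_nonneg _
  have rp : (0 : ℝ) < r := by linarith
  have qp : (0 : ℝ) < q := by linarith
  have w0 : 0 ≤ wtC (pp q r k) (ww k) C := sum_nonneg fun x _ => by positivity
  have h3 : (k : ℝ) * (q : ℝ) ^ 2 / (10000 * r) ≤ pp q r k * G.flags.card := by
    refine le_trans (le_of_eq ?_) (mul_le_mul_of_nonneg_left G.card_flags.1 p0)
    rw [pp]
    field_simp
  have h4 : 1 < (k : ℝ) * (q : ℝ) ^ 2 / (10000 * r) := by
    rw [one_lt_div (by positivity)]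
    have a1 : 1 ≤ (q : ℝ) ^ 2 := one_le_pow₀ (by linarith)
    have a2 := mul_le_mul_of_nonneg_left a1 (Nat.cast_nonneg (α := ℝ) k)
    have a3 : 6000 ≤ q * Real.log q := by nlinarith [h.six_le_L]
    have a4 := mul_le_mul_of_nonneg_left a3 rp.le
    have a5 := h.hk1
    linarith
  obtain ⟨X, x1, x2, x3⟩ := sample G.flags p0 h.pp_le_one (ww k) C
    ((mul_le_mul_of_nonneg_left G.card_flags.2 w0).trans h1) (h4.trans_le h3)
  exact ⟨X, x1, by linarith, fun I hI hi e => x3 I hI (h2 I hi e)⟩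

/-- pull `arc` back along an injection `Fin N → X`; `no_tt4` -/
theorem digraph {X : Finset (Pt × Pt)} (hX : X ⊆ G.flags) {k : ℕ}
    (h : ∀ I ⊆ X, G.indep I → I.card ≠ k) {N : ℕ} (hN : N ≤ X.card) :
    ∃ D : Digraph (Fin N), (∀ v, ¬ D.Adj v v) ∧
      (¬ ∃ S : Finset (Fin N), S.card = k ∧ ∀ u ∈ S, ∀ v ∈ S, ¬ D.Adj u v) ∧
      ¬ ∃ f : Fin 4 → Fin N, Function.Injective f ∧ ∀ i j, i < j → D.Adj (f i) (f j) := by
  obtain ⟨e⟩ : Nonempty (Fin N ↪ X) := Function.Embedding.nonempty_of_card_le (by simpa using hN)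
  refine ⟨⟨fun u v => G.arc (e u).1 (e v).1⟩, fun v hv => hv.2 hv.1, ?_, ?_⟩
  · rintro ⟨S, h1, h2⟩
    have hs : S.image (fun u => (e u).1) ⊆ X := fun z hz => by
      obtain ⟨u, -, rfl⟩ := mem_image.1 hz
      exact (e u).2
    refine h _ hs ⟨hs.trans hX, fun z hz z' hz' => ?_⟩ ?_
    · obtain ⟨u, hu, rfl⟩ := mem_image.1 hz
      obtain ⟨v, hv, rfl⟩ := mem_image.1 hz'
      exact ⟨fun a => by_contra fun b => h2 u hu v hv ⟨a, b⟩,
        fun a => by_contra fun b => h2 v hv u hu ⟨a, b⟩⟩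
    · rw [card_image_of_injective _ fun u v a => e.injective (Subtype.ext a), h1]
  · rintro ⟨f, -, hf⟩
    exact G.no_tt4 (hX (e (f 1)).2) (hX (e (f 2)).2) (hX (e (f 0)).2) (hX (e (f 3)).2)
      (hf 0 1 (by decide)) (hf 0 2 (by decide)) (hf 0 3 (by decide)) (hf 1 2 (by decide))
      (hf 1 3 (by decide)) (hf 2 3 (by decide))

end PG
end Pool.Agent.Work.MP_e10cd8_co.Four
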