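import Pool.Agent.Work.MP_e10cd8_co.Exact.XAsym

-- merged part: Pool.Agent.Work.MP_e10cd8_co.Four.Block
section
/-! The block lemma (paper 5.2): resampling the points of one line. -/

namespace Pool.Agent.Work.MP_e10cd8_co.Four
open Finset

section helpers
variable {α : Type} [DecidableEq α] {η : ℝ}

/-- the summand for the pattern `J` of groups missing the line -/
noncomputable def Block_g (c : ℕ) (γ : ℝ) (J : Finset ℕ) (A A' : Finset α) (T : Finset (ℕ × α)) :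
    ℝ :=
  emp T (Ico 4 (c + 4) ×ˢ A) * ∏ j ∈ range 4, ((if j ∈ J then emp T ({j} ×ˢ A') else 0) - γ)

/-- the centred groups that miss the line -/
noncomputable def Block_J (R' : Finset α) (S : Finset (ℕ × α)) : Finset ℕ :=
  selIn (range 4) fun j => Disjoint S ({j} ×ˢ R')

theorem Block_emp {n : Finset ℕ} {R O R' A : Finset α} {S T : Finset (ℕ × α)} (hS : S ⊆ n ×ˢ R)
    (hT : T ⊆ n ×ˢ O) (hRO : Disjoint R O) (hA : A ⊆ O) (hR : R' ⊆ R) (I : Finset ℕ) :
    emp (S ∪ T) (I ×ˢ (A ∪ R')) = emp S (I ×ˢ R') * emp T (I ×ˢ A) := by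
  have h1 : emp S (I ×ˢ A) = 1 := ind_pos (disjoint_left.2 fun x a b =>
    disjoint_left.1 hRO (mem_product.1 (hS a)).2 (hA (mem_product.1 b).2))
  have h2 : emp T (I ×ˢ R') = 1 := ind_pos (disjoint_left.2 fun x a b =>
    disjoint_left.1 hRO (hR (mem_product.1 b).2) (mem_product.1 (hT a)).2)
  rw [emp_union_left, product_union, emp_union_right, emp_union_right, h1, h2]
  ring

theorem Block_split (c : ℕ) (γ : ℝ) {n : Finset ℕ} {R O R' A A' : Finset α}
    {S T : Finset (ℕ × α)} (hS : S ⊆ n ×ˢ R) (hT : T ⊆ n ×ˢ O) (hRO : Disjoint R O) (hA : A ⊆ O)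
    (hA' : A' ⊆ A) (hR : R' ⊆ R) : xi c γ (S ∪ T) (A ∪ R) (A' ∪ R') =
      emp S (Ico 4 (c + 4) ×ˢ R) * Block_g c γ (Block_J R' S) A A' T := by
  rw [xi, Block_g, Block_emp hS hT hRO hA subset_rfl, mul_assoc]
  congr 2
  refine prod_congr rfl fun j hj => ?_
  rw [Block_emp hS hT hRO (hA'.trans hA) hR]
  by_cases h : Disjoint S ({j} ×ˢ R')
  · rw [if_pos (show j ∈ Block_J R' S from mem_selIn.2 ⟨hj, h⟩), emp, ind_pos h, one_mul]
  · rw [if_neg fun k : j ∈ Block_J R' S => h (mem_selIn.1 k).2, emp, ind_neg h, zero_mul]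

theorem Block_fac {p γ : ℝ} (P : Prop) [Decidable P] (p0 : 0 ≤ p) (p1 : p ≤ 1) (h0 : 0 ≤ γ)
    (h1 : γ ≤ 1) : |(if P then p else 0) - γ| ≤ 1 := by
  rw [abs_le]
  split_ifs <;> constructor <;> linarith

omit [DecidableEq α] in
theorem Block_abs (c : ℕ) {γ : ℝ} (h0 : 0 ≤ γ) (h1 : γ ≤ 1) (J : Finset ℕ) (A A' : Finset α)
    (T : Finset (ℕ × α)) : |Block_g c γ J A A' T| ≤ emp T (Ico 4 (c + 4) ×ˢ A) := by
  rw [Block_g, abs_mul, abs_of_nonneg (emp_nonneg _ _), abs_prod]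
  exact mul_le_of_le_one_right (emp_nonneg _ _) (prod_le_one (fun _ _ => abs_nonneg _)
    fun j _ => Block_fac _ (emp_nonneg _ _) (emp_le_one _ _) h0 h1)

theorem Block_inter (c : ℕ) (γ : ℝ) (J : Finset ℕ) {A A' : Finset α} (h : A' ⊆ A)
    (T : Finset (ℕ × α)) :
    Block_g c γ J A A' (T ∩ range (c + 4) ×ˢ A) = Block_g c γ J A A' T := by
  rw [Block_g, Block_g,
    Prob1_emp T (product_subset_product_left fun j hj => mem_range.2 (mem_Ico.1 hj).2)]
  refine congrArg _ (prod_congr rfl fun j hj => ?_)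
  rw [Prob1_emp T (product_subset_product (singleton_subset_iff.2
    (mem_range.2 ((mem_range.1 hj).trans_le (Nat.le_add_left 4 c)))) h)]

theorem Block_mean (c : ℕ) (γ : ℝ) (J : Finset ℕ) {O A A' : Finset α} (hA : A ⊆ O)
    (hA' : A' ⊆ O) : Ex η (range (c + 4) ×ˢ O) (Block_g c γ J A A') =
      (1 - η) ^ (c * A.card) * ∏ j ∈ range 4, ((if j ∈ J then (1 - η) ^ A'.card else 0) - γ) := by
  have d : Disjoint (Ico 4 (c + 4) ×ˢ A) (range 4 ×ˢ A') := disjoint_product.2 (Or.inl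
    (disjoint_left.2 fun j a b => (mem_Ico.1 a).1.not_gt (mem_range.1 b)))
  have e : ∀ T : Finset (ℕ × α),
      ∏ j ∈ range 4, ((if j ∈ J then emp (T ∩ range 4 ×ˢ A') ({j} ×ˢ A') else 0) - γ) =
      ∏ j ∈ range 4, ((if j ∈ J then emp T ({j} ×ˢ A') else 0) - γ) :=
    fun T => prod_congr rfl fun j hj => by
      rw [Prob1_emp T (product_subset_product_left (singleton_subset_iff.2 hj))]
  have h1 := Ex_mul_of_disjoint (η := η) (Ω := range (c + 4) ×ˢ O) d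
    (fun T => emp T (Ico 4 (c + 4) ×ˢ A))
    fun T => ∏ j ∈ range 4, ((if j ∈ J then emp T ({j} ×ˢ A') else 0) - γ)
  have h2 := Ex_prod (η := η) (Ω := range (c + 4) ×ˢ O) (range 4) (fun j => {j} ×ˢ A')
    (fun i _ j _ k => disjoint_product.2 (Or.inl (disjoint_singleton.2 k)))
    fun j T => (if j ∈ J then emp T ({j} ×ˢ A') else 0) - γ
  simp only [e, emp_inter] at h1 h2
  unfold Block_g
  rw [h1, h2, Ex_kill, inter_eq_left.2 hA]
  refine congrArg _ (prod_congr rfl fun j hj => ?_)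
  rw [Ex_sub, Ex_const]
  by_cases h : j ∈ J
  · simp only [if_pos h]
    rw [Ex_emp, product_inter_product, card_product, singleton_inter_of_mem
      (mem_range.2 ((mem_range.1 hj).trans_le (Nat.le_add_left 4 c))), card_singleton, one_mul,
      inter_eq_left.2 hA']
  · simp only [if_neg h, Ex_const]

theorem Block_pow (h1 : η ≤ 1) (n : ℕ) : (1 - η) ^ n ≤ Real.exp (-(η * n)) := by
  refine (pow_le_pow_left₀ (sub_nonneg.2 h1) (Real.one_sub_le_exp_neg η) n).trans_eq ?_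
  rw [← Real.exp_nat_mul]
  congr 1
  ring

theorem Block_bern (h1 : η ≤ 1) (n : ℕ) : 1 - (1 - η) ^ n ≤ η * n := by
  have := one_add_mul_le_pow (a := -η) (by linarith) n
  rw [← sub_eq_add_neg] at this
  linarith

/-- the good event has probability at least `1 - 32 exp (-Lp)` -/
theorem Block_good {κ : Type} [DecidableEq κ] (c : ℕ) {γ Lp V : ℝ} (O : Finset α) (B : Finset κ)
    (A A' : κ → Finset α) (h0 : 0 ≤ η) (h1 : η ≤ 1) (hγ0 : 0 ≤ γ) (hγ1 : γ ≤ 1) (hLp : 1 ≤ Lp)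
    (hA : ∀ b ∈ B, A b ⊆ O) (hA' : ∀ b ∈ B, A' b ⊆ A b)
    (hd : ∀ b ∈ B, ∀ b' ∈ B, b ≠ b' → Disjoint (A b) (A b'))
    (hV : ∑ b ∈ B, (1 - η) ^ (c * (A b).card) ≤ V) (h4 : 4 * Lp ≤ V) :
    Pr η (range (c + 4) ×ˢ O) (fun T => ∃ J ∈ (range 4).powerset, 2 * Real.sqrt (Lp * V) ≤
      |∑ b ∈ B, Block_g c γ J (A b) (A' b) T -
        ∑ b ∈ B, Ex η (range (c + 4) ×ˢ O) (Block_g c γ J (A b) (A' b))|) ≤
      32 * Real.exp (-Lp) := by
  have V0 : 0 < V := by linarith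
  have s0 := Real.sqrt_nonneg (Lp * V)
  have s2 : Real.sqrt (Lp * V) ^ 2 = Lp * V := Real.sq_sqrt (by positivity)
  have s3 : Real.sqrt (Lp * V) / V ≤ 1 / 2 := by
    rw [div_le_iff₀ V0]
    exact (pow_le_pow_iff_left₀ s0 (by positivity) two_ne_zero).1 (by nlinarith)
  refine (Pr_exists h0 h1 _ _).trans ?_
  refine (sum_le_sum (g := fun _ => 2 * Real.exp (-Lp)) fun J _ => ?_).trans_eq ?_
  · refine (bernstein h0 h1 _ B (fun b => range (c + 4) ×ˢ A b)
      (fun b hb b' hb' k => disjoint_product.2 (Or.inr (hd b hb b' hb' k)))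
      (fun b => Block_g c γ J (A b) (A' b)) (fun b hb T => Block_inter c γ J (hA' b hb) T)
      (fun b _ T => (Block_abs c hγ0 hγ1 J _ _ T).trans (emp_le_one _ _)) (V := V)
      (le_trans (sum_le_sum fun b hb => ?_) hV) (div_nonneg s0 V0.le) s3 _).trans_eq ?_
    · rw [← inter_eq_left.2 (hA b hb), ← Ex_kill, inter_eq_left.2 (hA b hb)]
      refine Ex_mono h0 h1 fun T _ => ?_
      have a := Block_abs c hγ0 hγ1 J (A b) (A' b) T
      have a' := emp_le_one T (Ico 4 (c + 4) ×ˢ A b)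
      have a'' := abs_nonneg (Block_g c γ J (A b) (A' b) T)
      rw [← sq_abs]
      nlinarith
    · congr 2
      rw [div_pow, s2]
      have : Real.sqrt (Lp * V) / V * (2 * Real.sqrt (Lp * V)) = 2 * Lp := by
        rw [div_mul_eq_mul_div, div_eq_iff V0.ne']
        nlinarith
      rw [this]
      field_simp
      ring
  · rw [sum_const, card_powerset, card_range, nsmul_eq_mul]
    push_cast
    ring

theorem Block_prod {p γ w : ℝ} (p0 : 0 ≤ p) (p1 : p ≤ 1) (h0 : 0 ≤ γ) (h1 : γ ≤ 1)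
    {J : Finset ℕ} (hJ : J ⊆ range 4) (h2 : 2 ≤ J.card) (hw : |p - γ| ≤ w) :
    |∏ j ∈ range 4, ((if j ∈ J then p else 0) - γ)| ≤ w ^ 2 := by
  obtain ⟨i, hi, j, hj, k⟩ := one_lt_card.1 h2
  rw [abs_prod]
  refine (prod_le_prod_of_subset_of_le_one (s := {i, j})
    (insert_subset (hJ hi) (singleton_subset_iff.2 (hJ hj))) (fun _ _ => abs_nonneg _)
    fun _ _ _ => Block_fac _ p0 p1 h0 h1).trans ?_
  rw [prod_pair k, if_pos hi, if_pos hj, sq]
  exact mul_le_mul hw hw (abs_nonneg _) ((abs_nonneg _).trans hw)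

theorem Block_prod1 {p γ : ℝ} (p0 : 0 ≤ p) (p1 : p ≤ 1) (h0 : 0 ≤ γ) (h1 : γ ≤ 1)
    (J : Finset ℕ) : |∏ j ∈ range 4, ((if j ∈ J then p else 0) - γ)| ≤ 1 := by
  rw [abs_prod]
  exact prod_le_one (fun _ _ => abs_nonneg _) fun _ _ => Block_fac _ p0 p1 h0 h1

/-- three of the four centred groups are hit with probability at most `4 δ' ^ 3` -/
theorem Block_three (h0 : 0 ≤ η) (h1 : η ≤ 1) (Ω : Finset (ℕ × α)) (R' : Finset α) :
    Pr η Ω (fun S => ¬ 2 ≤ (Block_J R' S).card) ≤ 4 * (η * R'.card) ^ 3 := by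
  have key : ∀ S : Finset (ℕ × α), ind (¬ 2 ≤ (Block_J R' S).card) ≤
      ∑ i ∈ range 4, ∏ j ∈ (range 4).erase i, (1 - emp (S ∩ {j} ×ˢ R') ({j} ×ˢ R')) := by
    intro S
    have n : ∀ i ∈ range 4, 0 ≤ ∏ j ∈ (range 4).erase i, (1 - emp (S ∩ {j} ×ˢ R') ({j} ×ˢ R')) :=
      fun i _ => prod_nonneg fun j _ => sub_nonneg.2 (emp_le_one _ _)
    refine Prob1_le (fun h => ?_) (sum_nonneg n)
    obtain ⟨i, hi, hs⟩ : ∃ i ∈ range 4, Block_J R' S ⊆ {i} := by
      obtain e | ⟨x, hx⟩ := (Block_J R' S).eq_empty_or_nonempty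
      · exact ⟨0, by simp, e ▸ empty_subset _⟩
      · exact ⟨x, (mem_selIn.1 hx).1, fun y hy =>
          mem_singleton.2 (card_le_one.1 (by omega) y hy x hx)⟩
    refine le_trans (prod_eq_one fun j hj => ?_).ge (single_le_sum n hi)
    rw [emp_inter, emp, ind_neg fun k => (mem_erase.1 hj).1
      (mem_singleton.1 (hs (mem_selIn.2 ⟨(mem_erase.1 hj).2, k⟩))), sub_zero]
  refine (Ex_mono h0 h1 fun S _ => key S).trans ?_
  rw [Ex_sum]
  refine (sum_le_sum (g := fun _ => (η * R'.card) ^ 3) fun i hi => ?_).trans_eq (by simp)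
  rw [Ex_prod ((range 4).erase i) (fun j => {j} ×ˢ R')
    (fun i _ j _ k => disjoint_product.2 (Or.inl (disjoint_singleton.2 k)))
    fun j T => 1 - emp T ({j} ×ˢ R')]
  refine (prod_le_prod (g := fun _ => η * R'.card) (fun j _ => Ex_nonneg h0 h1 fun _ _ =>
    sub_nonneg.2 (emp_le_one _ _)) fun j _ => ?_).trans_eq ?_
  · simp only [emp_inter]
    rw [Ex_sub, Ex_const, Ex_emp]
    refine (Block_bern h1 _).trans (mul_le_mul_of_nonneg_left (Nat.cast_le.2 ?_) h0)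
    exact (card_le_card inter_subset_left).trans_eq (by simp)
  · rw [prod_const, card_erase_of_mem hi, card_range]

theorem Block_low {ι : Type} [DecidableEq ι] (h0 : 0 ≤ η) (h1 : η ≤ 1) {Ω : Finset ι}
    {F : Finset ι → ℝ} {Y : ℝ} (h : ∀ S ⊆ Ω, |F S| ≤ Y) {S : Finset ι} (hS : S ⊆ Ω) :
    -(2 * Y) ≤ F S - Ex η Ω F := by
  have a := (Ex_mono h0 h1 fun T hT => (abs_le.1 (h T hT)).2).trans_eq (Ex_const Y)
  have b := (abs_le.1 (h S hS)).1
  linarith

/-- variance bound for a thin line -/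
theorem Block_varA (h0 : 0 ≤ η) (h1 : η ≤ 1) (c : ℕ) (R R' : Finset α) (x : Finset ℕ → ℝ)
    {Y1 Y2 : ℝ} (hx1 : ∀ J ⊆ range 4, |x J| ≤ Y1) (hx2 : ∀ J ⊆ range 4, 2 ≤ J.card → |x J| ≤ Y2) :
    Vr η (range (c + 4) ×ˢ R) (fun S => emp S (Ico 4 (c + 4) ×ˢ R) * x (Block_J R' S)) ≤
      4 * Y2 ^ 2 * ((c + 4) * (η * R.card)) + 2 * Y1 ^ 2 * (4 * (η * R'.card) ^ 3) := by
  have f2 := hx2 _ subset_rfl (by simp)
  have g2 : x (range 4) ^ 2 ≤ Y2 ^ 2 := sq_le_sq' (abs_le.1 f2).1 (abs_le.1 f2).2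
  refine (Vr_le _ (x (range 4))).trans ((Ex_mono h0 h1 (g := fun S =>
    4 * Y2 ^ 2 * ind (¬ Disjoint S (range (c + 4) ×ˢ R)) +
      2 * Y1 ^ 2 * ind (¬ 2 ≤ (Block_J R' S).card)) fun S hS => ?_).trans ?_)
  · have n := ind_nonneg (¬ 2 ≤ (Block_J R' S).card)
    by_cases h : Disjoint S (range (c + 4) ×ˢ R)
    · have e : S = ∅ := by simpa using h.eq_bot_of_le hS
      have e' : Block_J R' S = range 4 := by
        ext j
        simp [Block_J, e]
      have e0 : emp S (Ico 4 (c + 4) ×ˢ R) * x (Block_J R' S) - x (range 4) = 0 := by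
        rw [e', emp, ind_pos (by simp [e]), one_mul, sub_self]
      rw [e0, zero_pow two_ne_zero]
      exact add_nonneg (mul_nonneg (by positivity) (ind_nonneg _)) (mul_nonneg (by positivity) n)
    · have k0 := emp_nonneg S (Ico 4 (c + 4) ×ˢ R)
      have k1 := emp_le_one S (Ico 4 (c + 4) ×ˢ R)
      have k2 : (emp S (Ico 4 (c + 4) ×ˢ R) * x (Block_J R' S)) ^ 2 ≤ x (Block_J R' S) ^ 2 := by
        rw [mul_pow]
        exact mul_le_of_le_one_left (sq_nonneg _) (pow_le_one₀ k0 k1)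
      have k3 := sq_nonneg (emp S (Ico 4 (c + 4) ×ˢ R) * x (Block_J R' S) + x (range 4))
      rw [ind_pos h]
      by_cases h' : 2 ≤ (Block_J R' S).card
      · have f := hx2 _ (selIn_subset _ _) h'
        have g : x (Block_J R' S) ^ 2 ≤ Y2 ^ 2 := sq_le_sq' (abs_le.1 f).1 (abs_le.1 f).2
        rw [ind_neg (not_not.2 h')]
        nlinarith
      · have f := hx1 _ (selIn_subset (range 4) fun j => Disjoint S ({j} ×ˢ R'))
        have g : x (Block_J R' S) ^ 2 ≤ Y1 ^ 2 := sq_le_sq' (abs_le.1 f).1 (abs_le.1 f).2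
        rw [ind_pos h']
        nlinarith [sq_nonneg Y2]
  · rw [Ex_add, Ex_mul_left, Ex_mul_left]
    refine add_le_add (mul_le_mul_of_nonneg_left ?_ (by positivity))
      (mul_le_mul_of_nonneg_left (Block_three h0 h1 _ R') (by positivity))
    refine (Pr_not_disjoint h0 h1 _).trans_eq ?_
    rw [inter_self, card_product, card_range]
    push_cast
    ring

theorem Block_k (c : ℕ) (R : Finset α) :
    Ex η (range (c + 4) ×ˢ R) (fun S => emp S (Ico 4 (c + 4) ×ˢ R)) = (1 - η) ^ (c * R.card) := by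
  rw [Ex_kill, inter_self]

/-- variance bound for a thick line -/
theorem Block_varB (h0 : 0 ≤ η) (h1 : η ≤ 1) (c : ℕ) (R : Finset α) (y : Finset (ℕ × α) → ℝ)
    {Y : ℝ} (hy : ∀ S, y S ^ 2 ≤ Y) :
    Vr η (range (c + 4) ×ˢ R) (fun S => emp S (Ico 4 (c + 4) ×ˢ R) * y S) ≤
      Y * (1 - η) ^ (c * R.card) := by
  rw [← Block_k, ← Ex_mul_left]
  refine (Vr_le _ 0).trans (Ex_mono h0 h1 fun S _ => ?_)
  have k0 := emp_nonneg S (Ico 4 (c + 4) ×ˢ R)
  have k1 := emp_le_one S (Ico 4 (c + 4) ×ˢ R)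
  rw [sub_zero, mul_pow, mul_comm]
  exact mul_le_mul (hy S) (by nlinarith) (sq_nonneg _) ((sq_nonneg _).trans (hy S))

theorem Block_numA {n δ δ' ψ z y Λ : ℝ} (hn : 1 ≤ n) (d0 : 0 ≤ δ') (d1 : δ' ≤ δ) (d2 : δ ≤ 1)
    (hy : 0 ≤ y) (hΛ : Λ ^ 2 = 8 * y) :
    4 * (2 * ψ + 4 * z * δ' ^ 2 + Λ) ^ 2 * (n * δ) + 2 * (2 * z + Λ) ^ 2 * (4 * δ' ^ 3) ≤
      40000 * n * (δ * (ψ ^ 2 + y) + z ^ 2 * (δ' * δ' ^ 2)) := by
  have d : 0 ≤ δ := d0.trans d1
  have a1 : (2 * ψ + 4 * z * δ' ^ 2 + Λ) ^ 2 ≤ 12 * ψ ^ 2 + 48 * (z ^ 2 * δ' ^ 4) + 24 * y := by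
    nlinarith [sq_nonneg (2 * ψ - 4 * z * δ' ^ 2), sq_nonneg (2 * ψ - Λ),
      sq_nonneg (4 * z * δ' ^ 2 - Λ)]
  have a2 : (2 * z + Λ) ^ 2 ≤ 8 * z ^ 2 + 16 * y := by nlinarith [sq_nonneg (2 * z - Λ)]
  have c3 : 0 ≤ δ' ^ 3 := by positivity
  have a3 : δ' ^ 3 ≤ δ := (pow_le_of_le_one d0 (d1.trans d2) three_ne_zero).trans d1
  have a4 : δ' ^ 4 * δ ≤ δ' ^ 3 := by
    rw [pow_succ, mul_assoc]
    exact mul_le_of_le_one_right c3 (mul_le_one₀ (d1.trans d2) d d2)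
  have b1 : (2 * ψ + 4 * z * δ' ^ 2 + Λ) ^ 2 * δ ≤
      12 * (δ * ψ ^ 2) + 48 * (z ^ 2 * δ' ^ 3) + 24 * (δ * y) := by
    have := mul_le_mul_of_nonneg_right a1 d
    have := mul_le_mul_of_nonneg_left a4 (sq_nonneg z)
    nlinarith
  have b2 : (2 * z + Λ) ^ 2 * δ' ^ 3 ≤ 8 * (z ^ 2 * δ' ^ 3) + 16 * (δ * y) := by
    have := mul_le_mul_of_nonneg_right a2 c3
    have := mul_le_mul_of_nonneg_right a3 hy
    nlinarith
  have p1 : 0 ≤ δ * ψ ^ 2 := by positivity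
  have p2 : 0 ≤ z ^ 2 * δ' ^ 3 := by positivity
  have p3 : 0 ≤ δ * y := by positivity
  have b3 := mul_le_mul_of_nonneg_left b1 (zero_le_one.trans hn)
  have b4 : (2 * z + Λ) ^ 2 * δ' ^ 3 ≤ n * (8 * (z ^ 2 * δ' ^ 3) + 16 * (δ * y)) :=
    b2.trans (le_mul_of_one_le_left (by positivity) hn)
  have q1 := mul_nonneg (zero_le_one.trans hn) p1
  have q2 := mul_nonneg (zero_le_one.trans hn) p2
  have q3 := mul_nonneg (zero_le_one.trans hn) p3
  nlinarith

theorem Block_n1 {p r γ u d : ℝ} (p0 : 0 ≤ p) (p1 : p ≤ 1) (r1 : r ≤ 1) (hr : 1 - r ≤ d)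
    (h : |p * r - γ| ≤ u) : |p - γ| ≤ u + d := by
  have a := abs_le.1 h
  rw [abs_le]
  constructor <;> nlinarith

theorem Block_n2 {a s u d : ℝ} (a0 : 0 ≤ a) (h : a ≤ s) :
    a * (u + d) ^ 2 ≤ 2 * (s * u ^ 2) + 2 * d ^ 2 * a := by
  have a1 := mul_le_mul_of_nonneg_right h (sq_nonneg u)
  have a2 := mul_nonneg a0 (sq_nonneg (u - d))
  nlinarith

theorem Block_n3 {t s k Λ y : ℝ} (t0 : 0 ≤ t) (k0 : 0 ≤ k) (hs : t * Real.sqrt k ≤ s)
    (h : Λ ^ 2 * k ≤ 8 * y) : (t + Λ) ^ 2 * k ≤ 2 * s ^ 2 + 16 * y := by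
  have a := pow_le_pow_left₀ (mul_nonneg t0 (Real.sqrt_nonneg k)) hs 2
  rw [mul_pow, Real.sq_sqrt k0] at a
  have := mul_nonneg (sq_nonneg (t - Λ)) k0
  nlinarith

theorem Block_n4 {x m e k Λ z : ℝ} (h : |x - m| ≤ Λ) (m0 : 0 ≤ m) (e0 : 0 ≤ e) (e1 : e ≤ 1)
    (k0 : 0 ≤ k) (k1 : k ≤ 1) (z0 : 0 ≤ z) (hz : m * k ≤ z) : -(z + Λ) ≤ x * e - x * k := by
  have g := abs_le.1 h
  have Λ0 : 0 ≤ Λ := (abs_nonneg _).trans h
  rcases le_total 0 x with h | h
  · have := mul_nonneg h e0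
    have := mul_le_mul_of_nonneg_right g.2 k0
    have := mul_le_of_le_one_right Λ0 k1
    nlinarith
  · have := mul_nonneg (neg_nonneg.2 h) k0
    have := mul_nonneg (neg_nonneg.2 h) (sub_nonneg.2 e1)
    nlinarith

theorem Block_n5 {n δ ψ y D Q : ℝ} (hn : 4 ≤ n) (hδ : 1 / 16 ≤ δ) (hy : 0 ≤ y) :
    2 * (2 * Q * D) ^ 2 + 16 * y ≤
      40000 * n * (δ * (ψ ^ 2 + y) + D ^ 2 * Q ^ 2 * (δ * min 1 δ ^ 2)) := by
  have y1 : 1 / 16 * (ψ ^ 2 + y) ≤ δ * (ψ ^ 2 + y) :=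
    mul_le_mul_of_nonneg_right hδ (by positivity)
  have a : 1 / 16 * (1 / 16) ^ 2 ≤ δ * min 1 δ ^ 2 :=
    mul_le_mul hδ (pow_le_pow_left₀ (by norm_num) (le_min (by norm_num) hδ) 2)
      (by norm_num) (by linarith)
  have a3 : 0 ≤ D ^ 2 * Q ^ 2 := by positivity
  have a1 := mul_le_mul_of_nonneg_left a a3
  have a2 := sq_nonneg ψ
  refine le_trans ?_ (mul_le_mul (mul_le_mul_of_nonneg_left hn (by norm_num))
    (add_le_add y1 a1) (by positivity) (by linarith))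
  linarith

theorem Block_n6 {n δ ψ y : ℝ} (hn : 4 ≤ n) (hδ : 1 / 16 ≤ δ) (hy : 0 ≤ y) :
    2 * ψ ^ 2 + 16 * y ≤ 40000 * n * (δ * (ψ ^ 2 + y)) := by
  have y1 : 1 / 16 * (ψ ^ 2 + y) ≤ δ * (ψ ^ 2 + y) :=
    mul_le_mul_of_nonneg_right hδ (by positivity)
  have a2 := sq_nonneg ψ
  refine le_trans ?_ (mul_le_mul (mul_le_mul_of_nonneg_left hn (by norm_num)) y1
    (by positivity) (by linarith))
  linarith

theorem Block_n7 {Λ L V Q : ℝ} (h : Λ ^ 2 = 4 * (L * V)) (L0 : 0 ≤ L) (hV : V ≤ 2 * Q) :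
    Λ ^ 2 ≤ 8 * (Q * L) := by
  have := mul_le_mul_of_nonneg_left hV L0
  linarith

theorem Block_n8 (h1 : η ≤ 1) {c n : ℕ} {t : ℝ} (h : t ≤ η * n) :
    (1 - η) ^ (c * n) ≤ Real.exp (-(c * t)) := by
  refine (Block_pow h1 _).trans (Real.exp_le_exp.2 ?_)
  have := mul_le_mul_of_nonneg_left h (Nat.cast_nonneg (α := ℝ) c)
  push_cast
  linarith

end helpers

/-- `R` = sampled points of the line, `A b` = the other points of the plane `b`, `A' b`, `R'` the
parts seen by the four centred groups. Write `β = 1 - η`, `r = |R|`, `δ = η r`, `δ' = η |R'|`,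
`a b = β ^ (c |A b|)`, `s b = sqrt (β ^ (c (|A b| + r))) ≤ exp (-c/10) ≤ D`.
For `S` in the block and `T` outside, the sum is `k S * X (J S) T`, `k S = emp S (kill ×ˢ R)`,
`J S = {j < 4 | S misses {j} ×ˢ R'}`,
`X J T = ∑ b, emp T (kill ×ˢ A b) * ∏ j < 4, ((if j ∈ J then emp T ({j} ×ˢ A' b) else 0) - γ)`.
Good `T`: `|X J T - E X J| ≤ Λ = 2 sqrt (Lp V)` for all 16 sets `J` (`bernstein` with
`lam = sqrt (Lp / V)`), `V = 2 Q D` if `δ ≤ 1/16` (then `a b ≤ s b`), else `V = 2 Q`.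
`|E X J| ≤ ∑ a b * min 1 (u b + δ') ^ 2 ≤ 2 ψ + 4 Q D δ' ^ 2` if `|J| ≥ 2`, and `≤ 2 Q D` always
(case `δ ≤ 1/16`); `Pr (|J| ≤ 1) ≤ 4 δ' ^ 3`, `Pr (S ≠ ∅) ≤ (c + 4) δ`; use `Vr_le` with the value
at `S = ∅`. Case `δ > 1/16`: `Vr_le` with `0`, `E k = β ^ (c r) ≤ D`, `sqrt (β ^ (c r)) a b ≤ s b`;
if `R' = ∅` then `J` is everything and `0 ≤ E X J ≤ ∑ a b u b ^ 2`. -/
theorem block {α κ : Type} [DecidableEq α] [DecidableEq κ] (c : ℕ) {η γ D Lp Q ψ : ℝ}
    (R R' O : Finset α) (B : Finset κ) (A A' : κ → Finset α) (u : κ → ℝ)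
    (hη0 : 0 < η) (hη1 : η ≤ 1 / 20) (hγ0 : 0 ≤ γ) (hγ1 : γ ≤ 1) (hD1 : D ≤ 1)
    (hD : Real.exp (-(c : ℝ) / 16) ≤ D) (hLp : 1 ≤ Lp) (hQ : 2 * Lp ≤ Q * D)
    (hB : (B.card : ℝ) ≤ 2 * Q) (hR' : R' = R ∨ R' = ∅) (hRO : Disjoint R O)
    (hA : ∀ b ∈ B, A b ⊆ O) (hA' : ∀ b ∈ B, A' b ⊆ A b)
    (hd : ∀ b ∈ B, ∀ b' ∈ B, b ≠ b' → Disjoint (A b) (A b'))
    (ht : ∀ b ∈ B, 1 / 5 ≤ η * ((A b).card + R.card))
    (hu0 : ∀ b ∈ B, 0 ≤ u b) (hu1 : ∀ b ∈ B, u b ≤ 1)
    (hu : ∀ b ∈ B, |(1 - η) ^ ((A' b).card + R'.card) - γ| ≤ u b)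
    (hψ : ∑ b ∈ B, Real.sqrt ((1 - η) ^ (c * ((A b).card + R.card))) * u b ^ 2 ≤ ψ) :
    badp η (range (c + 4) ×ˢ (R ∪ O)) (range (c + 4) ×ˢ R)
      (fun T => ∑ b ∈ B, xi c γ T (A b ∪ R) (A' b ∪ R'))
      (40000 * (c + 4) * (η * R.card * (ψ ^ 2 + Q * D * Lp) +
        D ^ 2 * Q ^ 2 * (η * R'.card * (min 1 (η * R'.card)) ^ 2)))
      (if η * R'.card ≤ 1 / 16 then 4 * Q * D + 6 * Real.sqrt (Q * Lp) else 4 * Q)
      ≤ 32 * Real.exp (-Lp) := by
  have h0 := hη0.le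
  have h1 : η ≤ 1 := by linarith
  have β0 : 0 ≤ 1 - η := by linarith
  have β1 : 1 - η ≤ 1 := by linarith
  have D0 : 0 < D := (Real.exp_pos _).trans_le hD
  have Q0 : 0 < Q := (pos_iff_pos_of_mul_pos (by linarith : 0 < Q * D)).2 D0
  have c0 : (0 : ℝ) ≤ c := Nat.cast_nonneg c
  have hR : R' ⊆ R := by rcases hR' with e | e <;> simp [e]
  have small : ∀ n : ℕ, 1 / 16 ≤ η * n → (1 - η) ^ (c * n) ≤ D := fun n hn => by
    refine (Block_n8 h1 hn).trans (le_trans (Real.exp_le_exp.2 ?_) hD)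
    linarith
  have card : ∀ t : ℝ, 0 ≤ t → ∑ _b ∈ B, t ≤ 2 * Q * t := fun t ht => by
    rw [sum_const, nsmul_eq_mul]
    exact mul_le_mul_of_nonneg_right hB ht
  have eΩ : range (c + 4) ×ˢ (R ∪ O) \ range (c + 4) ×ˢ R = range (c + 4) ×ˢ O := by
    rw [product_union, union_sdiff_cancel_left (disjoint_product.2 (Or.inr hRO))]
  have sL := Real.sqrt_nonneg (Q * Lp)
  have sL2 : Real.sqrt (Q * Lp) ^ 2 = Q * Lp := Real.sq_sqrt (by positivity)
  have QD : Q * D ≤ Q := mul_le_of_le_one_right Q0.le hD1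
  have L0 : 0 ≤ Lp := by linarith
  have QL : 0 ≤ Q * Lp := by positivity
  obtain ⟨V, hV, h4, hV2, hV3⟩ : ∃ V : ℝ, ∑ b ∈ B, (1 - η) ^ (c * (A b).card) ≤ V ∧ 4 * Lp ≤ V ∧
      V ≤ 2 * Q ∧ (η * R.card ≤ 1 / 16 → V = 2 * (Q * D)) := by
    by_cases hδ : η * R.card ≤ 1 / 16
    · refine ⟨2 * (Q * D), (sum_le_sum fun b hb => small _ ?_).trans ((card D D0.le).trans_eq
        (mul_assoc _ _ _)), by linarith, by linarith, fun _ => rfl⟩
      have := ht b hb
      linarith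
    · exact ⟨2 * Q, (sum_le_sum fun b _ => pow_le_one₀ β0 β1).trans ((card 1 zero_le_one).trans_eq
        (mul_one _)), by linarith, le_rfl, fun h => absurd h hδ⟩
  unfold badp
  rw [eΩ]
  refine le_trans (Pr_mono h0 h1 fun T hT hbad => ?_)
    (Block_good c O B A A' h0 h1 hγ0 hγ1 hLp hA hA' hd hV h4)
  by_contra hg
  refine hbad ?_
  clear hbad
  beta_reduce
  have Λ0 : 0 ≤ 2 * Real.sqrt (Lp * V) := by positivity
  have Λ2 : (2 * Real.sqrt (Lp * V)) ^ 2 = 4 * (Lp * V) := by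
    rw [mul_pow, Real.sq_sqrt (mul_nonneg L0 (by linarith))]
    norm_num
  generalize 2 * Real.sqrt (Lp * V) = Λ at hg Λ0 Λ2
  have Λ5 := Block_n7 Λ2 L0 hV2
  have Λ3 : Λ ≤ 3 * Real.sqrt (Q * Lp) :=
    (pow_le_pow_iff_left₀ Λ0 (by positivity) two_ne_zero).1 (by rw [mul_pow, sL2]; linarith)
  obtain ⟨x, hx⟩ : ∃ x : Finset ℕ → ℝ, ∀ J, x J = ∑ b ∈ B, Block_g c γ J (A b) (A' b) T :=
    ⟨_, fun _ => rfl⟩
  obtain ⟨m, hm⟩ : ∃ m : Finset ℕ → ℝ, ∀ J, m J = ∑ b ∈ B, (1 - η) ^ (c * (A b).card) *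
    ∏ j ∈ range 4, ((if j ∈ J then (1 - η) ^ (A' b).card else 0) - γ) := ⟨_, fun _ => rfl⟩
  have good : ∀ J ⊆ range 4, |x J - m J| ≤ Λ := fun J hJ => by
    rw [hx, hm, ← sum_congr rfl fun b hb => Block_mean c γ J (hA b hb) ((hA' b hb).trans (hA b hb))]
    exact (not_le.1 fun k => hg ⟨J, mem_powerset.2 hJ, k⟩).le
  have tri : ∀ J ⊆ range 4, |x J| ≤ |m J| + Λ := fun J hJ => by
    have := abs_sub_abs_le_abs_sub (x J) (m J)
    have := good J hJ
    linarith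
  have p0 : ∀ n : ℕ, 0 ≤ (1 - η) ^ n := fun n => pow_nonneg β0 n
  have p1 : ∀ n : ℕ, (1 - η) ^ n ≤ 1 := fun n => pow_le_one₀ β0 β1
  have mle : ∀ (J) (w : κ → ℝ), (∀ b ∈ B,
      |∏ j ∈ range 4, ((if j ∈ J then (1 - η) ^ (A' b).card else 0) - γ)| ≤ w b) →
      |m J| ≤ ∑ b ∈ B, (1 - η) ^ (c * (A b).card) * w b := fun J w hw => by
    rw [hm]
    refine (abs_sum_le_sum_abs _ _).trans (sum_le_sum fun b hb => ?_)
    rw [abs_mul, abs_of_nonneg (p0 _)]
    exact mul_le_mul_of_nonneg_left (hw b hb) (p0 _)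
  have m1 : ∀ J, |m J| ≤ ∑ b ∈ B, (1 - η) ^ (c * (A b).card) := fun J => by
    simpa only [mul_one] using mle J (fun _ => 1) fun b _ => Block_prod1 (p0 _) (p1 _) hγ0 hγ1 J
  have eF : ∀ S ⊆ range (c + 4) ×ˢ R, ∑ b ∈ B, xi c γ (S ∪ T) (A b ∪ R) (A' b ∪ R') =
      emp S (Ico 4 (c + 4) ×ˢ R) * x (Block_J R' S) := fun S hS => by
    rw [hx, mul_sum]
    exact sum_congr rfl fun b hb => Block_split c γ hS hT hRO (hA b hb) (hA' b hb) hR
  have eE := Ex_congr (η := η) eF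
  have eV : Vr η (range (c + 4) ×ˢ R) (fun S => ∑ b ∈ B, xi c γ (S ∪ T) (A b ∪ R) (A' b ∪ R')) =
      Vr η (range (c + 4) ×ˢ R) fun S => emp S (Ico 4 (c + 4) ×ˢ R) * x (Block_J R' S) := by
    unfold Vr
    rw [eE]
    exact Ex_congr fun S hS => congrArg (fun t => (t - _) ^ 2) (eF S hS)
  rw [eV, eE]
  have kabs : ∀ (S : Finset (ℕ × α)) (t : ℝ), |emp S (Ico 4 (c + 4) ×ˢ R) * t| ≤ |t| :=
    fun S t => by
      rw [abs_mul, abs_of_nonneg (emp_nonneg _ _)]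
      exact mul_le_of_le_one_left (abs_nonneg _) (emp_le_one _ _)
  have Jsub : ∀ S, Block_J R' S ⊆ range 4 := fun S => selIn_subset _ _
  have d0 : 0 ≤ η * R'.card := by positivity
  have d1 : η * R'.card ≤ η * R.card :=
    mul_le_mul_of_nonneg_left (Nat.cast_le.2 (card_le_card hR)) h0
  have y0 : 0 ≤ Q * D * Lp := by positivity
  have n1 : (4 : ℝ) ≤ c + 4 := by linarith
  -- the square root of the kill probability
  have k0 := Real.sqrt_nonneg ((1 - η) ^ (c * R.card))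
  have k2 := Real.sq_sqrt (p0 (c * R.card))
  have ks : ∀ b ∈ B, (1 - η) ^ (c * (A b).card) * Real.sqrt ((1 - η) ^ (c * R.card)) ≤
      Real.sqrt ((1 - η) ^ (c * ((A b).card + R.card))) := fun b _ => by
    refine Real.le_sqrt_of_sq_le ?_
    rw [mul_pow, k2, mul_add, pow_add]
    exact mul_le_mul_of_nonneg_right (pow_le_of_le_one (p0 _) (p1 _) two_ne_zero) (p0 _)
  have sD : ∀ b ∈ B, Real.sqrt ((1 - η) ^ (c * ((A b).card + R.card))) ≤ D := fun b hb => by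
    refine le_trans (Real.sqrt_le_iff.2 ⟨(Real.exp_pos _).le,
      (Block_n8 h1 (t := 1 / 5) (by push_cast; exact ht b hb)).trans ?_⟩) hD
    rw [← Real.exp_nat_mul]
    refine Real.exp_le_exp.2 ?_
    push_cast
    linarith
  by_cases hδ : η * R.card ≤ 1 / 16
  · have hδ' := d1.trans hδ
    have eV' := hV3 hδ
    have x1 : ∀ J ⊆ range 4, |x J| ≤ 2 * (Q * D) + Λ := fun J hJ => by
      have := tri J hJ
      have := m1 J
      linarith
    have x2 : ∀ J ⊆ range 4, 2 ≤ J.card →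
        |x J| ≤ 2 * ψ + 4 * (Q * D) * (η * R'.card) ^ 2 + Λ := fun J hJ h2 => by
      refine (tri J hJ).trans (add_le_add_left ?_ _)
      refine (mle J (fun b => (u b + η * R'.card) ^ 2) fun b hb =>
        Block_prod (p0 _) (p1 _) hγ0 hγ1 hJ h2 ?_).trans ?_
      · exact Block_n1 (p0 _) (p1 _) (p1 _) (Block_bern h1 _) (pow_add (1 - η) _ _ ▸ hu b hb)
      · refine (sum_le_sum (g := fun b =>
          2 * (Real.sqrt ((1 - η) ^ (c * ((A b).card + R.card))) * u b ^ 2) +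
            2 * (η * R'.card) ^ 2 * (1 - η) ^ (c * (A b).card)) fun b hb => ?_).trans ?_
        · refine Block_n2 (p0 _) (Real.le_sqrt_of_sq_le ?_)
          rw [← pow_mul, mul_assoc]
          refine pow_le_pow_of_le_one β0 β1 (Nat.mul_le_mul_left c ?_)
          have : (R.card : ℝ) ≤ (A b).card := by
            have := ht b hb
            exact le_of_mul_le_mul_left (by linarith) hη0
          have : R.card ≤ (A b).card := Nat.cast_le.1 this
          omega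
        · rw [sum_add_distrib, ← mul_sum, ← mul_sum]
          have := mul_le_mul_of_nonneg_left hV (sq_nonneg (η * R'.card))
          rw [eV'] at this
          linarith
    refine ⟨(Block_varA h0 h1 c R R' x x1 x2).trans ?_, fun S hS => ?_⟩
    · rw [min_eq_right (by linarith)]
      refine (Block_numA (y := Q * D * Lp) (by linarith) d0 d1 (by linarith) y0
        (by rw [Λ2, eV']; ring)).trans_eq ?_
      ring
    · have := Block_low h0 h1 (fun S _ => (kabs S _).trans (x1 _ (Jsub S))) hS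
      rw [if_pos hδ', eF S hS]
      linarith
  · have hδ1 := (not_le.1 hδ).le
    have kD := small _ hδ1
    have Λ4 : Λ ^ 2 * (1 - η) ^ (c * R.card) ≤ 8 * (Q * D * Lp) := by
      exact (mul_le_mul Λ5 kD (p0 _) (by positivity)).trans_eq (by ring)
    have z1 : ∀ w : κ → ℝ, (∀ b ∈ B, 0 ≤ w b) →
        (∑ b ∈ B, (1 - η) ^ (c * (A b).card) * w b) * Real.sqrt ((1 - η) ^ (c * R.card)) ≤
        ∑ b ∈ B, Real.sqrt ((1 - η) ^ (c * ((A b).card + R.card))) * w b := fun w hw => by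
      rw [sum_mul]
      refine sum_le_sum fun b hb => ?_
      rw [mul_right_comm]
      exact mul_le_mul_of_nonneg_right (ks b hb) (hw b hb)
    rcases hR' with e | e
    · subst e
      have a0 : 0 ≤ ∑ b ∈ B, (1 - η) ^ (c * (A b).card) := sum_nonneg fun b _ => p0 _
      refine ⟨(Block_varB h0 h1 c R' _ (Y := (∑ b ∈ B, (1 - η) ^ (c * (A b).card) + Λ) ^ 2)
        fun S => ?_).trans ((Block_n3 (s := 2 * Q * D) a0 (p0 _) ?_ Λ4).trans
          (Block_n5 n1 hδ1 y0)), fun S hS => ?_⟩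
      · have := abs_le.1 ((tri _ (Jsub S)).trans (add_le_add_left (m1 _) _))
        exact sq_le_sq' this.1 this.2
      · have := z1 (fun _ => 1) fun _ _ => zero_le_one
        simp only [mul_one] at this
        exact this.trans ((sum_le_sum sD).trans (card D D0.le))
      · have := Block_low h0 h1 (Y := 2 * Q) (fun S _ => (kabs S (x (Block_J R' S))).trans (by
          rw [hx]
          exact (abs_sum_le_sum_abs _ _).trans ((sum_le_sum fun b _ =>
            (Block_abs c hγ0 hγ1 _ _ _ T).trans (emp_le_one _ _)).trans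
              ((card 1 zero_le_one).trans_eq (mul_one _))))) hS
        rw [if_neg hδ, eF S hS]
        linarith
    · subst e
      have eJ : ∀ S : Finset (ℕ × α), Block_J ∅ S = range 4 := fun S => by
        ext j
        simp [Block_J]
      have mu : |m (range 4)| ≤ ∑ b ∈ B, (1 - η) ^ (c * (A b).card) * u b ^ 2 :=
        mle _ _ fun b hb => Block_prod (p0 _) (p1 _) hγ0 hγ1 subset_rfl (by simp)
          (by simpa using hu b hb)
      have m0 : 0 ≤ m (range 4) := by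
        rw [hm]
        refine sum_nonneg fun b _ => mul_nonneg (p0 _) ?_
        rw [prod_congr rfl fun j hj => by rw [if_pos hj], prod_const, card_range]
        positivity
      have a0 : 0 ≤ ∑ b ∈ B, (1 - η) ^ (c * (A b).card) * u b ^ 2 := (abs_nonneg _).trans mu
      simp only [eJ]
      refine ⟨(Block_varB h0 h1 c R _
        (Y := (∑ b ∈ B, (1 - η) ^ (c * (A b).card) * u b ^ 2 + Λ) ^ 2)
        fun S => ?_).trans ((Block_n3 a0 (p0 _) ((z1 _ fun b _ => sq_nonneg _).trans hψ) Λ4).trans ?_),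
        fun S hS => ?_⟩
      · have := abs_le.1 ((tri _ subset_rfl).trans (add_le_add_left mu _))
        exact sq_le_sq' this.1 this.2
      · rw [card_empty, Nat.cast_zero, mul_zero, zero_mul, mul_zero, add_zero]
        exact Block_n6 n1 hδ1 y0
      · rw [if_pos (by simp), eF S hS, eJ]
        simp only [mul_comm _ (x (range 4))]
        rw [Ex_mul_left, Block_k]
        have b2 : m (range 4) * (1 - η) ^ (c * R.card) ≤ 2 * Q * D :=
          mul_le_mul (((le_abs_self _).trans (m1 _)).trans (hV.trans hV2)) kD (p0 _)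
            (by positivity)
        have := Block_n4 (good _ subset_rfl) m0 (emp_nonneg S (Ico 4 (c + 4) ×ˢ R))
          (emp_le_one _ _) (p0 _) (p1 _) (by positivity) b2
        have : 0 ≤ Q * D := by positivity
        linarith

end Pool.Agent.Work.MP_e10cd8_co.Four
end

-- merged part: Pool.Agent.Work.MP_e10cd8_co.Four.PointT
section
/-! The part of the statistic over planes that are not low, at one point (paper 5.2, 5.3). -/

namespace Pool.Agent.Work.MP_e10cd8_co.Four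
namespace PG
open Finset

variable {q : ℕ} {Pt : Type} [Fintype Pt] [DecidableEq Pt] (G : PG q Pt)

theorem PointT_min {z x y e : ℝ} (h1 : z ≤ 1) (h2 : z ≤ |x| + |y| + 2 * e) (he : 0 ≤ e) :
    z ≤ min 1 (min 1 |x| + min 1 |y| + 2 * e) := by
  refine le_min h1 ?_
  have hx := abs_nonneg x
  have hy := abs_nonneg y
  rcases le_total 1 |x| with a | a <;> rcases le_total 1 |y| with b | b <;>
    simp only [min_eq_left, min_eq_right, a, b] <;> linarith

/-- `η N' = tb - η |pl b ∩ th ∩ P| - η [a ∈ P \ th]` and `η nuT ∈ (1 - θ - η, 1 - θ]`;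
`abs_pow_sub_pow_le` -/
theorem abs_sub_le_ub {P H : Finset Pt} (hP : P.Nonempty) (hη : eta q P ≤ 1) {a b : Pt}
    (hb : b ∈ G.pl a) :
    |(1 - eta q P) ^ (((G.pl b).erase a \ G.th H a) ∩ P).card - (1 - eta q P) ^ G.nuT P H a| ≤
      G.ub P H a b := by
  have hn : (0 : ℝ) < P.card := by exact_mod_cast hP.card_pos
  have hq := G.Means_q
  have hq' : 0 < q := by exact_mod_cast hq
  have h0 : 0 ≤ eta q P := Means_eta P
  have e1 : (G.pl b ∩ G.th H a ∩ P).card + ((G.pl b \ G.th H a) ∩ P).card = G.cnt P b := by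
    unfold cnt
    rw [← card_union_of_disjoint (by
      rw [disjoint_left]
      intro x hx hx'
      simp only [mem_inter, mem_sdiff] at hx hx'
      exact hx'.1.2 hx.1.2)]
    congr 1
    ext x
    simp only [mem_union, mem_inter, mem_sdiff]
    tauto
  have e2 : ((G.pl b).erase a \ G.th H a) ∩ P = ((G.pl b \ G.th H a) ∩ P).erase a := by
    ext x
    simp only [mem_inter, mem_sdiff, mem_erase]
    tauto
  have e3 := card_erase_le (s := (G.pl b \ G.th H a) ∩ P) (a := a)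
  have e4 := pred_card_le_card_erase (s := (G.pl b \ G.th H a) ∩ P) (a := a)
  rw [← e2] at e3 e4
  have e5 : (P \ G.th H a).card + (G.th H a ∩ P).card = P.card := by
    rw [inter_comm]
    exact card_sdiff_add_card_inter _ _
  have e6 : G.nuT P H a * q ≤ (P \ G.th H a).card := Nat.div_mul_le_self _ _
  have e7 : (P \ G.th H a).card < (G.nuT P H a + 1) * q := by
    rw [mul_comm]
    exact Nat.lt_mul_div_succ _ hq'
  have hb1 : |(1 - eta q P) ^ (((G.pl b).erase a \ G.th H a) ∩ P).card -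
      (1 - eta q P) ^ G.nuT P H a| ≤ 1 := by
    have b0 : 0 ≤ 1 - eta q P := sub_nonneg.2 hη
    have b1 : 1 - eta q P ≤ 1 := by linarith
    have c1 := pow_le_one₀ (n := (((G.pl b).erase a \ G.th H a) ∩ P).card) b0 b1
    have c2 := pow_le_one₀ (n := G.nuT P H a) b0 b1
    have c3 := pow_nonneg b0 (((G.pl b).erase a \ G.th H a) ∩ P).card
    have c4 := pow_nonneg b0 (G.nuT P H a)
    rw [abs_le]
    constructor <;> linarith
  have hb2 := abs_pow_sub_pow_le h0 hη (((G.pl b).erase a \ G.th H a) ∩ P).card (G.nuT P H a)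
  have hc := eta_mul_card (q := q) hP
  have hθ : ((G.th H a ∩ P).card : ℝ) / P.card * q = eta q P * (G.th H a ∩ P).card := by
    unfold eta
    ring
  refine PointT_min hb1 (hb2.trans ?_) h0
  generalize (((G.pl b).erase a \ G.th H a) ∩ P).card = N at *
  generalize ((G.pl b \ G.th H a) ∩ P).card = N1 at *
  have f1 : ((G.pl b ∩ G.th H a ∩ P).card : ℝ) + N1 = G.cnt P b := by exact_mod_cast e1
  have f3 : (N : ℝ) ≤ N1 := by exact_mod_cast e3
  have f4 : (N1 : ℝ) ≤ N + 1 := by exact_mod_cast (by omega : N1 ≤ N + 1)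
  have f5 : ((P \ G.th H a).card : ℝ) + (G.th H a ∩ P).card = P.card := by exact_mod_cast e5
  have f6 : (G.nuT P H a : ℝ) * q ≤ (P \ G.th H a).card := by exact_mod_cast e6
  have f7 : ((P \ G.th H a).card : ℝ) ≤ (G.nuT P H a + 1) * q := by exact_mod_cast e7.le
  have g1 : eta q P * G.nuT P H a ≤ 1 - ((G.th H a ∩ P).card : ℝ) / P.card := by
    apply le_of_mul_le_mul_right _ hq
    have := mul_le_mul_of_nonneg_left f6 h0
    have k : eta q P * (P \ G.th H a).card + eta q P * (G.th H a ∩ P).card = q := by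
      rw [← mul_add, f5, hc]
    rw [sub_mul, hθ]
    linarith
  have g2 : 1 - ((G.th H a ∩ P).card : ℝ) / P.card ≤ eta q P * G.nuT P H a + eta q P := by
    apply le_of_mul_le_mul_right _ hq
    have := mul_le_mul_of_nonneg_left f7 h0
    have k : eta q P * (P \ G.th H a).card + eta q P * (G.th H a ∩ P).card = q := by
      rw [← mul_add, f5, hc]
    rw [sub_mul, hθ]
    linarith
  have g3 := mul_le_mul_of_nonneg_left f3 h0
  have g4 := mul_le_mul_of_nonneg_left f4 h0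
  have g5 : G.tb P b = eta q P * (G.pl b ∩ G.th H a ∩ P).card + eta q P * N1 := by
    unfold tb
    rw [← f1]
    ring
  have a1 := le_abs_self (G.tb P b - 1)
  have a2 := neg_abs_le (G.tb P b - 1)
  have a3 := le_abs_self (eta q P * (G.pl b ∩ G.th H a ∩ P).card -
    ((G.th H a ∩ P).card : ℝ) / P.card)
  have a4 := neg_abs_le (eta q P * (G.pl b ∩ G.th H a ∩ P).card -
    ((G.th H a ∩ P).card : ℝ) / P.card)
  rw [← abs_of_nonneg h0, ← abs_mul, abs_of_nonneg h0, abs_le]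
  constructor <;> linarith

omit [Fintype Pt] [DecidableEq Pt] in
theorem PointT_eta {w : ℝ} {c : ℕ} (hp : Par q w c) {P : Finset Pt}
    (hn1 : 4 * (c + 4) * q ≤ P.card) : P.Nonempty ∧ 0 < eta q P ∧ eta q P ≤ 1 / 20 := by
  have hq : 0 < q := by exact_mod_cast hp.q_pos
  have hP := nonempty_of_le hq hn1
  have h0 := eta_pos hq hP
  have h1 := eta_le hq hn1
  have h2 : (1000 : ℝ) ≤ c := by exact_mod_cast hp.le_c
  refine ⟨hP, h0, ?_⟩
  nlinarith

theorem PointT_cnt {P : Finset Pt} (h0 : 0 ≤ eta q P) (h1 : eta q P ≤ 1 / 20)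
    (a b : Pt) : G.tb P b - 1 / 20 ≤ eta q P * ((G.pl b).erase a ∩ P).card := by
  have e : (G.pl b).erase a ∩ P = (G.pl b ∩ P).erase a := by
    ext x
    simp only [mem_inter, mem_erase]
    tauto
  have e4 := pred_card_le_card_erase (s := G.pl b ∩ P) (a := a)
  rw [← e] at e4
  have f : (G.cnt P b : ℝ) ≤ ((G.pl b).erase a ∩ P).card + 1 := by
    unfold cnt
    exact_mod_cast (by omega : (G.pl b ∩ P).card ≤ ((G.pl b).erase a ∩ P).card + 1)
  have := mul_le_mul_of_nonneg_left f h0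
  unfold tb
  linarith

theorem PointT_damp {w : ℝ} {c : ℕ} (hp : Par q w c) {P : Finset Pt}
    (hn1 : 4 * (c + 4) * q ≤ P.card) (a : Pt) {b : Pt} (hb : b ∉ G.low (1 / 4) P) :
    Real.sqrt ((1 - eta q P) ^ (c * ((G.pl b).erase a ∩ P).card)) ≤ 1 / w ^ 20 * G.om P b := by
  obtain ⟨hP, h0, h1⟩ := PointT_eta hp hn1
  exact (G.damp hP (by linarith) (le_trans (by norm_num) hp.le_c) hb
    (G.PointT_cnt h0.le h1 a b)).trans
    (mul_le_mul_of_nonneg_right hp.exp20 (G.om_nonneg P b))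

theorem pt_mean {w : ℝ} {c : ℕ} (hp : Par q w c) {P H : Finset Pt}
    (hn1 : 4 * (c + 4) * q ≤ P.card) (a : Pt) :
    0 ≤ Ex (eta q P) (range (c + 4) ×ˢ P)
        (G.Sst c ((1 - eta q P) ^ G.nuT P H a) H (G.low (1 / 4) P)ᶜ a) ∧
      Ex (eta q P) (range (c + 4) ×ˢ P)
        (G.Sst c ((1 - eta q P) ^ G.nuT P H a) H (G.low (1 / 4) P)ᶜ a) ≤
        1 / w ^ 20 * ∑ b ∈ G.pl a, G.om P b * G.ub P H a b ^ 2 := by
  obtain ⟨hP, h0, h1⟩ := PointT_eta hp hn1
  have b0 : 0 ≤ 1 - eta q P := by linarith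
  have e : Ex (eta q P) (range (c + 4) ×ˢ P)
      (G.Sst c ((1 - eta q P) ^ G.nuT P H a) H (G.low (1 / 4) P)ᶜ a) =
      ∑ b ∈ (G.pl a \ H) ∩ (G.low (1 / 4) P)ᶜ,
        (1 - eta q P) ^ (c * ((G.pl b).erase a ∩ P).card) *
          ((1 - eta q P) ^ (((G.pl b).erase a \ G.th H a) ∩ P).card -
            (1 - eta q P) ^ G.nuT P H a) ^ 4 := by
    rw [← sum_congr rfl fun b _ => Ex_xi (η := eta q P) c ((1 - eta q P) ^ G.nuT P H a) P
      ((G.pl b).erase a) ((G.pl b).erase a \ G.th H a), ← Ex_sum]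
    rfl
  rw [e]
  refine ⟨sum_nonneg fun b _ => mul_nonneg (pow_nonneg b0 _) (by positivity), ?_⟩
  rw [mul_sum]
  have hw : 0 ≤ 1 / w ^ 20 := by have := hp.w_pos; positivity
  refine le_trans (sum_le_sum fun b hb => ?_) (sum_le_sum_of_subset_of_nonneg
    (inter_subset_left.trans sdiff_subset) fun b _ _ =>
      mul_nonneg hw (mul_nonneg (G.om_nonneg P b) (sq_nonneg _)))
  simp only [mem_inter, mem_sdiff, mem_compl] at hb
  have d1 := G.PointT_damp hp hn1 a hb.2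
  have d2 := G.abs_sub_le_ub (H := H) hP (by linarith) hb.1.1
  have u0 := G.ub_nonneg P H a b
  have u1 : G.ub P H a b ≤ 1 := min_le_left _ _
  have x0 := pow_nonneg b0 (c * ((G.pl b).erase a ∩ P).card)
  have x1 := pow_le_one₀ (n := c * ((G.pl b).erase a ∩ P).card) b0 (by linarith)
  have x2 := Real.le_sqrt_of_sq_le (x := (1 - eta q P) ^ (c * ((G.pl b).erase a ∩ P).card))
    (y := (1 - eta q P) ^ (c * ((G.pl b).erase a ∩ P).card)) (by nlinarith)
  have y1 : ((1 - eta q P) ^ (((G.pl b).erase a \ G.th H a) ∩ P).card -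
      (1 - eta q P) ^ G.nuT P H a) ^ 4 ≤ G.ub P H a b ^ 2 := by
    rw [← Even.pow_abs (by norm_num)]
    exact (pow_le_pow_left₀ (abs_nonneg _) d2 4).trans (pow_le_pow_of_le_one u0 u1 (by norm_num))
  rw [← mul_assoc]
  exact mul_le_mul (x2.trans d1) y1 (by positivity) (mul_nonneg hw (G.om_nonneg P b))

theorem PointT_sqrt {w L Q : ℝ} (hw : 2 ^ 30 ≤ w) (hL : L ≤ w) (hq : w ^ 100 ≤ Q) :
    4 * Q * (1 / w ^ 20) + 6 * Real.sqrt (Q * (20 * L)) ≤ Q / w ^ 5 := by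
  have w1 : 1 ≤ w := le_trans (by norm_num) hw
  have w0 : 0 < w := by linarith
  have Q0 : 0 < Q := lt_of_lt_of_le (by positivity) hq
  have a1 : 4 * Q * (1 / w ^ 20) ≤ Q / w ^ 5 / 2 := by
    have e : w ^ 5 * 8 ≤ w ^ 20 := by
      calc w ^ 5 * 8 ≤ w ^ 5 * w := mul_le_mul_of_nonneg_left (by linarith) (by positivity)
        _ = w ^ 6 := by ring
        _ ≤ w ^ 20 := pow_le_pow_right₀ w1 (by norm_num)
    have e' := mul_le_mul_of_nonneg_left e Q0.le
    rw [mul_one_div, div_div, div_le_div_iff₀ (by positivity) (by positivity)]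
    linarith
  have a2 : Real.sqrt (Q * (20 * L)) ≤ Q / w ^ 5 / 12 := by
    rw [Real.sqrt_le_left (by positivity), div_div, div_pow, le_div_iff₀ (by positivity)]
    have e : 2880 * L * w ^ 10 ≤ Q := by
      calc 2880 * L * w ^ 10 ≤ w * w * w ^ 10 :=
            mul_le_mul_of_nonneg_right (by nlinarith) (by positivity)
        _ = w ^ 12 := by ring
        _ ≤ w ^ 100 := pow_le_pow_right₀ w1 (by norm_num)
        _ ≤ Q := hq
    have e' := mul_le_mul_of_nonneg_left e Q0.le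
    linarith
  linarith

theorem PointT_M1 {w : ℝ} {c : ℕ} (hp : Par q w c) :
    4 * q * (1 / w ^ 20) + 6 * Real.sqrt (q * (20 * Real.log q)) ≤ 4 * (q : ℝ) := by
  have h1 := PointT_sqrt hp.hw hp.hL hp.hq
  have h2 : (q : ℝ) / w ^ 5 ≤ q := div_le_self hp.q_pos.le (one_le_pow₀ hp.one_le_w)
  have h3 := hp.q_pos
  linarith

theorem PointT_th {H : Finset Pt} {a : Pt} (ha : G.single H a) {U : Finset Pt} (haU : a ∉ U)
    {y : Pt} (hy : y ∈ U) : y ∈ G.th H a ↔ G.fib U (G.pl a ∩ G.pl y) ⊆ G.th H a := by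
  have hA : G.pl a ∩ G.pl y ∈ G.labs a U := mem_image_of_mem _ hy
  have hyR : y ∈ G.fib U (G.pl a ∩ G.pl y) := (G.mem_fib_iff haU hA).2 ⟨hy, rfl⟩
  refine ⟨fun h => (G.fib_th ha haU hA).resolve_right fun h' => ?_, fun h => h hyR⟩
  exact disjoint_left.1 h' hyR h

/-- The block lemma for the line with pencil `A` through `a`: `U = P.erase a`, `R = fib U A`,
`R' = R \ th H a` (`fib_th`), `O = U \ R`, `B = (A \ H) ∩ (low (1/4) P)ᶜ`,
`A b = (pl b ∩ U) \ R`, `A' b = A b \ th H a`, `u = ub`, `D = 1 / w^20`, `Lp = 20 log q`, `Q = q`,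
`ψ = D * psi` (`damp`); pass from `Sst` to the pencil sum by `Sst_split`, `badp_congr`,
`xi_congr`. -/
theorem pt_block {w : ℝ} {c : ℕ} (hp : Par q w c) {P H : Finset Pt}
    (hn1 : 4 * (c + 4) * q ≤ P.card) {a : Pt} (ha : G.single H a) {y : Pt} (hy : y ∈ P.erase a) :
    badp (eta q P) (range (c + 4) ×ˢ P.erase a)
      (range (c + 4) ×ˢ G.fib (P.erase a) (G.pl a ∩ G.pl y))
      (G.Sst c ((1 - eta q P) ^ G.nuT P H a) H (G.low (1 / 4) P)ᶜ a)
      (40000 * (c + 4) * (eta q P * (G.fib (P.erase a) (G.pl a ∩ G.pl y)).card *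
        ((1 / w ^ 20) ^ 2 * G.psi P H a y ^ 2 + q * (1 / w ^ 20) * (20 * Real.log q) +
          (1 / w ^ 20) ^ 2 * (q : ℝ) ^ 2 *
            (ind (y ∉ G.th H a) * (min 1 (G.dl P a y)) ^ 2))))
      (if y ∈ G.th H a ∨ G.dl P a y ≤ 1 / 16 then
        4 * q * (1 / w ^ 20) + 6 * Real.sqrt (q * (20 * Real.log q)) else 4 * q)
      ≤ 32 / (q : ℝ) ^ 20 := by
  obtain ⟨hP, h0, h1⟩ := PointT_eta hp hn1
  have b0 : 0 ≤ 1 - eta q P := by linarith
  have haU : a ∉ P.erase a := notMem_erase a P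
  have hA : G.pl a ∩ G.pl y ∈ G.labs a (P.erase a) := mem_image_of_mem _ hy
  have hth := G.PointT_th ha haU hy
  have hft := G.fib_th ha haU hA
  have hAl := G.labs_subset_lines haU hA
  have hdl : G.dl P a y = eta q P * (G.perp (G.pl a ∩ G.pl y) ∩ P).card := rfl
  have hpsi : G.psi P H a y = ∑ b ∈ ((G.pl a ∩ G.pl y) \ H) ∩ (G.low (1 / 4) P)ᶜ,
      G.om P b * G.ub P H a b ^ 2 := by
    unfold psi
    rw [sdiff_eq_inter_compl ((G.pl a ∩ G.pl y) \ H)]
  have hAa := G.subset_pl_of_mem_labs hA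
  generalize G.pl a ∩ G.pl y = A at *
  have hRU : G.fib (P.erase a) A ⊆ P.erase a := inter_subset_right
  have hRd : eta q P * (G.fib (P.erase a) A).card ≤ G.dl P a y := by
    rw [hdl]
    refine mul_le_mul_of_nonneg_left ?_ h0.le
    exact_mod_cast card_le_card (inter_subset_inter_left (erase_subset _ _))
  have hsub : ∀ b ∈ (A \ H) ∩ (G.low (1 / 4) P)ᶜ, G.fib (P.erase a) A ⊆ G.pl b := fun b hb =>
    G.fib_subset_pl (mem_sdiff.1 (mem_inter.1 hb).1).1
  have hu1 : ∀ b ∈ (A \ H) ∩ (G.low (1 / 4) P)ᶜ, (G.pl b ∩ P.erase a) \ G.fib (P.erase a) A ∪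
      G.fib (P.erase a) A = (G.pl b).erase a ∩ P := by
    intro b hb
    rw [sdiff_union_of_subset (subset_inter (hsub b hb) hRU), inter_erase, erase_inter]
  have hu2 : ∀ b ∈ (A \ H) ∩ (G.low (1 / 4) P)ᶜ,
      ((G.pl b ∩ P.erase a) \ G.fib (P.erase a) A) \ G.th H a ∪ G.fib (P.erase a) A \ G.th H a =
        ((G.pl b).erase a \ G.th H a) ∩ P := by
    intro b hb
    rw [← union_sdiff_distrib, hu1 b hb]
    exact (sdiff_inter_right_comm _ _ _).symm
  have hc1 : ∀ b ∈ (A \ H) ∩ (G.low (1 / 4) P)ᶜ,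
      ((G.pl b ∩ P.erase a) \ G.fib (P.erase a) A).card + (G.fib (P.erase a) A).card =
        ((G.pl b).erase a ∩ P).card := by
    intro b hb
    rw [← hu1 b hb, card_union_of_disjoint sdiff_disjoint]
  have hc2 : ∀ b ∈ (A \ H) ∩ (G.low (1 / 4) P)ᶜ,
      (((G.pl b ∩ P.erase a) \ G.fib (P.erase a) A) \ G.th H a).card +
        (G.fib (P.erase a) A \ G.th H a).card = (((G.pl b).erase a \ G.th H a) ∩ P).card := by
    intro b hb
    rw [← hu2 b hb, card_union_of_disjoint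
      (Disjoint.mono sdiff_subset sdiff_subset sdiff_disjoint)]
  have w0 := hp.w_pos
  have w1 := hp.one_le_w
  have q0 := hp.q_pos
  have L1 := hp.one_le_L
  have hD0 : 0 ≤ 1 / w ^ 20 := by positivity
  have key := block (η := eta q P) (γ := (1 - eta q P) ^ G.nuT P H a) (D := 1 / w ^ 20)
    (Lp := 20 * Real.log q) (Q := q) (ψ := 1 / w ^ 20 * G.psi P H a y) c
    (G.fib (P.erase a) A) (G.fib (P.erase a) A \ G.th H a) (P.erase a \ G.fib (P.erase a) A)
    ((A \ H) ∩ (G.low (1 / 4) P)ᶜ) (fun b => (G.pl b ∩ P.erase a) \ G.fib (P.erase a) A)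
    (fun b => ((G.pl b ∩ P.erase a) \ G.fib (P.erase a) A) \ G.th H a) (G.ub P H a) h0 h1
    (pow_nonneg b0 _) (pow_le_one₀ b0 (by linarith))
    ((div_le_one (by positivity)).2 (one_le_pow₀ w1))
    (le_trans (Real.exp_le_exp.2 (by have : (0 : ℝ) ≤ c := c.cast_nonneg; linarith)) hp.exp20)
    (by linarith) (by
      rw [mul_one_div, le_div_iff₀ (by positivity)]
      have e1 := hp.hL
      have e2 := hp.hw
      calc 2 * (20 * Real.log q) * w ^ 20 ≤ w * w * w ^ 20 :=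
            mul_le_mul_of_nonneg_right (by nlinarith) (by positivity)
        _ = w ^ 22 := by ring
        _ ≤ w ^ 100 := pow_le_pow_right₀ w1 (by norm_num)
        _ ≤ q := hp.hq)
    (by
      have e1 : ((A \ H) ∩ (G.low (1 / 4) P)ᶜ).card ≤ A.card :=
        card_le_card (inter_subset_left.trans sdiff_subset)
      rw [G.card_line hAl] at e1
      have e2 := G.two_le
      exact_mod_cast (by omega : ((A \ H) ∩ (G.low (1 / 4) P)ᶜ).card ≤ 2 * q))
    (hft.symm.imp (fun h => sdiff_eq_self_of_disjoint h) fun h => sdiff_eq_empty_iff_subset.2 h)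
    disjoint_sdiff (fun b _ => sdiff_subset_sdiff inter_subset_right subset_rfl)
    (fun b _ => sdiff_subset)
    (fun b hb b' hb' h => G.disjoint_off hAl _ (mem_sdiff.1 (mem_inter.1 hb).1).1
      (mem_sdiff.1 (mem_inter.1 hb').1).1 h)
    (fun b hb => by
      have e1 := G.PointT_cnt h0.le h1 a b
      have e2 := mt (G.mem_low_iff_tb hP).2 (mem_compl.1 (mem_inter.1 hb).2)
      rw [← Nat.cast_add, hc1 b hb]
      linarith)
    (fun b _ => G.ub_nonneg P H a b) (fun b _ => min_le_left _ _)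
    (fun b hb => by
      rw [hc2 b hb]
      exact G.abs_sub_le_ub hP (by linarith) (hAa (mem_sdiff.1 (mem_inter.1 hb).1).1))
    (by
      rw [hpsi, mul_sum]
      refine sum_le_sum fun b hb => ?_
      rw [hc1 b hb, ← mul_assoc]
      exact mul_le_mul_of_nonneg_right (G.PointT_damp hp hn1 a (mem_compl.1 (mem_inter.1 hb).2))
        (sq_nonneg _))
  rw [union_sdiff_of_subset hRU] at key
  have hexp : Real.exp (-(20 * Real.log q)) = 1 / (q : ℝ) ^ 20 := by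
    rw [Real.exp_neg, one_div, ← Real.exp_log (pow_pos q0 20), Real.log_pow]
    norm_num
  rw [hexp, mul_one_div (32 : ℝ)] at key
  rw [badp_congr (g := fun T => ∑ b ∈ (A \ H) ∩ (G.low (1 / 4) P)ᶜ,
      xi c ((1 - eta q P) ^ G.nuT P H a) T
        ((G.pl b ∩ P.erase a) \ G.fib (P.erase a) A ∪ G.fib (P.erase a) A)
        (((G.pl b ∩ P.erase a) \ G.fib (P.erase a) A) \ G.th H a ∪ G.fib (P.erase a) A \ G.th H a))
    (fun T => ∑ b ∈ ((G.pl a \ A) \ H) ∩ (G.low (1 / 4) P)ᶜ,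
      xi c ((1 - eta q P) ^ G.nuT P H a) T ((G.pl b).erase a) ((G.pl b).erase a \ G.th H a))]
  · refine le_trans (badp_mono h0.le (by linarith) _ ?_ ?_) key
    · refine mul_le_mul_of_nonneg_left ?_ (by positivity)
      have r0 : 0 ≤ eta q P * (G.fib (P.erase a) A).card := by positivity
      have k : eta q P * (G.fib (P.erase a) A \ G.th H a).card *
          (min 1 (eta q P * (G.fib (P.erase a) A \ G.th H a).card)) ^ 2 ≤
          eta q P * (G.fib (P.erase a) A).card *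
            (ind (y ∉ G.th H a) * (min 1 (G.dl P a y)) ^ 2) := by
        by_cases hy' : y ∈ G.th H a
        · rw [sdiff_eq_empty_iff_subset.2 (hth.1 hy'), ind_neg (not_not.2 hy')]
          simp
        · rw [sdiff_eq_self_of_disjoint (hft.resolve_left (mt hth.2 hy')), ind_pos hy', one_mul]
          exact mul_le_mul_of_nonneg_left
            (pow_le_pow_left₀ (le_min zero_le_one r0) (min_le_min_left _ hRd) 2) r0
      have k' := mul_le_mul_of_nonneg_left k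
        (by positivity : 0 ≤ (1 / w ^ 20) ^ 2 * (q : ℝ) ^ 2)
      linarith
    · have m1 := PointT_M1 hp
      by_cases hc : y ∈ G.th H a ∨ G.dl P a y ≤ 1 / 16
      · rw [if_pos hc, if_pos]
        rcases hc with hc | hc
        · rw [sdiff_eq_empty_iff_subset.2 (hth.1 hc)]
          norm_num
        · have e : ((G.fib (P.erase a) A \ G.th H a).card : ℝ) ≤ (G.fib (P.erase a) A).card := by
            exact_mod_cast card_le_card sdiff_subset
          have := mul_le_mul_of_nonneg_left e h0.le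
          linarith
      · rw [if_neg hc]
        split_ifs
        · exact m1
        · exact le_rfl
  · intro S hS T hT
    rw [G.Sst_split c _ H _ haU hA hS T]
    congr 1
    refine sum_congr rfl fun b hb => ?_
    have hST : S ∪ T ⊆ range (c + 4) ×ˢ P := union_subset
      (hS.trans (product_subset_product_right (hRU.trans (erase_subset _ _))))
      (hT.trans (sdiff_subset.trans (product_subset_product_right (erase_subset _ _))))
    refine xi_congr c _ hST ?_ ?_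
    · rw [hu1 b hb, inter_assoc, inter_self]
    · rw [hu2 b hb, inter_assoc, inter_self]

/-- the block bound as a function of the pencil -/
noncomputable def PointT_v (w : ℝ) (c : ℕ) (P H : Finset Pt) (a : Pt) (A : Finset Pt) : ℝ :=
  40000 * (c + 4) * eta q P * ((1 / w ^ 20) ^ 2 *
    (∑ b ∈ (A \ H) \ G.low (1 / 4) P, G.om P b * G.ub P H a b ^ 2) ^ 2 +
    q * (1 / w ^ 20) * (20 * Real.log q) + (1 / w ^ 20) ^ 2 * (q : ℝ) ^ 2 *
      (ind (¬ G.fib (P.erase a) A ⊆ G.th H a) * (min 1 (eta q P * (G.perp A ∩ P).card)) ^ 2))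

theorem PointT_v_eq (w : ℝ) (c : ℕ) {P H : Finset Pt} {a : Pt} (ha : G.single H a) {y : Pt}
    (hy : y ∈ P.erase a) : G.PointT_v w c P H a (G.pl a ∩ G.pl y) = 40000 * (c + 4) * eta q P *
      ((1 / w ^ 20) ^ 2 * G.psi P H a y ^ 2 + q * (1 / w ^ 20) * (20 * Real.log q) +
        (1 / w ^ 20) ^ 2 * (q : ℝ) ^ 2 * (ind (y ∉ G.th H a) * (min 1 (G.dl P a y)) ^ 2)) := by
  rw [propext (G.PointT_th ha (notMem_erase a P) hy)]
  rfl

theorem PointT_v_nonneg {w : ℝ} {c : ℕ} (hp : Par q w c) (P H : Finset Pt) (a : Pt)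
    (A : Finset Pt) : 0 ≤ ((G.fib (P.erase a) A).card : ℝ) * G.PointT_v w c P H a A := by
  have w0 := hp.w_pos
  have L0 : 0 ≤ Real.log q := le_trans zero_le_one hp.one_le_L
  have h0 : 0 ≤ eta q P := Means_eta P
  have h1 := ind_nonneg (¬ G.fib (P.erase a) A ⊆ G.th H a)
  unfold PointT_v
  positivity

theorem PointT_blk {w : ℝ} {c : ℕ} (hp : Par q w c) {P H : Finset Pt}
    (hn1 : 4 * (c + 4) * q ≤ P.card) {a : Pt} (ha : G.single H a) {M : ℝ}
    (hM : ∀ y ∈ P.erase a, (if y ∈ G.th H a ∨ G.dl P a y ≤ 1 / 16 then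
      4 * q * (1 / w ^ 20) + 6 * Real.sqrt (q * (20 * Real.log q)) else 4 * (q : ℝ)) ≤ M)
    {A : Finset Pt} (hA : A ∈ G.labs a (P.erase a)) :
    badp (eta q P) (range (c + 4) ×ˢ P.erase a) (range (c + 4) ×ˢ G.fib (P.erase a) A)
      (G.Sst c ((1 - eta q P) ^ G.nuT P H a) H (G.low (1 / 4) P)ᶜ a)
      ((G.fib (P.erase a) A).card * G.PointT_v w c P H a A) M ≤ 32 / (q : ℝ) ^ 20 := by
  obtain ⟨y, hy, rfl⟩ := mem_image.1 hA
  obtain ⟨hP, h0, h1⟩ := PointT_eta hp hn1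
  refine le_trans (badp_mono h0.le (by linarith) _ (le_of_eq ?_) (hM y hy))
    (G.pt_block hp hn1 ha hy)
  rw [G.PointT_v_eq w c ha hy]
  ring

theorem PointT_sum {w : ℝ} {c : ℕ} (hp : Par q w c) {P H : Finset Pt}
    (hn1 : 4 * (c + 4) * q ≤ P.card) {a : Pt} (ha : G.single H a) :
    ∑ A ∈ G.labs a (P.erase a), ((G.fib (P.erase a) A).card : ℝ) * G.PointT_v w c P H a A ≤
      G.vT w c P H a := by
  obtain ⟨hP, h0, h1⟩ := PointT_eta hp hn1
  rw [G.sum_labs (notMem_erase a P), sum_congr rfl fun y hy => G.PointT_v_eq w c ha hy, ← mul_sum,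
    sum_add_distrib, sum_add_distrib, sum_const, nsmul_eq_mul, ← mul_sum, ← mul_sum]
  have e : ∑ y ∈ P.erase a, ind (y ∉ G.th H a) * (min 1 (G.dl P a y)) ^ 2 =
      ∑ y ∈ P.erase a \ G.th H a, (min 1 (G.dl P a y)) ^ 2 := by
    rw [sdiff_eq_filter, sum_filter]
    refine sum_congr rfl fun y _ => ?_
    split_ifs with h
    · rw [ind_neg (not_not.2 h), zero_mul]
    · rw [ind_pos h, one_mul]
  have e1 : ((P.erase a).card : ℝ) ≤ P.card := by exact_mod_cast card_erase_le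
  have e2 := mul_le_mul_of_nonneg_left e1 h0.le
  rw [eta_mul_card hP] at e2
  have w0 := hp.w_pos
  have L0 : 0 ≤ Real.log q := le_trans zero_le_one hp.one_le_L
  have e3 := mul_le_mul_of_nonneg_right e2
    (by positivity : 0 ≤ q * (1 / w ^ 20) * (20 * Real.log q))
  rw [e, mul_assoc (40000 * ((c : ℝ) + 4))]
  unfold vT Wf
  refine mul_le_mul_of_nonneg_left ?_ (by positivity)
  linarith

theorem PointT_ex (c : ℕ) (η γ : ℝ) (P H B : Finset Pt) (a : Pt) (Φ : ℝ → ℝ) :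
    Ex η (range (c + 4) ×ˢ P) (fun T => Φ (G.Sst c γ H B a T)) =
      Ex η ((G.labs a (P.erase a)).biUnion fun A => range (c + 4) ×ˢ G.fib (P.erase a) A)
        fun T => Φ (G.Sst c γ H B a T) := by
  rw [G.biUnion_fib (notMem_erase a P), ← Ex_inter (Ω := range (c + 4) ×ˢ P)
    (product_subset_product_right (erase_subset a P))]
  exact Ex_congr fun T hT => by rw [G.Sst_inter c γ H B a hT]

theorem PointT_labs {P : Finset Pt} (hn2 : P.card ≤ q ^ 2) (a : Pt) :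
    ((G.labs a (P.erase a)).card : ℝ) ≤ (q : ℝ) ^ 2 := by
  exact_mod_cast (G.card_labs_le a _).trans (card_erase_le.trans hn2)

theorem PointT_ex1 (c : ℕ) (η γ : ℝ) (P H B : Finset Pt) (a : Pt) :
    Ex η (range (c + 4) ×ˢ P) (G.Sst c γ H B a) =
      Ex η ((G.labs a (P.erase a)).biUnion fun A => range (c + 4) ×ˢ G.fib (P.erase a) A)
        (G.Sst c γ H B a) := G.PointT_ex c η γ P H B a id

theorem PointT_vr (c : ℕ) (η γ : ℝ) (P H B : Finset Pt) (a : Pt) :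
    Vr η (range (c + 4) ×ˢ P) (G.Sst c γ H B a) =
      Vr η ((G.labs a (P.erase a)).biUnion fun A => range (c + 4) ×ˢ G.fib (P.erase a) A)
        (G.Sst c γ H B a) := by
  unfold Vr
  rw [← G.PointT_ex1 c η γ P H B a]
  exact G.PointT_ex c η γ P H B a fun x => (x - Ex η (range (c + 4) ×ˢ P) (G.Sst c γ H B a)) ^ 2

/-- `efron_stein_bad` over the blocks `labs a (P.erase a)`, `d = 2 q^2`, at most `q^2` blocks; the
block bounds sum to at most `vT` (`sum_labs`; `psi`, `dl` and membership in `th` depend on `y` only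
through the pencil) -/
theorem pt_var {w : ℝ} {c : ℕ} (hp : Par q w c) {P H : Finset Pt}
    (hn1 : 4 * (c + 4) * q ≤ P.card) (hn2 : P.card ≤ q ^ 2) {a : Pt} (ha : G.single H a) :
    Vr (eta q P) (range (c + 4) ×ˢ P)
      (G.Sst c ((1 - eta q P) ^ G.nuT P H a) H (G.low (1 / 4) P)ᶜ a) ≤ G.vT w c P H a + 1 := by
  obtain ⟨hP, h0, h1⟩ := PointT_eta hp hn1
  have b0 : 0 ≤ 1 - eta q P := by linarith
  have m1 := PointT_M1 hp
  have key := efron_stein_bad h0.le (by linarith) (G.labs a (P.erase a))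
    (fun A => range (c + 4) ×ˢ G.fib (P.erase a) A) (G.fib_disjoint (notMem_erase a P) _)
    (G.Sst c ((1 - eta q P) ^ G.nuT P H a) H (G.low (1 / 4) P)ᶜ a)
    (fun T _ => G.abs_Sst_le c (pow_nonneg b0 _) (pow_le_one₀ b0 (by linarith)) _ _ a T)
    (fun A => (G.fib (P.erase a) A).card * G.PointT_v w c P H a A) (fun _ => 4 * q)
    fun A _ => G.PointT_v_nonneg hp P H a A
  rw [G.PointT_vr]
  refine key.trans ?_
  rw [sum_add_distrib, G.biUnion_fib (notMem_erase a P)]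
  refine add_le_add (G.PointT_sum hp hn1 ha) ?_
  have q1 : (1000 : ℝ) ≤ q := by exact_mod_cast hp.thousand_le_q
  refine (sum_le_card_nsmul _ _ ((2 * (q : ℝ) ^ 2) ^ 2 * (32 / (q : ℝ) ^ 20)) fun A hA =>
    mul_le_mul_of_nonneg_left (G.PointT_blk hp hn1 ha (fun y _ => ?_) hA) (by positivity)).trans ?_
  · split_ifs
    · exact m1
    · exact le_rfl
  · rw [nsmul_eq_mul]
    refine (mul_le_mul_of_nonneg_right (G.PointT_labs hn2 a) (by positivity)).trans ?_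
    have e : (q : ℝ) ^ 2 * ((2 * (q : ℝ) ^ 2) ^ 2 * (32 / (q : ℝ) ^ 20)) = 128 / (q : ℝ) ^ 14 := by
      field_simp
      norm_num
    rw [e, div_le_one (by positivity)]
    exact le_trans (by linarith) (le_self_pow₀ (by linarith) (by norm_num))

theorem PointT_num {w L Q s V N : ℝ} (hw : 2 ^ 30 ≤ w) (L1 : 1 ≤ L) (hL : L ≤ w)
    (hq : w ^ 100 ≤ Q) (hs : 1 ≤ s) (hV : V ≤ s ^ 2 * Q ^ 2 / w ^ 16) (hN : N ≤ Q ^ 2) :
    200 * L / (s * Q / w ^ 3) * (s * Q / w ^ 5 + 2 * (1 / Q ^ 6) * (2 * Q ^ 2)) ≤ 1 ∧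
    -(200 * L / (s * Q / w ^ 3) * (s * Q / w ^ 3 / 20)) + (200 * L / (s * Q / w ^ 3)) ^ 2 *
      (V + N * (4 * (1 / Q ^ 6) * (2 * Q ^ 2) ^ 2)) ≤ -(5 * L) := by
  have w1 : 1 ≤ w := le_trans (by norm_num) hw
  have w0 : 0 < w := by linarith
  have Q1 : 1 ≤ Q := le_trans (one_le_pow₀ w1) hq
  have Q0 : 0 < Q := by linarith
  have s0 : 0 < s := by linarith
  have L0 : 0 < L := by linarith
  have hl0 : 0 ≤ 200 * L / (s * Q / w ^ 3) := by positivity
  have hl1 : 200 * L / (s * Q / w ^ 3) ≤ 1 / 8 := by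
    rw [div_le_iff₀ (by positivity), ← mul_div_assoc, le_div_iff₀ (by positivity)]
    calc 200 * L * w ^ 3 ≤ 1 / 8 * (w * w) * w ^ 3 :=
          mul_le_mul_of_nonneg_right (by nlinarith) (by positivity)
      _ = 1 / 8 * w ^ 5 := by ring
      _ ≤ 1 / 8 * w ^ 100 :=
          mul_le_mul_of_nonneg_left (pow_le_pow_right₀ w1 (by norm_num)) (by norm_num)
      _ ≤ 1 / 8 * (s * Q) := by nlinarith
  have a1 : 200 * L / (s * Q / w ^ 3) * (s * Q / w ^ 5) = 200 * L / w ^ 2 := by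
    field_simp
  have a2 : 200 * L / w ^ 2 ≤ 1 / 2 := by
    rw [div_le_iff₀ (by positivity)]
    nlinarith
  have a3 : 2 * (1 / Q ^ 6) * (2 * Q ^ 2) ≤ 4 := by
    have e : 2 * (1 / Q ^ 6) * (2 * Q ^ 2) = 4 / Q ^ 4 := by
      field_simp
      norm_num
    rw [e]
    exact div_le_self (by norm_num) (one_le_pow₀ Q1)
  have a4 := mul_le_mul hl1 a3 (by positivity) (by norm_num)
  have a5 : 200 * L / (s * Q / w ^ 3) * (s * Q / w ^ 3 / 20) = 10 * L := by
    field_simp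
    norm_num
  have a6 : (200 * L / (s * Q / w ^ 3)) ^ 2 * (s ^ 2 * Q ^ 2 / w ^ 16) =
      (200 * L / w ^ 2) ^ 2 / w ^ 6 := by
    field_simp
  have a7 : (200 * L / w ^ 2) ^ 2 / w ^ 6 ≤ 1 :=
    (div_le_self (by positivity) (one_le_pow₀ w1)).trans
      (pow_le_one₀ (by positivity) (by linarith))
  have a8 : N * (4 * (1 / Q ^ 6) * (2 * Q ^ 2) ^ 2) ≤ 16 := by
    refine (mul_le_mul_of_nonneg_right hN (by positivity)).trans (le_of_eq ?_)
    field_simp
    norm_num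
  have a9 := mul_le_mul_of_nonneg_left hV (sq_nonneg (200 * L / (s * Q / w ^ 3)))
  have a10 := mul_le_mul_of_nonneg_left a8 (sq_nonneg (200 * L / (s * Q / w ^ 3)))
  have a11 := pow_le_pow_left₀ hl0 hl1 2
  constructor
  · rw [mul_add, a1]
    linarith
  · rw [mul_add, a5]
    linarith

/-- `freedman` with `s0 = σ q / w^3`, `t = s0 / 20`, `lam = 200 log q / s0`, `M = σ q / w^5`,
`γ = q^(-6)`, `d = 2 q^2`; the mean is nonnegative -/
theorem pt_tail {w : ℝ} {c : ℕ} (hp : Par q w c) {P H : Finset Pt}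
    (hn1 : 4 * (c + 4) * q ≤ P.card) (hn2 : P.card ≤ q ^ 2) {a : Pt} (ha : G.single H a)
    (hv : G.vT w c P H a ≤ sig q P ^ 2 * (q : ℝ) ^ 2 / w ^ 16)
    (hr : 4 * w ^ 5 ≤ sig q P ∨ ∀ y ∈ P.erase a \ G.th H a, G.dl P a y ≤ 1 / 16) :
    Pr (eta q P) (range (c + 4) ×ˢ P) (fun T =>
      G.Sst c ((1 - eta q P) ^ G.nuT P H a) H (G.low (1 / 4) P)ᶜ a T ≤
        -(sig q P * q / w ^ 3 / 20)) ≤ 2 / (q : ℝ) ^ 5 := by
  obtain ⟨hP, h0, h1⟩ := PointT_eta hp hn1
  have b0 : 0 ≤ 1 - eta q P := by linarith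
  have h1' : eta q P ≤ 1 := by linarith
  have m1 := PointT_M1 hp
  have m2 := PointT_sqrt hp.hw hp.hL hp.hq
  have s1 := one_le_sig hP hn2
  have w0 := hp.w_pos
  have q0 := hp.q_pos
  have L1 := hp.one_le_L
  have q1 : (1000 : ℝ) ≤ q := by exact_mod_cast hp.thousand_le_q
  have hlabs := G.PointT_labs hn2 a
  obtain ⟨n1, n2⟩ := PointT_num hp.hw L1 hp.hL hp.hq s1 ((G.PointT_sum hp hn1 ha).trans hv) hlabs
  have hM : ∀ y ∈ P.erase a, (if y ∈ G.th H a ∨ G.dl P a y ≤ 1 / 16 then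
      4 * q * (1 / w ^ 20) + 6 * Real.sqrt (q * (20 * Real.log q)) else 4 * (q : ℝ)) ≤
        sig q P * q / w ^ 5 := by
    intro y hy
    split_ifs with hc
    · exact m2.trans (div_le_div_of_nonneg_right (le_mul_of_one_le_left q0.le s1) (by positivity))
    · rcases hr with hr | hr
      · rw [le_div_iff₀ (by positivity)]
        nlinarith
      · exact absurd (Or.inr (hr y (mem_sdiff.2 ⟨hy, fun h => hc (Or.inl h)⟩))) hc
  have key := freedman h0.le h1' (G.labs a (P.erase a))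
    (fun A => range (c + 4) ×ˢ G.fib (P.erase a) A) (G.fib_disjoint (notMem_erase a P) _)
    (G.Sst c ((1 - eta q P) ^ G.nuT P H a) H (G.low (1 / 4) P)ᶜ a)
    (fun T _ => G.abs_Sst_le c (pow_nonneg b0 _) (pow_le_one₀ b0 (by linarith)) _ _ a T)
    (fun A => (G.fib (P.erase a) A).card * G.PointT_v w c P H a A)
    (fun A _ => G.PointT_v_nonneg hp P H a A) (by positivity) (by positivity) (by positivity) n1
    (sig q P * q / w ^ 3 / 20)
  have hm := (G.pt_mean hp (H := H) hn1 a).1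
  rw [G.PointT_ex1] at hm
  have e := G.PointT_ex c (eta q P) ((1 - eta q P) ^ G.nuT P H a) P H (G.low (1 / 4) P)ᶜ a
    fun x => ind (x ≤ -(sig q P * q / w ^ 3 / 20))
  refine (le_of_eq e).trans (le_trans (Pr_mono h0.le h1' fun T _ h => ?_) (key.trans ?_))
  · linarith
  · rw [sum_add_distrib, sum_const, nsmul_eq_mul, G.biUnion_fib (notMem_erase a P)]
    have hexp : Real.exp (-(5 * Real.log q)) = 1 / (q : ℝ) ^ 5 := by
      rw [Real.exp_neg, one_div, ← Real.exp_log (pow_pos q0 5), Real.log_pow]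
      norm_num
    have k1 := Real.exp_le_exp.2 n2
    have k2 := sum_le_card_nsmul _ _ (32 / (q : ℝ) ^ 20) fun A hA => G.PointT_blk hp hn1 ha hM hA
    rw [nsmul_eq_mul] at k2
    have k3 := k2.trans (mul_le_mul_of_nonneg_right hlabs (by positivity))
    have k4 := div_le_div_of_nonneg_right k3 (by positivity : 0 ≤ 1 / (q : ℝ) ^ 6)
    have k5 : (q : ℝ) ^ 2 * (32 / (q : ℝ) ^ 20) / (1 / (q : ℝ) ^ 6) ≤ 1 / (q : ℝ) ^ 5 := by
      have e : (q : ℝ) ^ 2 * (32 / (q : ℝ) ^ 20) / (1 / (q : ℝ) ^ 6) =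
          32 / (q : ℝ) ^ 7 / (q : ℝ) ^ 5 := by
        field_simp
      rw [e]
      refine div_le_div_of_nonneg_right ((div_le_one (by positivity)).2 ?_) (by positivity)
      exact le_trans (by linarith) (le_self_pow₀ (by linarith) (by norm_num))
    rw [hexp] at k1
    have k6 : 2 / (q : ℝ) ^ 5 = 1 / (q : ℝ) ^ 5 + 1 / (q : ℝ) ^ 5 := by ring
    rw [k6]
    exact add_le_add k1 (k4.trans k5)

end PG
end Pool.Agent.Work.MP_e10cd8_co.Four
end

-- merged part: Pool.Agent.Work.MP_e10cd8_co.Four.PointD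
section
/-! The part of the statistic over low planes, at one point (paper 5.3). -/

namespace Pool.Agent.Work.MP_e10cd8_co.Four
namespace PG
open Finset

variable {q : ℕ} {Pt : Type} [Fintype Pt] [DecidableEq Pt] (G : PG q Pt)

omit [Fintype Pt] [DecidableEq Pt] in
theorem PointD_basic {w : ℝ} {c : ℕ} (hp : Par q w c) {P : Finset Pt}
    (hn1 : 4 * (c + 4) * q ≤ P.card) :
    P.Nonempty ∧ 0 < eta q P ∧ eta q P * (4 * (c + 4)) ≤ 1 ∧ eta q P ≤ 1 / 100 := by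
  have hq : 0 < q := lt_of_lt_of_le (by norm_num) hp.thousand_le_q
  have hP := nonempty_of_le hq hn1
  have h0 := eta_pos hq hP
  have h1 := eta_le hq hn1
  have hc : (1000 : ℝ) ≤ c := by exact_mod_cast hp.le_c
  refine ⟨hP, h0, h1, ?_⟩
  nlinarith

theorem PointD_bern {η : ℝ} (h1 : η ≤ 1) (n : ℕ) : 1 - η * n ≤ (1 - η) ^ n := by
  have h := one_add_mul_le_pow (show (-2 : ℝ) ≤ -η by linarith) n
  rw [← sub_eq_add_neg] at h
  linarith

theorem PointD_phi (B : Finset Pt) (a y : Pt) :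
    ∑ b ∈ G.pl a ∩ G.pl y, ind (b ∈ B) = G.Phi B a y := by
  rw [← card_selIn, Phi]
  congr 2
  ext b
  simp only [mem_selIn, mem_inter]

theorem PointD_e2 {P : Finset Pt} (hP : P.Nonempty) :
    (∀ Lm : ℝ, 0 < Lm → ((sel fun a => 24 * q * sig q P ^ 2 + 2 * Lm ≤
        eta q P * ∑ y ∈ P.erase a, G.Phi (G.low (1 / 4) P) a y ^ 2).card : ℝ) ≤
          (q : ℝ) ^ 2 * ((q : ℝ) ^ 2 * sig q P / 2) / Lm) ∧
    ∑ a, eta q P * ∑ y ∈ P.erase a, G.Phi (G.low (1 / 4) P) a y ^ 2 ≤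
      2 * (q : ℝ) ^ 2 * ((q : ℝ) ^ 2 * sig q P / 2) + 48 * (q : ℝ) ^ 4 * sig q P ^ 2 := by
  have hs : ∑ b, ind (b ∈ G.low (1 / 4) P) ≤ 2 * (q : ℝ) ^ 2 * sig q P := by
    rw [← card_sel]
    refine le_trans (le_of_eq ?_) (G.card_D_le hP)
    congr 2
    ext b
    simp only [mem_sel]
  have hX : ∑ b, G.tb P b * ind (b ∈ G.low (1 / 4) P) ≤ (q : ℝ) ^ 2 * sig q P / 2 := by
    calc _ ≤ ∑ b, 1 / 4 * ind (b ∈ G.low (1 / 4) P) := by
          refine sum_le_sum fun b _ => ?_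
          by_cases hb : b ∈ G.low (1 / 4) P
          · rw [ind_pos hb, mul_one, mul_one]
            exact (G.mem_low_iff_tb hP).1 hb
          · rw [ind_neg hb, mul_zero, mul_zero]
      _ ≤ _ := by
          rw [← mul_sum]
          linarith
  have h := G.e2 hP (fun b => ind (b ∈ G.low (1 / 4) P)) (fun b => ind_nonneg _)
    (fun b => ind_le_one _) hs hX
  simpa only [PointD_phi] using h

theorem PointD_w {w : ℝ} {c : ℕ} (hp : Par q w c) : 100000 ≤ w ∧ 192 * w ^ 9 ≤ q := by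
  have h1 : (100000 : ℝ) ≤ w := le_trans (by norm_num) hp.hw
  refine ⟨h1, le_trans ?_ hp.hq⟩
  calc 192 * w ^ 9 ≤ w * w ^ 9 := mul_le_mul_of_nonneg_right (by linarith) (by positivity)
    _ = w ^ 10 := by ring
    _ ≤ w ^ 100 := pow_le_pow_right₀ hp.one_le_w (by norm_num)

omit [Fintype Pt] in
theorem PointD_abs (c : ℕ) {γ : ℝ} (h0 : 0 ≤ γ) (h1 : γ ≤ 1) (H B A : Finset Pt)
    (T : Finset (ℕ × Pt)) (X Y : Pt → Finset Pt) :
    |∑ b ∈ (A \ H) ∩ B, xi c γ T (X b) (Y b)| ≤ ((A ∩ B).card : ℝ) := by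
  refine (abs_sum_le_sum_abs _ _).trans ?_
  calc _ ≤ ∑ _b ∈ (A \ H) ∩ B, (1 : ℝ) :=
        sum_le_sum fun b _ => (abs_xi_le c h0 h1 T _ _).trans (emp_le_one _ _)
    _ = (((A \ H) ∩ B).card : ℝ) := by simp
    _ ≤ _ := Nat.cast_le.2 (card_le_card (inter_subset_inter_right sdiff_subset))

/-- a function that is a bounded part plus a constant on the block -/
theorem PointD_block {ι : Type} [DecidableEq ι] {η : ℝ} (h0 : 0 ≤ η) (h1 : η ≤ 1) (B : Finset ι)
    (F g : Finset ι → ℝ) (r φ : ℝ) (h : ∀ S ⊆ B, F S = g S + r) (hg : ∀ S, |g S| ≤ φ) :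
    Vr η B F ≤ 4 * φ ^ 2 * (η * B.card) ∧ ∀ S ⊆ B, -(2 * φ) ≤ F S - Ex η B F := by
  have hφ : 0 ≤ φ := (abs_nonneg _).trans (hg ∅)
  constructor
  · refine (Vr_le F (F ∅)).trans ?_
    calc _ ≤ Ex η B fun S => 4 * φ ^ 2 * ind (¬ Disjoint S B) := by
          refine Ex_mono h0 h1 fun S hS => ?_
          rcases S.eq_empty_or_nonempty with rfl | hne
          · rw [sub_self, zero_pow two_ne_zero]
            have := ind_nonneg (¬ Disjoint (∅ : Finset ι) B)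
            positivity
          · have hd : ¬ Disjoint S B := fun hd =>
              hne.ne_empty (disjoint_self.1 (hd.mono_right hS))
            rw [ind_pos hd, h S hS, h ∅ (empty_subset _)]
            have a1 := abs_le.1 (hg S)
            have a2 := abs_le.1 (hg ∅)
            nlinarith
      _ ≤ _ := by
          rw [Ex_mul_left]
          refine mul_le_mul_of_nonneg_left ?_ (by positivity)
          have := Pr_not_disjoint (Ω := B) h0 h1 B
          rwa [inter_self] at this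
  · intro S hS
    have a1 : Ex η B F ≤ φ + r := by
      refine (Ex_mono h0 h1 fun S' hS' => ?_).trans (Ex_const (φ + r)).le
      rw [h S' hS']
      linarith [(abs_le.1 (hg S')).2]
    rw [h S hS]
    linarith [(abs_le.1 (hg S)).1]

/-- `η nuT ≥ 1/2 - η ≥ 0.49` and `exp (-0.49) ≤ 5/8` -/
theorem gam_le {w : ℝ} {c : ℕ} (hp : Par q w c) {P H : Finset Pt}
    (hn1 : 4 * (c + 4) * q ≤ P.card) (hH : ∀ b ∈ H, 2 * G.cnt P b ≤ P.card) {a : Pt}
    (ha : G.single H a) : (1 - eta q P) ^ G.nuT P H a ≤ 5 / 8 := by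
  obtain ⟨hP, h0, -, h2⟩ := PointD_basic hp hn1
  have hq : 0 < q := lt_of_lt_of_le (by norm_num) hp.thousand_le_q
  have hm : P.card ≤ 2 * (P \ G.th H a).card := by
    rcases G.th_cases ha with ⟨-, h⟩ | ⟨π, h, h'⟩
    · rw [h, sdiff_empty]
      omega
    · have hπ : π ∈ H := (mem_inter.1 (h ▸ mem_singleton_self π)).1
      have a1 := hH π hπ
      have a2 := card_sdiff_add_card_inter P (G.pl π)
      rw [h']
      unfold cnt at a1
      rw [inter_comm] at a1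
      omega
  have hlt : (P \ G.th H a).card < q * (G.nuT P H a + 1) := Nat.lt_mul_div_succ _ hq
  have hn : (P.card : ℝ) ≤ 2 * (q * (G.nuT P H a + 1)) := by
    exact_mod_cast (show P.card ≤ 2 * (q * (G.nuT P H a + 1)) by omega)
  have he := eta_mul_card (q := q) hP
  have hq' := hp.q_pos
  have h3 : 49 / 100 ≤ eta q P * G.nuT P H a := by
    have a1 : eta q P * P.card ≤ eta q P * (2 * (q * (G.nuT P H a + 1))) :=
      mul_le_mul_of_nonneg_left hn h0.le
    rw [he] at a1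
    have a2 : (q : ℝ) * 1 ≤ q * (2 * (eta q P * (G.nuT P H a + 1))) := by linarith
    have a3 := le_of_mul_le_mul_left a2 hq'
    linarith
  refine (one_sub_pow_le_exp (by linarith) _).trans ?_
  rw [Real.exp_neg, inv_le_comm₀ (Real.exp_pos _) (by norm_num)]
  refine le_trans ?_ (Real.exp_le_exp.2 h3)
  refine le_trans ?_ (Real.quadratic_le_exp_of_nonneg (by norm_num))
  norm_num

/-- Let `U = P.erase a \ bigs`. If the sample misses the big points, `Sst T = Sst (T ∩ range ×ˢ U)`,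
so it suffices to bound the lower tail of `Sst` under the Bernoulli law on `range ×ˢ U`
(`Ex_inter`). Its mean is at least `2^(-12) ∑ β^(c cnt)` (`Ex_xi`, `β^N' ≥ 3/4`, `gam_le`, no plane
of `H` is low). `freedman0` over `labs a U`: the pencil part has absolute value at most `Phi`, the
block variance is at most `Pr (S ≠ ∅) (2 Phi)^2 ≤ 4 (c+4) η |fib| Phi^2`, `M = σ q / w^5`,
`lam = 200 log q / s0`, `t = s0 / 20`, `s0 = σ q / w^3`. -/
theorem pd_tail {w : ℝ} {c : ℕ} (hp : Par q w c) {P H : Finset Pt}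
    (hn1 : 4 * (c + 4) * q ≤ P.card) (hn2 : P.card ≤ q ^ 2)
    (hH : ∀ b ∈ H, 2 * G.cnt P b ≤ P.card) (hD : ∀ b ∈ H, b ∉ G.low (1 / 4) P) {a : Pt}
    (ha : G.single H a)
    (hv : eta q P * ∑ y ∈ P.erase a, G.Phi (G.low (1 / 4) P) a y ^ 2 ≤
      sig q P ^ 2 * (q : ℝ) ^ 2 / (4 * w ^ 9)) :
    Pr (eta q P) (range (c + 4) ×ˢ P) (fun T =>
      Disjoint T (range (c + 4) ×ˢ G.bigs w P a) ∧
      G.Sst c ((1 - eta q P) ^ G.nuT P H a) H (G.low (1 / 4) P) a T ≤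
        1 / 2 ^ 12 * ∑ b ∈ G.pl a ∩ G.low (1 / 4) P, (1 - eta q P) ^ (c * G.cnt P b) -
          sig q P * q / w ^ 3 / 20) ≤ 1 / (q : ℝ) ^ 5 := by
  obtain ⟨hP, h0, h1, h2⟩ := PointD_basic hp hn1
  obtain ⟨hw, hwq⟩ := PointD_w hp
  have hη1 : eta q P ≤ 1 := by linarith
  have hβ0 : 0 ≤ 1 - eta q P := by linarith
  have hβ1 : 1 - eta q P ≤ 1 := by linarith
  have hq := hp.q_pos
  have hw0 := hp.w_pos
  have hσ : 0 < sig q P := lt_of_lt_of_le one_pos (one_le_sig hP hn2)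
  have hγ := G.gam_le hp hn1 hH ha
  have hγ0 := pow_nonneg hβ0 (G.nuT P H a)
  generalize (1 - eta q P) ^ G.nuT P H a = γ at hγ hγ0 ⊢
  have hγ1 : γ ≤ 1 := by linarith
  obtain ⟨U, hU⟩ : ∃ U, U = P.erase a \ G.bigs w P a := ⟨_, rfl⟩
  have hUe : U ⊆ P.erase a := hU ▸ sdiff_subset
  have hUP : U ⊆ P := hUe.trans (erase_subset _ _)
  have haU : a ∉ U := fun h => notMem_erase a P (hUe h)
  have hmean : 1 / 2 ^ 12 * ∑ b ∈ G.pl a ∩ G.low (1 / 4) P, (1 - eta q P) ^ (c * G.cnt P b) ≤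
      Ex (eta q P) (range (c + 4) ×ˢ U) (G.Sst c γ H (G.low (1 / 4) P) a) := by
    have e : (G.pl a \ H) ∩ G.low (1 / 4) P = G.pl a ∩ G.low (1 / 4) P := by
      ext b
      simp only [mem_inter, mem_sdiff]
      exact ⟨fun h => ⟨h.1.1, h.2⟩, fun h => ⟨⟨h.1, fun k => hD b k h.2⟩, h.2⟩⟩
    change _ ≤ Ex (eta q P) (range (c + 4) ×ˢ U) fun T => ∑ b ∈ (G.pl a \ H) ∩ G.low (1 / 4) P,
      xi c γ T ((G.pl b).erase a) ((G.pl b).erase a \ G.th H a)
    rw [Ex_sum, e, mul_sum]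
    refine sum_le_sum fun b hb => ?_
    rw [Ex_xi]
    have a1 : ((G.pl b).erase a ∩ U).card ≤ G.cnt P b :=
      card_le_card (inter_subset_inter (erase_subset _ _) hUP)
    have a2 : (((G.pl b).erase a \ G.th H a) ∩ U).card ≤ G.cnt P b :=
      card_le_card (inter_subset_inter (sdiff_subset.trans (erase_subset _ _)) hUP)
    have a3 : eta q P * G.cnt P b ≤ 1 / 4 := (G.mem_low_iff_tb hP).1 (mem_inter.1 hb).2
    have a4 := PointD_bern hη1 (G.cnt P b)
    have a5 := pow_le_pow_of_le_one hβ0 hβ1 a2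
    have a6 := pow_le_pow_of_le_one hβ0 hβ1 (Nat.mul_le_mul_left c a1)
    have a7 : (1 / 8 : ℝ) ^ 4 ≤
        ((1 - eta q P) ^ (((G.pl b).erase a \ G.th H a) ∩ U).card - γ) ^ 4 :=
      pow_le_pow_left₀ (by norm_num) (by linarith) 4
    rw [mul_comm]
    exact mul_le_mul a6 (le_trans (by norm_num) a7) (by norm_num) (pow_nonneg hβ0 _)
  have hL := hp.one_le_L
  have hLw := hp.hL
  have hfr := freedman0 h0.le hη1 (G.labs a U) (fun A => range (c + 4) ×ˢ G.fib U A)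
    (G.fib_disjoint haU _) (G.Sst c γ H (G.low (1 / 4) P) a) (M := sig q P * q / w ^ 5)
    (lam := 200 * Real.log q / (sig q P * q / w ^ 3))
    (fun A => 4 * ((A ∩ G.low (1 / 4) P).card : ℝ) ^ 2 *
      (eta q P * (range (c + 4) ×ˢ G.fib U A).card))
    (fun A hA T _ => by
      obtain ⟨b1, b2⟩ := PointD_block h0.le hη1 (range (c + 4) ×ˢ G.fib U A)
        (fun S => G.Sst c γ H (G.low (1 / 4) P) a (S ∪ T)) _ _ _
        (fun S hS => G.Sst_split c γ H (G.low (1 / 4) P) haU hA hS T)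
        (fun S => PointD_abs c hγ0 hγ1 H (G.low (1 / 4) P) A (S ∪ T) _ _)
      refine ⟨b1, fun S hS => le_trans (neg_le_neg ?_) (b2 S hS)⟩
      obtain ⟨y, hy, rfl⟩ := mem_image.1 hA
      have b3 : ¬ sig q P * q / (2 * w ^ 5) < G.Phi (G.low (1 / 4) P) a y := fun k =>
        (mem_sdiff.1 (hU ▸ hy)).2 (mem_selIn.2 ⟨hUe hy, k⟩)
      have b4 : sig q P * q / w ^ 5 = 2 * (sig q P * q / (2 * w ^ 5)) := by field_simp
      rw [b4]
      exact mul_le_mul_of_nonneg_left (not_lt.1 b3) (by norm_num))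
    (by positivity)
    (by
      have b1 : 200 * Real.log q / (sig q P * q / w ^ 3) * (sig q P * q / w ^ 5) =
          200 * Real.log q / w ^ 2 := by field_simp
      rw [b1, div_le_one (by positivity)]
      nlinarith)
    (sig q P * q / w ^ 3 / 20)
  rw [G.biUnion_fib haU] at hfr
  have hV : ∑ A ∈ G.labs a U, 4 * ((A ∩ G.low (1 / 4) P).card : ℝ) ^ 2 *
      (eta q P * (range (c + 4) ×ˢ G.fib U A).card) ≤ sig q P ^ 2 * (q : ℝ) ^ 2 / w ^ 8 := by
    calc _ = 4 * ((c : ℝ) + 4) * (eta q P * ∑ A ∈ G.labs a U,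
          ((G.fib U A).card : ℝ) * ((A ∩ G.low (1 / 4) P).card : ℝ) ^ 2) := by
          rw [mul_sum, mul_sum]
          refine sum_congr rfl fun A _ => ?_
          rw [card_product, card_range]
          push_cast
          ring
      _ ≤ 4 * w * (sig q P ^ 2 * (q : ℝ) ^ 2 / (4 * w ^ 9)) := by
          rw [G.sum_labs haU fun A => ((A ∩ G.low (1 / 4) P).card : ℝ) ^ 2]
          refine mul_le_mul (mul_le_mul_of_nonneg_left hp.c_le (by norm_num))
            (le_trans (mul_le_mul_of_nonneg_left ?_ h0.le) hv)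
            (mul_nonneg h0.le (sum_nonneg fun y _ => sq_nonneg _)) (by positivity)
          exact sum_le_sum_of_subset_of_nonneg hUe fun y _ _ => sq_nonneg _
      _ = _ := by field_simp
  refine le_trans (Pr_mono h0.le hη1 (p' := fun T =>
    G.Sst c γ H (G.low (1 / 4) P) a (T ∩ range (c + 4) ×ˢ U) ≤
      Ex (eta q P) (range (c + 4) ×ˢ U) (G.Sst c γ H (G.low (1 / 4) P) a) -
        sig q P * q / w ^ 3 / 20) fun T hT k => ?_) ?_
  · have e : T ∩ range (c + 4) ×ˢ U = T ∩ range (c + 4) ×ˢ P.erase a := by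
      ext z
      simp only [mem_inter, mem_product, hU, mem_sdiff]
      exact ⟨fun h => ⟨h.1, h.2.1, h.2.2.1⟩, fun h => ⟨h.1, h.2.1, h.2.2, fun k' =>
        disjoint_left.1 k.1 h.1 (mem_product.2 ⟨h.2.1, k'⟩)⟩⟩
    rw [e, G.Sst_inter c γ H _ a hT]
    linarith [k.2]
  · refine le_trans (le_of_eq (Ex_inter (product_subset_product_right hUP) fun T =>
      ind (G.Sst c γ H (G.low (1 / 4) P) a T ≤
        Ex (eta q P) (range (c + 4) ×ˢ U) (G.Sst c γ H (G.low (1 / 4) P) a) -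
          sig q P * q / w ^ 3 / 20))) (hfr.trans ?_)
    have b1 : 200 * Real.log q / (sig q P * q / w ^ 3) * (sig q P * q / w ^ 3 / 20) =
        10 * Real.log q := by
      field_simp
      ring
    have b2 : (200 * Real.log q / (sig q P * q / w ^ 3)) ^ 2 * (sig q P ^ 2 * (q : ℝ) ^ 2 / w ^ 8) =
        40000 * Real.log q ^ 2 / w ^ 2 := by
      field_simp
      ring
    have b3 : 40000 * Real.log q ^ 2 / w ^ 2 ≤ 5 * Real.log q := by
      rw [div_le_iff₀ (by positivity)]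
      have c1 : 8000 * Real.log q ≤ w ^ 2 := by nlinarith
      nlinarith
    have b4 := mul_le_mul_of_nonneg_left hV
      (sq_nonneg (200 * Real.log q / (sig q P * q / w ^ 3)))
    rw [b1]
    refine (Real.exp_le_exp.2 (show _ ≤ -((5 : ℕ) * Real.log q) by push_cast; linarith)).trans ?_
    rw [Real.exp_neg, Real.exp_nat_mul, Real.exp_log hq, one_div]

/-- No big points if `σ ≥ 4 w^5` (`Phi ≤ q + 1`). Otherwise `Pr_not_disjoint`, Markov in `y` and
the second part of `e2` with `φ` the indicator of the low planes, `Ξ = q^2 σ / 2`. -/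
theorem sum_big {w : ℝ} {c : ℕ} (hp : Par q w c) {P : Finset Pt}
    (hn1 : 4 * (c + 4) * q ≤ P.card) (hn2 : P.card ≤ q ^ 2) :
    ∑ a, Pr (eta q P) (range (c + 4) ×ˢ P)
      (fun T => ¬ Disjoint T (range (c + 4) ×ˢ G.bigs w P a)) ≤ 800 * w ^ 16 * P.card := by
  obtain ⟨hP, h0, h1, h2⟩ := PointD_basic hp hn1
  obtain ⟨hw, hwq⟩ := PointD_w hp
  have hη1 : eta q P ≤ 1 := by linarith
  have hq := hp.q_pos
  have hw0 := hp.w_pos
  have hσ1 := one_le_sig hP hn2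
  have hσ : 0 < sig q P := lt_of_lt_of_le one_pos hσ1
  have hs := sig_mul_card (q := q) hP
  have hn0 : (0 : ℝ) ≤ P.card := Nat.cast_nonneg _
  have hb : ∀ a, Pr (eta q P) (range (c + 4) ×ˢ P)
      (fun T => ¬ Disjoint T (range (c + 4) ×ˢ G.bigs w P a)) ≤
      w * (eta q P * (G.bigs w P a).card) := fun a => by
    refine (Pr_not_disjoint h0.le hη1 _).trans ?_
    have a1 : (((range (c + 4) ×ˢ G.bigs w P a) ∩ (range (c + 4) ×ˢ P)).card : ℝ) ≤
        (c + 4) * (G.bigs w P a).card := by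
      refine (Nat.cast_le.2 (card_le_card inter_subset_left)).trans (le_of_eq ?_)
      rw [card_product, card_range]
      push_cast
      rfl
    have a2 : ((c : ℝ) + 4) * (G.bigs w P a).card ≤ w * (G.bigs w P a).card :=
      mul_le_mul_of_nonneg_right hp.c_le (Nat.cast_nonneg _)
    calc _ ≤ eta q P * (w * (G.bigs w P a).card) := mul_le_mul_of_nonneg_left (a1.trans a2) h0.le
      _ = _ := by ring
  refine (sum_le_sum fun a _ => hb a).trans ?_
  rcases le_or_gt (4 * w ^ 5) (sig q P) with hσw | hσw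
  · have a1 : ∀ a, G.bigs w P a = ∅ := fun a => by
      refine eq_empty_of_forall_notMem fun y hy => ?_
      obtain ⟨hy1, hy2⟩ := mem_selIn.1 hy
      have b1 : G.Phi (G.low (1 / 4) P) a y ≤ q + 1 := by
        have := card_le_card (inter_subset_left (s₁ := G.pl a ∩ G.pl y) (s₂ := G.low (1 / 4) P))
        rw [G.codeg a y (ne_of_mem_erase hy1).symm] at this
        unfold Phi
        exact_mod_cast this
      have b2 : (1000 : ℝ) ≤ q := by exact_mod_cast hp.thousand_le_q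
      have b3 : 2 * (q : ℝ) ≤ sig q P * q / (2 * w ^ 5) := by
        rw [le_div_iff₀ (by positivity)]
        have := mul_le_mul_of_nonneg_right hσw hq.le
        linarith
      linarith
    simp only [a1, card_empty, Nat.cast_zero, mul_zero, sum_const_zero]
    positivity
  · have a1 : ∀ a, (G.bigs w P a).card * (sig q P * q / (2 * w ^ 5)) ^ 2 ≤
        ∑ y ∈ P.erase a, G.Phi (G.low (1 / 4) P) a y ^ 2 := fun a => by
      rw [← nsmul_eq_mul, ← sum_const]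
      refine le_trans (sum_le_sum fun y hy => ?_)
        (sum_le_sum_of_subset_of_nonneg (selIn_subset _ _) fun y _ _ => sq_nonneg _)
      exact pow_le_pow_left₀ (by positivity) (mem_selIn.1 hy).2.le 2
    have a2 : (∑ a, eta q P * (G.bigs w P a).card) * (sig q P * q / (2 * w ^ 5)) ^ 2 ≤
        49 * (q : ℝ) ^ 4 * sig q P ^ 2 := by
      rw [sum_mul]
      refine le_trans (sum_le_sum fun a _ => ?_) ((G.PointD_e2 hP).2.trans ?_)
      · rw [mul_assoc]
        exact mul_le_mul_of_nonneg_left (a1 a) h0.le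
      · have : (q : ℝ) ^ 4 * sig q P * 1 ≤ (q : ℝ) ^ 4 * sig q P * sig q P :=
          mul_le_mul_of_nonneg_left hσ1 (by positivity)
        nlinarith
    have a3 : ∑ a, eta q P * (G.bigs w P a).card ≤ 196 * w ^ 10 * (q : ℝ) ^ 2 := by
      rw [← le_div_iff₀ (by positivity)] at a2
      refine a2.trans (le_of_eq ?_)
      field_simp
      ring
    rw [← mul_sum]
    have a4 : (q : ℝ) ^ 2 ≤ 4 * w ^ 5 * P.card := by
      rw [← hs]
      exact mul_le_mul_of_nonneg_right hσw.le hn0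
    calc _ ≤ w * (196 * w ^ 10 * (4 * w ^ 5 * P.card)) :=
          mul_le_mul_of_nonneg_left (a3.trans (mul_le_mul_of_nonneg_left a4 (by positivity))) hw0.le
      _ = 784 * (w ^ 16 * P.card) := by ring
      _ ≤ 800 * (w ^ 16 * P.card) := mul_le_mul_of_nonneg_right (by norm_num) (by positivity)
      _ = _ := by ring

/-- first part of `e2`, `Lm = σ^2 q^2 / (16 w^9)` -/
theorem card_phi_large {w : ℝ} {c : ℕ} (hp : Par q w c) {P : Finset Pt}
    (hn1 : 4 * (c + 4) * q ≤ P.card) (hn2 : P.card ≤ q ^ 2) :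
    ((sel fun a => sig q P ^ 2 * (q : ℝ) ^ 2 / (4 * w ^ 9) <
      eta q P * ∑ y ∈ P.erase a, G.Phi (G.low (1 / 4) P) a y ^ 2).card : ℝ) ≤
      8 * w ^ 9 * P.card := by
  obtain ⟨hP, h0, h1, h2⟩ := PointD_basic hp hn1
  obtain ⟨hw, hwq⟩ := PointD_w hp
  have hq := hp.q_pos
  have hw0 := hp.w_pos
  have hσ : 0 < sig q P := lt_of_lt_of_le one_pos (one_le_sig hP hn2)
  have hs := sig_mul_card (q := q) hP
  have h := (G.PointD_e2 hP).1 (sig q P ^ 2 * (q : ℝ) ^ 2 / (16 * w ^ 9)) (by positivity)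
  refine le_trans (Nat.cast_le.2 (card_le_card fun a ha => ?_)) (h.trans (le_of_eq ?_))
  · rw [mem_sel] at ha ⊢
    refine le_trans ?_ ha.le
    have a1 : 24 * q * sig q P ^ 2 ≤ sig q P ^ 2 * (q : ℝ) ^ 2 / (8 * w ^ 9) := by
      rw [le_div_iff₀ (by positivity)]
      have := mul_le_mul_of_nonneg_left hwq (show 0 ≤ q * sig q P ^ 2 by positivity)
      linarith
    have a2 : sig q P ^ 2 * (q : ℝ) ^ 2 / (4 * w ^ 9) = sig q P ^ 2 * (q : ℝ) ^ 2 / (8 * w ^ 9) +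
        2 * (sig q P ^ 2 * (q : ℝ) ^ 2 / (16 * w ^ 9)) := by
      field_simp
      ring
    linarith
  · rw [← hs]
    have : (0 : ℝ) < P.card := Nat.cast_pos.2 hP.card_pos
    field_simp
    ring

/-- upper tail by Markov: `Sst ≤ ∑ emp (kill ×ˢ (pl b).erase a)`, `Ex_kill`, `β^(-c) ≤ 2` -/
theorem pd_up {w : ℝ} {c : ℕ} (hp : Par q w c) {P H : Finset Pt}
    (hn1 : 4 * (c + 4) * q ≤ P.card) (a : Pt) {t : ℝ} (ht : 0 < t) :
    Pr (eta q P) (range (c + 4) ×ˢ P) (fun T =>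
      t ≤ G.Sst c ((1 - eta q P) ^ G.nuT P H a) H (G.low (1 / 4) P) a T) ≤
      2 * (∑ b ∈ G.pl a ∩ G.low (1 / 4) P, (1 - eta q P) ^ (c * G.cnt P b)) / t := by
  obtain ⟨hP, h0, h1, h2⟩ := PointD_basic hp hn1
  have hη1 : eta q P ≤ 1 := by linarith
  have hβ0 : 0 ≤ 1 - eta q P := by linarith
  have hβ1 : 1 - eta q P ≤ 1 := by linarith
  have hc0 : (0 : ℝ) ≤ c := Nat.cast_nonneg c
  have hbc : 1 / 2 ≤ (1 - eta q P) ^ c := le_trans (by nlinarith) (PointD_bern hη1 c)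
  refine le_trans (Pr_mono h0.le hη1 (p' := fun T => t ≤ ∑ b ∈ G.pl a ∩ G.low (1 / 4) P,
    emp T (Ico 4 (c + 4) ×ˢ (G.pl b).erase a)) fun T _ hT => hT.trans ?_) ?_
  · unfold Sst
    refine le_trans (sum_le_sum fun b _ => (le_abs_self _).trans
      (abs_xi_le c (pow_nonneg hβ0 _) (pow_le_one₀ hβ0 hβ1) T _ _)) ?_
    exact sum_le_sum_of_subset_of_nonneg (inter_subset_inter_right sdiff_subset)
      fun b _ _ => emp_nonneg _ _
  · refine (markov h0.le hη1 (fun T _ => sum_nonneg fun b _ => emp_nonneg _ _) ht).trans ?_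
    refine div_le_div_of_nonneg_right ?_ ht.le
    rw [Ex_sum, mul_sum]
    refine sum_le_sum fun b _ => ?_
    rw [Ex_kill]
    have a1 : G.cnt P b ≤ ((G.pl b).erase a ∩ P).card + 1 := by
      unfold cnt
      rw [erase_inter]
      exact (Nat.sub_le_iff_le_add.1 (pred_card_le_card_erase))
    have a2 : (1 - eta q P) ^ (c * (((G.pl b).erase a ∩ P).card + 1)) ≤
        (1 - eta q P) ^ (c * G.cnt P b) := pow_le_pow_of_le_one hβ0 hβ1 (Nat.mul_le_mul_left _ a1)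
    rw [mul_add, mul_one, pow_add] at a2
    have a3 := pow_nonneg hβ0 (c * ((G.pl b).erase a ∩ P).card)
    nlinarith

end PG
end Pool.Agent.Work.MP_e10cd8_co.Four
end

-- merged part: Pool.Agent.Work.MP_e10cd8_co.Four.Excep
section
/-! Exceptional points for the variance bound, and the total mean over `P` (paper 5.2, 5.3). -/

namespace Pool.Agent.Work.MP_e10cd8_co.Four
namespace PG
open Finset

variable {q : ℕ} {Pt : Type} [Fintype Pt] [DecidableEq Pt] (G : PG q Pt)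

theorem Excep_psi (P H : Finset Pt) {a y : Pt} (h : a ≠ y) :
    G.psi P H a y ^ 2 ≤ 27 * (∑ b ∈ G.pl a ∩ G.pl y, G.om P b * G.gb P b ^ 2) ^ 2 +
      27 * (∑ b ∈ G.pl a ∩ G.pl y, G.om P b * G.hb P (G.th H a) b ^ 2) ^ 2 +
      1728 * (q : ℝ) ^ 2 * eta q P ^ 4 := by
  have n0 : ∀ b, 0 ≤ G.om P b * G.ub P H a b ^ 2 := fun b =>
    mul_nonneg (G.om_nonneg P b) (sq_nonneg _)
  have h0 : 0 ≤ G.psi P H a y := sum_nonneg fun b _ => n0 b
  have h1 : G.psi P H a y ≤ ∑ b ∈ G.pl a ∩ G.pl y, G.om P b * G.ub P H a b ^ 2 :=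
    sum_le_sum_of_subset_of_nonneg (sdiff_subset.trans sdiff_subset) fun b _ _ => n0 b
  have h2 : ∑ b ∈ G.pl a ∩ G.pl y, G.om P b * G.ub P H a b ^ 2 ≤
      ∑ b ∈ G.pl a ∩ G.pl y, (3 * (G.om P b * G.gb P b ^ 2) +
        3 * (G.om P b * G.hb P (G.th H a) b ^ 2) + 12 * eta q P ^ 2) := by
    refine sum_le_sum fun b _ => ?_
    have a1 := mul_le_mul_of_nonneg_left (G.ub_sq_le P H a b) (G.om_nonneg P b)
    have a2 := mul_le_mul_of_nonneg_right (G.om_le_one P b) (sq_nonneg (eta q P))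
    linarith only [a1, a2]
  rw [sum_add_distrib, sum_add_distrib, ← mul_sum, ← mul_sum, sum_const, G.codeg a y h,
    nsmul_eq_mul] at h2
  push_cast at h2
  have hq : (2 : ℝ) ≤ q := by exact_mod_cast G.two_le
  have h3 := mul_le_mul_of_nonneg_right (show (q : ℝ) + 1 ≤ 2 * q by linarith only [hq])
    (sq_nonneg (eta q P))
  generalize ∑ b ∈ G.pl a ∩ G.pl y, G.om P b * G.gb P b ^ 2 = A at h2 ⊢
  generalize ∑ b ∈ G.pl a ∩ G.pl y, G.om P b * G.hb P (G.th H a) b ^ 2 = B at h2 ⊢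
  have h4 : G.psi P H a y ≤ 3 * A + 3 * B + 24 * (q * eta q P ^ 2) := by
    linarith only [h1, h2, h3]
  refine (pow_le_pow_left₀ h0 h4 2).trans ?_
  have e : (q : ℝ) ^ 2 * eta q P ^ 4 = (q * eta q P ^ 2) ^ 2 := by ring
  rw [mul_assoc 1728, e]
  generalize (q : ℝ) * eta q P ^ 2 = C
  linarith only [sq_nonneg (A - B), sq_nonneg (A - 8 * C), sq_nonneg (B - 8 * C)]

/-- points with a large pencil mean square -/
noncomputable def Excep_E (w : ℝ) (P : Finset Pt) (f : Pt → ℝ) : Finset Pt :=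
  sel fun a => 24 * q * sig q P ^ 2 + 2 * (sig q P ^ 2 * (q : ℝ) ^ 2 * w ^ 20 / 4) ≤
    eta q P * ∑ y ∈ P.erase a, (∑ b ∈ G.pl a ∩ G.pl y, G.om P b * f b ^ 2) ^ 2

theorem Excep_e {w : ℝ} (hw : 0 < w) {P : Finset Pt} (hP : P.Nonempty) (f : Pt → ℝ)
    (h0 : ∀ b, 0 ≤ f b) (h1 : ∀ b, f b ≤ 1) {X : ℝ} (hX1 : X ≤ 1)
    (hX : ∑ b, f b ^ 2 ≤ (q : ℝ) ^ 2 * sig q P * X) :
    ((G.Excep_E w P f).card : ℝ) * w ^ 20 ≤ 4 * P.card * X := by
  have hq := G.Means_q
  have hn : (0 : ℝ) < P.card := by exact_mod_cast hP.card_pos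
  have hs : 0 < sig q P := by unfold sig; positivity
  have a1 : ∀ b, G.om P b * f b ^ 2 ≤ f b ^ 2 := fun b =>
    mul_le_of_le_one_left (sq_nonneg _) (G.om_le_one P b)
  have a2 := mul_le_mul_of_nonneg_left hX1 (show 0 ≤ (q : ℝ) ^ 2 * sig q P by positivity)
  have a3 : 0 ≤ (q : ℝ) ^ 2 * sig q P := by positivity
  have h := (G.e2 hP (fun b => G.om P b * f b ^ 2)
    (fun b => mul_nonneg (G.om_nonneg P b) (sq_nonneg _))
    (fun b => (a1 b).trans (pow_le_one₀ (h0 b) (h1 b)))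
    (by linarith only [sum_le_sum fun b (_ : b ∈ univ) => a1 b, hX, a2, a3])
    (Xi := (q : ℝ) ^ 2 * sig q P * X)
    ((sum_le_sum fun b _ => by
      rw [← mul_assoc]
      exact mul_le_of_le_one_left (sq_nonneg _) (G.tb_mul_om_le P b)).trans hX)).1
    (sig q P ^ 2 * (q : ℝ) ^ 2 * w ^ 20 / 4) (by positivity)
  refine (mul_le_mul_of_nonneg_right h (by positivity)).trans (le_of_eq ?_)
  rw [← sig_mul_card (q := q) hP]
  field_simp

theorem Excep_num {q w s e c L A W n : ℝ} (hq : 1000 ≤ q) (hw : 2 ^ 30 ≤ w) (hs : 1 ≤ s)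
    (he0 : 0 ≤ e) (he : e ≤ 1) (hes : e * q = s) (hn : e * n ≤ q) (hc0 : 0 ≤ c) (hc : c ≤ w)
    (hL : L ≤ w) (hW : W ≤ s ^ 2 * w ^ 20)
    (hA : A ≤ 54 * (24 * q * s ^ 2 + 2 * (s ^ 2 * q ^ 2 * w ^ 20 / 4)) +
      e * n * (1728 * q ^ 2 * e ^ 4)) :
    40000 * c * ((1 / w ^ 20) ^ 2 * A + 20 * q ^ 2 * (1 / w ^ 20) * L +
      (1 / w ^ 20) ^ 2 * q ^ 2 * W) ≤ s ^ 2 * q ^ 2 / w ^ 16 := by
  have w1 : 1 ≤ w := le_trans (by norm_num) hw
  have w0 : 0 < w := by linarith only [w1]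
  have q0 : 0 < q := by linarith only [hq]
  have u1 : 1 ≤ w ^ 20 := one_le_pow₀ w1
  have s2 : 1 ≤ s ^ 2 := one_le_pow₀ hs
  have b1 : e * n * (1728 * q ^ 2 * e ^ 4) ≤ 1728 * (q * s ^ 2) := by
    have b2 : q ^ 2 * e ^ 4 ≤ s ^ 2 := by
      have : q ^ 2 * e ^ 4 = s ^ 2 * e ^ 2 := by rw [← hes]; ring
      rw [this]
      exact mul_le_of_le_one_right (sq_nonneg _) (pow_le_one₀ he0 he)
    calc e * n * (1728 * q ^ 2 * e ^ 4) ≤ q * (1728 * q ^ 2 * e ^ 4) :=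
          mul_le_mul_of_nonneg_right hn (by positivity)
      _ = 1728 * (q * (q ^ 2 * e ^ 4)) := by ring
      _ ≤ _ := by gcongr
  have b3 : 1000 * (q * s ^ 2) ≤ s ^ 2 * q ^ 2 * w ^ 20 :=
    calc 1000 * (q * s ^ 2) ≤ q * (q * s ^ 2) := by gcongr
      _ = s ^ 2 * q ^ 2 * 1 := by ring
      _ ≤ _ := by gcongr
  have b4 : 0 ≤ q * s ^ 2 := by positivity
  have hA' : A ≤ 60 * (s ^ 2 * q ^ 2 * w ^ 20) := by linarith only [hA, b1, b3, b4]
  obtain ⟨K, hK⟩ : ∃ K, K = s ^ 2 * q ^ 2 / w ^ 20 := ⟨_, rfl⟩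
  have K0 : 0 ≤ K := by rw [hK]; positivity
  have c1 : (1 / w ^ 20) ^ 2 * A ≤ 60 * K :=
    (mul_le_mul_of_nonneg_left hA' (by positivity)).trans (le_of_eq (by rw [hK]; field_simp))
  have c2 : 20 * q ^ 2 * (1 / w ^ 20) * L ≤ 20 * (w * K) :=
    calc 20 * q ^ 2 * (1 / w ^ 20) * L ≤ 20 * q ^ 2 * (1 / w ^ 20) * w := by gcongr
      _ = 20 * (w * (1 * q ^ 2 / w ^ 20)) := by ring
      _ ≤ _ := by rw [hK]; gcongr
  have c3 : (1 / w ^ 20) ^ 2 * q ^ 2 * W ≤ K :=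
    (mul_le_mul_of_nonneg_left hW (by positivity)).trans (le_of_eq (by rw [hK]; field_simp))
  have c4 : K ≤ w * K := le_mul_of_one_le_left K0 w1
  have c5 : (1 / w ^ 20) ^ 2 * A + 20 * q ^ 2 * (1 / w ^ 20) * L +
      (1 / w ^ 20) ^ 2 * q ^ 2 * W ≤ 81 * (w * K) := by linarith only [c1, c2, c3, c4]
  have c6 : 3240000 ≤ w ^ 2 := le_trans (by norm_num) (pow_le_pow_left₀ (by positivity) hw 2)
  calc _ ≤ 40000 * c * (81 * (w * K)) := mul_le_mul_of_nonneg_left c5 (by positivity)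
    _ ≤ 40000 * w * (81 * (w * K)) := by gcongr
    _ = 3240000 * (w ^ 2 * K) := by ring
    _ ≤ w ^ 2 * (w ^ 2 * K) := by gcongr
    _ = _ := by rw [hK]; field_simp

theorem Excep_cnt {P : Finset Pt} (hP : P.Nonempty) (f : Pt → ℝ) (h0 : ∀ b, 0 ≤ f b) :
    ∑ a ∈ P, ∑ b ∈ G.pl a, G.om P b * f b ≤ P.card / q * ∑ b, f b := by
  have hq := G.Means_q
  have hn : (0 : ℝ) < P.card := by exact_mod_cast hP.card_pos
  rw [G.sum_sum_pl, mul_sum]
  refine sum_le_sum fun b _ => ?_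
  rw [← mul_assoc]
  refine mul_le_mul_of_nonneg_right ?_ (h0 b)
  have h := mul_le_mul_of_nonneg_left (G.tb_mul_om_le P b)
    (show (0 : ℝ) ≤ P.card / q by positivity)
  rw [mul_one] at h
  refine le_trans (le_of_eq ?_) h
  unfold tb eta
  field_simp

theorem Excep_sum2 {w : ℝ} {P H : Finset Pt} (hP : P.Nonempty) (hH : G.HOK w P H) :
    ∑ p ∈ H, (((G.pl p ∩ P).card : ℝ) / P.card) ≤ 2 := by
  have hn : (0 : ℝ) < P.card := by exact_mod_cast hP.card_pos
  rw [← sum_div, div_le_iff₀ hn]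
  have := hH.sum2
  unfold cnt at this
  exact_mod_cast this

/-- `psi a y ≤ 3 (Φg + Φh) + 24 q η^2` by `ub_sq_le`, where `Φg`, `Φh` are the pencil sums of
`om gb^2` and `om (hb P (th H a))^2`. Apply the first part of `e2` with `Lm = σ^2 q^2 w^20 / 4` to
`φ = om gb^2` (`Ξ = q^2 σ`) and, for each `π ∈ H`, to `φ = om (hb P (pl π))^2`
(`Ξ = q^2 σ cnt π / n`, `∑ ≤ 2 q^2 σ` by `sum2`); `th_cases`, `hb_empty`. Outside these sets
(at most `12 n / w^20` points) and the set of `wf`,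
`vT ≤ 40000 w (60 w^(-20) + 20 w^(-19) + w^(-20)) σ^2 q^2`. -/
theorem card_vT_large {w : ℝ} {c : ℕ} (hp : Par q w c) {P H : Finset Pt}
    (hn1 : 4 * (c + 4) * q ≤ P.card) (hn2 : P.card ≤ q ^ 2) (hH : G.HOK w P H) :
    100 * (sel fun a => G.single H a ∧
      sig q P ^ 2 * (q : ℝ) ^ 2 / w ^ 16 < G.vT w c P H a).card ≤ 3 * P.card := by
  have hq := G.Means_q
  have hq' : 0 < q := by exact_mod_cast hq
  have hP := nonempty_of_le hq' hn1
  have hn : (0 : ℝ) < P.card := by exact_mod_cast hP.card_pos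
  have hw := hp.w_pos
  have he0 := Means_eta (q := q) P
  have hc0 : (0 : ℝ) ≤ c := Nat.cast_nonneg c
  have he : eta q P ≤ 1 := by
    have := eta_le hq' hn1
    nlinarith only [this, he0, hc0]
  have hsub : (sel fun a => G.single H a ∧
      sig q P ^ 2 * (q : ℝ) ^ 2 / w ^ 16 < G.vT w c P H a) ⊆
      (G.Excep_E w P (G.gb P) ∪ H.biUnion fun p => G.Excep_E w P (G.hb P (G.pl p))) ∪
        sel fun a => G.single H a ∧ sig q P ^ 2 * w ^ 20 < G.Wf P H a := by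
    intro a ha
    obtain ⟨hs, hv⟩ := mem_sel.1 ha
    by_contra hcon
    simp only [mem_union, mem_biUnion, mem_sel, not_or, not_exists, not_and, not_lt, Excep_E,
      not_le] at hcon
    obtain ⟨⟨k1, k2⟩, k3⟩ := hcon
    have k4 : eta q P * ∑ y ∈ P.erase a,
        (∑ b ∈ G.pl a ∩ G.pl y, G.om P b * G.hb P (G.th H a) b ^ 2) ^ 2 ≤
        24 * q * sig q P ^ 2 + 2 * (sig q P ^ 2 * (q : ℝ) ^ 2 * w ^ 20 / 4) := by
      rcases G.th_cases hs with ⟨-, e⟩ | ⟨p, e1, e⟩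
      · rw [e]
        simp only [G.hb_empty, ne_eq, OfNat.ofNat_ne_zero, not_false_eq_true, zero_pow, mul_zero,
          sum_const_zero]
        positivity
      · rw [e]
        exact (k2 p (mem_inter.1 (e1 ▸ mem_singleton_self p)).1).le
    have k5 : ∑ y ∈ P.erase a, G.psi P H a y ^ 2 ≤ ∑ y ∈ P.erase a,
        (27 * (∑ b ∈ G.pl a ∩ G.pl y, G.om P b * G.gb P b ^ 2) ^ 2 +
        27 * (∑ b ∈ G.pl a ∩ G.pl y, G.om P b * G.hb P (G.th H a) b ^ 2) ^ 2 +
        1728 * (q : ℝ) ^ 2 * eta q P ^ 4) :=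
      sum_le_sum fun y hy => G.Excep_psi P H (ne_of_mem_erase hy).symm
    rw [sum_add_distrib, sum_add_distrib, ← mul_sum, ← mul_sum, sum_const, nsmul_eq_mul] at k5
    have k6 := mul_le_mul_of_nonneg_left k5 he0
    have k7 : eta q P * ((P.erase a).card : ℝ) ≤ q := by
      rw [← eta_mul_card (q := q) hP]
      exact mul_le_mul_of_nonneg_left (by exact_mod_cast card_erase_le) he0
    refine absurd hv (not_lt.2 ?_)
    refine Excep_num (n := (P.erase a).card) (by exact_mod_cast hp.thousand_le_q) hp.hw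
      (one_le_sig hP hn2) he0 he eta_mul_q k7 (by linarith only [hc0]) hp.c_le hp.hL (k3 hs) ?_
    linarith only [k1, k4, k6]
  have c1 := G.Excep_e hw hP (G.gb P) (G.gb_nonneg P) (G.gb_le_one P) le_rfl
    (by rw [mul_one]; exact G.sum_gb_sq hP)
  have c2 : ∑ p ∈ H, ((G.Excep_E w P (G.hb P (G.pl p))).card : ℝ) * w ^ 20 ≤
      ∑ p ∈ H, 4 * (P.card : ℝ) * (((G.pl p ∩ P).card : ℝ) / P.card) :=
    sum_le_sum fun p _ => G.Excep_e hw hP _ (G.hb_nonneg P _) (G.hb_le_one P _)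
      ((div_le_one hn).2 (by exact_mod_cast card_le_card inter_subset_right)) (G.sum_hb_sq hP _)
  rw [← sum_mul, ← mul_sum] at c2
  have c3 := mul_le_mul_of_nonneg_left (G.Excep_sum2 hP hH)
    (show (0 : ℝ) ≤ 4 * P.card by positivity)
  have c4 := (card_le_card hsub).trans ((card_union_le _ _).trans
    (Nat.add_le_add_right ((card_union_le _ _).trans
      (Nat.add_le_add_left card_biUnion_le _)) _))
  have c5 := hH.wf
  have c6 : (600 : ℝ) ≤ w ^ 20 :=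
    le_trans (by norm_num) (pow_le_pow_left₀ (by positivity) hp.hw 20)
  have c7 : 100 * ((G.Excep_E w P (G.gb P)).card +
      ∑ p ∈ H, (G.Excep_E w P (G.hb P (G.pl p))).card) ≤ 2 * P.card := by
    have d0 : (0 : ℝ) ≤ ((G.Excep_E w P (G.gb P)).card : ℝ) +
        ∑ p ∈ H, ((G.Excep_E w P (G.hb P (G.pl p))).card : ℝ) := by positivity
    have d1 := mul_le_mul_of_nonneg_left c6 d0
    have d2 : (100 : ℝ) * (((G.Excep_E w P (G.gb P)).card : ℝ) +
        ∑ p ∈ H, ((G.Excep_E w P (G.hb P (G.pl p))).card : ℝ)) ≤ 2 * P.card := by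
      linarith only [d1, c1, c2, c3]
    exact_mod_cast d2
  omega

/-- `ub_sq_le`, `sum_sum_pl`, `cnt * om ≤ n / q`, `sum_gb_sq`, `sum_hb_sq` for each `π ∈ H`
(bound the sum over single `a` with `th H a = pl π` by the sum over all `a ∈ P`), `σ ≤ q` -/
theorem sum_mean_T {w : ℝ} {c : ℕ} (hp : Par q w c) {P H : Finset Pt}
    (hn1 : 4 * (c + 4) * q ≤ P.card) (hH : G.HOK w P H) :
    ∑ a ∈ selIn P (G.single H), ∑ b ∈ G.pl a, G.om P b * G.ub P H a b ^ 2 ≤
      33 * P.card * q * sig q P := by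
  have hq := G.Means_q
  have hq' : 0 < q := by exact_mod_cast hq
  have hP := nonempty_of_le hq' hn1
  have hn : (0 : ℝ) < P.card := by exact_mod_cast hP.card_pos
  have he0 := Means_eta (q := q) P
  have hs0 := Means_sig (q := q) P
  have hc0 : (0 : ℝ) ≤ c := Nat.cast_nonneg c
  have he : eta q P ≤ 1 := by
    have := eta_le hq' hn1
    nlinarith only [this, he0, hc0]
  have hf : ∀ b, 0 ≤ 3 * (G.gb P b ^ 2 + ∑ p ∈ H, G.hb P (G.pl p) b ^ 2 + 4 * eta q P ^ 2) :=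
    fun b => by positivity
  have h1 : ∑ a ∈ selIn P (G.single H), ∑ b ∈ G.pl a, G.om P b * G.ub P H a b ^ 2 ≤
      ∑ a ∈ P, ∑ b ∈ G.pl a, G.om P b *
        (3 * (G.gb P b ^ 2 + ∑ p ∈ H, G.hb P (G.pl p) b ^ 2 + 4 * eta q P ^ 2)) := by
    refine le_trans (sum_le_sum fun a ha => sum_le_sum fun b _ => ?_)
      (sum_le_sum_of_subset_of_nonneg (selIn_subset _ _) fun a _ _ =>
        sum_nonneg fun b _ => mul_nonneg (G.om_nonneg P b) (hf b))
    refine mul_le_mul_of_nonneg_left ((G.ub_sq_le P H a b).trans ?_) (G.om_nonneg P b)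
    have : G.hb P (G.th H a) b ^ 2 ≤ ∑ p ∈ H, G.hb P (G.pl p) b ^ 2 := by
      rcases G.th_cases (mem_selIn.1 ha).2 with ⟨-, e⟩ | ⟨p, e1, e⟩
      · rw [e, G.hb_empty, zero_pow two_ne_zero]
        positivity
      · rw [e]
        exact single_le_sum (f := fun p => G.hb P (G.pl p) b ^ 2) (fun _ _ => sq_nonneg _)
          (mem_inter.1 (e1 ▸ mem_singleton_self p)).1
    linarith only [this]
  refine h1.trans ((G.Excep_cnt hP _ hf).trans ?_)
  have h2 : ∑ b, ∑ p ∈ H, G.hb P (G.pl p) b ^ 2 ≤ (q : ℝ) ^ 2 * sig q P * 2 := by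
    rw [sum_comm]
    refine (sum_le_sum fun p _ => G.sum_hb_sq hP (G.pl p)).trans ?_
    rw [← mul_sum]
    exact mul_le_mul_of_nonneg_left (G.Excep_sum2 hP hH) (by positivity)
  have h3 := G.sum_gb_sq hP
  have h4 : (Fintype.card Pt : ℝ) * (4 * eta q P ^ 2) ≤ 8 * ((q : ℝ) ^ 2 * sig q P) :=
    calc (Fintype.card Pt : ℝ) * (4 * eta q P ^ 2) ≤ 2 * (q : ℝ) ^ 3 * (4 * eta q P ^ 2) :=
          mul_le_mul_of_nonneg_right G.card_pt_le (by positivity)
      _ = 8 * ((q : ℝ) ^ 2 * (eta q P * q)) * eta q P := by ring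
      _ ≤ 8 * ((q : ℝ) ^ 2 * (eta q P * q)) := mul_le_of_le_one_right (by positivity) he
      _ = _ := by rw [eta_mul_q]
  rw [← mul_sum, sum_add_distrib, sum_add_distrib, sum_const, card_univ, nsmul_eq_mul]
  refine (mul_le_mul_of_nonneg_left (show _ ≤ 33 * ((q : ℝ) ^ 2 * sig q P) by
    linarith only [h2, h3, h4]) (by positivity)).trans (le_of_eq ?_)
  field_simp

/-- `Zs_lower` with `Y = low (1/2^27) P`, `exp24` -/
theorem Zs_ge {w : ℝ} {c : ℕ} (hp : Par q w c) {P : Finset Pt}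
    (hn1 : 4 * (c + 4) * q ≤ P.card) (hE : G.Ext (1 / 2 ^ 27) P w) :
    (q : ℝ) ^ 2 * sig q P / w ^ 2 ≤ G.Zs c P univ := by
  have hq := G.Means_q
  have hq' : 0 < q := by exact_mod_cast hq
  have hP := hE.1
  have hn : (0 : ℝ) < P.card := by exact_mod_cast hP.card_pos
  have hw := hp.w_pos
  have he0 := Means_eta (q := q) P
  have hc0 : (0 : ℝ) ≤ c := Nat.cast_nonneg c
  have he : eta q P ≤ 1 / 2 := by
    have := eta_le hq' hn1
    nlinarith only [this, he0, hc0]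
  refine le_trans ?_ (G.Zs_lower hP he c (x := 1 / 2 ^ 27) (by norm_num) Subset.rfl
    (subset_univ _))
  have h1 : 1 / w ≤ Real.exp (-(2 * c * (1 / 2 ^ 27))) :=
    hp.exp24.trans (Real.exp_le_exp.2 (by linarith only [hc0]))
  refine le_trans ?_ (mul_le_mul_of_nonneg_left h1 (Nat.cast_nonneg _))
  have h2 := hE.2
  unfold sig
  rw [div_le_iff₀ (by positivity), ← mul_div_assoc, div_le_iff₀ hn]
  refine le_trans (le_of_eq (by ring)) (h2.trans (le_of_eq ?_))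
  field_simp

end PG
end Pool.Agent.Work.MP_e10cd8_co.Four
end

-- merged part: Pool.Agent.Work.MP_e10cd8_co.Four.MainFP
section
/-! False positives of the decoder (paper 5.3). -/

namespace Pool.Agent.Work.MP_e10cd8_co.Four
namespace PG
open Finset

variable {q : ℕ} {Pt : Type} [Fintype Pt] [DecidableEq Pt] (G : PG q Pt)

/-- a point outside the exceptional sets is rarely decoded -/
theorem MainFP_point {w : ℝ} {c : ℕ} (hp : Par q w c) {P H : Finset Pt}
    (hn1 : 4 * (c + 4) * q ≤ P.card) (hn2 : P.card ≤ q ^ 2)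
    (hH : G.HOK w P H) {v : ℕ} (hv : (v : ℝ) ≤ 0.6 * (G.Zs c P univ / (2 ^ 12 * q)))
    (hs : sig q P * q / w ^ 3 ≤ G.Zs c P univ / (2 ^ 12 * q)) (a : Pt)
    (h1 : ¬ ∑ b ∈ G.pl a ∩ (G.low (1 / 4) P ∩ univ), (1 - eta q P) ^ (c * G.cnt P b) ≤
      3 / 4 * (G.Zs c P univ / q))
    (h2 : ¬ (G.single H a ∧ sig q P ^ 2 * (q : ℝ) ^ 2 / w ^ 16 < G.vT w c P H a))
    (h3 : ¬ sig q P ^ 2 * (q : ℝ) ^ 2 / (4 * w ^ 9) <
      eta q P * ∑ y ∈ P.erase a, G.Phi (G.low (1 / 4) P) a y ^ 2)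
    (h4 : ¬ (¬ 4 * w ^ 5 ≤ sig q P ∧ G.single H a ∧
      ∃ y ∈ P.erase a \ G.th H a, 1 / 16 < G.dl P a y)) :
    Pr (eta q P) (range (c + 4) ×ˢ P) (fun T => G.single H a ∧
      G.Sst c ((1 - eta q P) ^ G.nuT P H a) H univ a T < v) ≤
      Pr (eta q P) (range (c + 4) ×ˢ P)
        (fun T => ¬ Disjoint T (range (c + 4) ×ˢ G.bigs w P a)) + 3 / (q : ℝ) ^ 5 := by
  obtain ⟨hP, h0, -, hη⟩ := PointD_basic hp hn1
  have hη1 : eta q P ≤ 1 := by linarith
  have hq := hp.q_pos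
  by_cases ha : G.single H a
  swap
  · have hz : Pr (eta q P) (range (c + 4) ×ˢ P) (fun T => G.single H a ∧
        G.Sst c ((1 - eta q P) ^ G.nuT P H a) H univ a T < v) ≤
        Pr (eta q P) (range (c + 4) ×ˢ P)
          (fun T => ¬ Disjoint T (range (c + 4) ×ˢ G.bigs w P a)) :=
      Pr_mono h0.le hη1 fun T _ h => absurd h.1 ha
    have : (0 : ℝ) ≤ 3 / (q : ℝ) ^ 5 := by positivity
    linarith
  have hD := G.pd_tail hp hn1 hn2 hH.half hH.notD ha (not_lt.1 h3)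
  have hr : 4 * w ^ 5 ≤ sig q P ∨ ∀ y ∈ P.erase a \ G.th H a, G.dl P a y ≤ 1 / 16 := by
    by_cases h5 : 4 * w ^ 5 ≤ sig q P
    · exact Or.inl h5
    · exact Or.inr fun y hy => not_lt.1 fun hl => h4 ⟨h5, ha, y, hy, hl⟩
  have hT := G.pt_tail hp hn1 hn2 ha (not_lt.1 fun hl => h2 ⟨ha, hl⟩) hr
  rw [inter_univ, not_le] at h1
  have hZ : G.Zs c P univ / q = 2 ^ 12 * (G.Zs c P univ / (2 ^ 12 * q)) := by
    field_simp
  have hs0 : 0 ≤ sig q P * q / w ^ 3 := by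
    have := Means_sig (q := q) P
    have := hp.w_pos
    positivity
  refine le_trans (Pr_mono h0.le hη1 (p' := fun T =>
    (¬ Disjoint T (range (c + 4) ×ˢ G.bigs w P a)) ∨
    ((Disjoint T (range (c + 4) ×ˢ G.bigs w P a) ∧
      G.Sst c ((1 - eta q P) ^ G.nuT P H a) H (G.low (1 / 4) P) a T ≤
        1 / 2 ^ 12 * ∑ b ∈ G.pl a ∩ G.low (1 / 4) P, (1 - eta q P) ^ (c * G.cnt P b) -
          sig q P * q / w ^ 3 / 20) ∨
      G.Sst c ((1 - eta q P) ^ G.nuT P H a) H (G.low (1 / 4) P)ᶜ a T ≤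
        -(sig q P * q / w ^ 3 / 20))) fun T _ h => ?_) ?_
  · by_cases hd : Disjoint T (range (c + 4) ×ˢ G.bigs w P a)
    swap
    · exact Or.inl hd
    refine Or.inr ?_
    by_contra hc
    rw [not_or, not_and, not_le, not_le] at hc
    have e1 := hc.1 hd
    have e2 := hc.2
    have e3 := h.2
    rw [G.Sst_univ c _ H (G.low (1 / 4) P)] at e3
    rw [hZ] at h1
    linarith
  · refine (Pr_or h0.le hη1 _ _).trans (add_le_add le_rfl ?_)
    refine (Pr_or h0.le hη1 _ _).trans ?_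
    have : (3 : ℝ) / (q : ℝ) ^ 5 = 1 / (q : ℝ) ^ 5 + 2 / (q : ℝ) ^ 5 := by ring
    linarith

/-- `s = Zs / (2^12 q) ≥ s0 = σ q / w^3` (`Zs_ge`). `Ex_card_selIn`. A single point outside the
sets of `card_mean_small` (at most `16 w^2 n`), `card_vT_large`, `card_phi_large` and `HOK.rich`
is decoded with probability at most `Pr (big point sampled) + 3 / q^5`: otherwise
`Sst low > 0.75 s - s0/20` (`pd_tail`), `Sst lowᶜ > -s0/20` (`pt_tail`), `Sst_univ`.
Sum with `sum_big`. -/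
theorem main_fp {w : ℝ} {c : ℕ} (hp : Par q w c) {P H : Finset Pt}
    (hn1 : 4 * (c + 4) * q ≤ P.card) (hn2 : P.card ≤ q ^ 2) (hE : G.Ext (1 / 2 ^ 27) P w)
    (hH : G.HOK w P H) {v : ℕ} (hv : (v : ℝ) ≤ 0.6 * (G.Zs c P univ / (2 ^ 12 * q))) :
    Ex (eta q P) (range (c + 4) ×ˢ P)
      (fun T => ((G.dec c (1 - eta q P) (G.nuT P H) H v T).card : ℝ)) ≤ 3 * w ^ 22 * P.card := by
  obtain ⟨hP, h0, -, hη⟩ := PointD_basic hp hn1
  have hη1 : eta q P ≤ 1 := by linarith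
  have hq := hp.q_pos
  have hw := hp.w_pos
  have hw1 := hp.one_le_w
  have hw5 : (100000 : ℝ) ≤ w := (PointD_w hp).1
  have hσ : 1 ≤ sig q P := one_le_sig hP hn2
  have hn : (1 : ℝ) ≤ P.card := by exact_mod_cast hP.card_pos
  have hZ := G.Zs_ge hp hn1 hE
  have hs : sig q P * q / w ^ 3 ≤ G.Zs c P univ / (2 ^ 12 * q) := by
    rw [le_div_iff₀ (by positivity)]
    refine le_trans ?_ hZ
    have e : sig q P * q / w ^ 3 * (2 ^ 12 * q) = (q : ℝ) ^ 2 * sig q P / w ^ 2 * (2 ^ 12 / w) := by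
      field_simp
    rw [e]
    refine mul_le_of_le_one_right (by positivity) ?_
    rw [div_le_one hw]
    linarith
  have hc1 : ((sel fun a => ∑ b ∈ G.pl a ∩ (G.low (1 / 4) P ∩ univ),
      (1 - eta q P) ^ (c * G.cnt P b) ≤ 3 / 4 * (G.Zs c P univ / q)).card : ℝ) ≤
      16 * w ^ 2 * P.card := by
    have h := G.card_mean_small h0.le hη1 c univ
    have h' := le_trans (mul_le_mul_of_nonneg_left hZ (Nat.cast_nonneg _)) h
    have e : 16 * (q : ℝ) ^ 4 = 16 * w ^ 2 * P.card * ((q : ℝ) ^ 2 * sig q P / w ^ 2) := by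
      have := sig_mul_card (q := q) hP
      field_simp
      rw [mul_comm (P.card : ℝ), this]
    rw [e] at h'
    exact le_of_mul_le_mul_right h' (by positivity)
  have hc2 : ((sel fun a => G.single H a ∧
      sig q P ^ 2 * (q : ℝ) ^ 2 / w ^ 16 < G.vT w c P H a).card : ℝ) ≤ P.card := by
    have h := G.card_vT_large hp hn1 hn2 hH
    exact Nat.cast_le.2 (by omega)
  have hc3 := G.card_phi_large hp hn1 hn2
  have hc4 : ((sel fun a => ¬ 4 * w ^ 5 ≤ sig q P ∧ G.single H a ∧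
      ∃ y ∈ P.erase a \ G.th H a, 1 / 16 < G.dl P a y).card : ℝ) ≤ w ^ 22 * P.card := by
    rcases hH.rich with h | h
    · have e : (sel fun a => ¬ 4 * w ^ 5 ≤ sig q P ∧ G.single H a ∧
          ∃ y ∈ P.erase a \ G.th H a, 1 / 16 < G.dl P a y) = ∅ :=
        eq_empty_of_forall_notMem fun a ha => (mem_sel.1 ha).1 h
      rw [e, card_empty, Nat.cast_zero]
      positivity
    · refine le_trans (Nat.cast_le.2 (card_le_card fun a ha => ?_)) h
      exact mem_sel.2 (mem_sel.1 ha).2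
  have hc5 := G.sum_big hp hn1 hn2
  have hc6 : ∑ _a : Pt, (3 : ℝ) / (q : ℝ) ^ 5 ≤ P.card := by
    rw [sum_const, card_univ, nsmul_eq_mul]
    have hq3 : (1000 : ℝ) ≤ q := by exact_mod_cast hp.thousand_le_q
    calc _ ≤ 2 * (q : ℝ) ^ 3 * (3 / (q : ℝ) ^ 5) :=
          mul_le_mul_of_nonneg_right G.card_pt_le (by positivity)
      _ = 6 / (q : ℝ) ^ 2 := by field_simp; norm_num
      _ ≤ 1 := by rw [div_le_one (by positivity)]; nlinarith
      _ ≤ _ := hn
  rw [card_sel] at hc1 hc2 hc3 hc4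
  have key : Ex (eta q P) (range (c + 4) ×ˢ P)
      (fun T => ((G.dec c (1 - eta q P) (G.nuT P H) H v T).card : ℝ)) =
      ∑ a, Pr (eta q P) (range (c + 4) ×ˢ P) (fun T => G.single H a ∧
        G.Sst c ((1 - eta q P) ^ G.nuT P H a) H univ a T < v) :=
    Ex_card_selIn univ fun a T => G.single H a ∧
      G.Sst c ((1 - eta q P) ^ G.nuT P H a) H univ a T < v
  rw [key]
  have p2 : w ^ 2 ≤ w ^ 16 := pow_le_pow_right₀ hw1 (by norm_num)
  have p9 : w ^ 9 ≤ w ^ 16 := pow_le_pow_right₀ hw1 (by norm_num)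
  have p0 : 1 ≤ w ^ 16 := one_le_pow₀ hw1
  have p22 : 1000 * w ^ 16 ≤ w ^ 22 :=
    calc 1000 * w ^ 16 ≤ w * w ^ 16 := mul_le_mul_of_nonneg_right (by linarith) (by positivity)
      _ = w ^ 17 := by ring
      _ ≤ _ := pow_le_pow_right₀ hw1 (by norm_num)
  have fin : 16 * w ^ 2 * P.card + P.card + 8 * w ^ 9 * P.card + w ^ 22 * P.card +
      (800 * w ^ 16 * P.card + P.card) ≤ 3 * w ^ 22 * (P.card : ℝ) := by
    have : 16 * w ^ 2 + 1 + 8 * w ^ 9 + w ^ 22 + (800 * w ^ 16 + 1) ≤ 3 * w ^ 22 := by linarith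
    calc _ = (16 * w ^ 2 + 1 + 8 * w ^ 9 + w ^ 22 + (800 * w ^ 16 + 1)) * (P.card : ℝ) := by ring
      _ ≤ _ := mul_le_mul_of_nonneg_right this (by positivity)
  refine le_trans ?_ (le_trans
    (add_le_add (add_le_add (add_le_add (add_le_add hc1 hc2) hc3) hc4) (add_le_add hc5 hc6)) fin)
  simp only [← sum_add_distrib]
  refine sum_le_sum fun a _ => ?_
  have b0 := Pr_le_one (Ω := range (c + 4) ×ˢ P) h0.le hη1 (fun T => G.single H a ∧
    G.Sst c ((1 - eta q P) ^ G.nuT P H a) H univ a T < v)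
  have b1 := Pr_nonneg (Ω := range (c + 4) ×ˢ P) h0.le hη1
    (fun T => ¬ Disjoint T (range (c + 4) ×ˢ G.bigs w P a))
  have b2 : (0 : ℝ) ≤ 3 / (q : ℝ) ^ 5 := by positivity
  have i1 := ind_nonneg (∑ b ∈ G.pl a ∩ (G.low (1 / 4) P ∩ univ),
    (1 - eta q P) ^ (c * G.cnt P b) ≤ 3 / 4 * (G.Zs c P univ / q))
  have i2 := ind_nonneg (G.single H a ∧ sig q P ^ 2 * (q : ℝ) ^ 2 / w ^ 16 < G.vT w c P H a)
  have i3 := ind_nonneg (sig q P ^ 2 * (q : ℝ) ^ 2 / (4 * w ^ 9) <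
    eta q P * ∑ y ∈ P.erase a, G.Phi (G.low (1 / 4) P) a y ^ 2)
  have i4 := ind_nonneg (¬ 4 * w ^ 5 ≤ sig q P ∧ G.single H a ∧
    ∃ y ∈ P.erase a \ G.th H a, 1 / 16 < G.dl P a y)
  by_cases h1 : ∑ b ∈ G.pl a ∩ (G.low (1 / 4) P ∩ univ),
    (1 - eta q P) ^ (c * G.cnt P b) ≤ 3 / 4 * (G.Zs c P univ / q)
  · rw [ind_pos h1]; linarith
  by_cases h2 : G.single H a ∧ sig q P ^ 2 * (q : ℝ) ^ 2 / w ^ 16 < G.vT w c P H a
  · rw [ind_pos h2]; linarith
  by_cases h3 : sig q P ^ 2 * (q : ℝ) ^ 2 / (4 * w ^ 9) <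
    eta q P * ∑ y ∈ P.erase a, G.Phi (G.low (1 / 4) P) a y ^ 2
  · rw [ind_pos h3]; linarith
  by_cases h4 : ¬ 4 * w ^ 5 ≤ sig q P ∧ G.single H a ∧
    ∃ y ∈ P.erase a \ G.th H a, 1 / 16 < G.dl P a y
  · rw [ind_pos h4]; linarith
  have := G.MainFP_point hp hn1 hn2 hH hv hs a h1 h2 h3 h4
  linarith

end PG
end Pool.Agent.Work.MP_e10cd8_co.Four
end
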