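import Pool.Agent.Work.MP_e10cd8_co.Four.Top

/-!
A lower bound for independent sets against transitive tournaments on four vertices that matches the
known upper bound up to a power of `log log n`. Former hand-in, superseded by the hand-in FixedOrder.
-/

namespace Pool.Agent.Work.MP_e10cd8_co.Four.Parked

theorem fourLower : ∃ c : ℝ, 0 < c ∧ ∃ n₀ : ℕ, ∀ n N : ℕ, n₀ ≤ n →
    (N : ℝ) ≤ c * (n : ℝ) ^ 3 / (Real.log n ^ 2 * Real.log (Real.log n) ^ 3) →
    ∃ G : Digraph (Fin N), (∀ v, ¬ G.Adj v v) ∧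
      (¬ ∃ S : Finset (Fin N), S.card = n ∧ ∀ u ∈ S, ∀ v ∈ S, ¬ G.Adj u v) ∧
      ¬ ∃ f : Fin 4 → Fin N, Function.Injective f ∧ ∀ i j, i < j → G.Adj (f i) (f j) :=
  Pool.Agent.Work.MP_e10cd8_co.Four.top

end Pool.Agent.Work.MP_e10cd8_co.Four.Parked
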