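import Pool.Agent.Work.MP_e10cd8_co.Four.Sparse1
import Pool.Agent.Work.MP_e10cd8_co.Four.FinP
import Pool.Agent.Work.MP_e10cd8_co.Four.KL

/-! The cover of the sparse sets and its weight (paper 3). -/

namespace Pool.Agent.Work.MP_e10cd8_co.Four
namespace PG
open Finset

variable {q : ℕ} {Pt : Type} [Fintype Pt] [DecidableEq Pt] (G : PG q Pt)

theorem Sparse2_r {R r k : ℕ} (h : FPar q R r k) : (10 : ℝ) ^ 12 ≤ r := by
  have h1 : 10 ^ 12 ≤ r := le_trans (by omega) h.r_ge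
  exact_mod_cast h1

theorem Sparse2_level {R r k : ℕ} (h : FPar q R r k) (s : ℝ) (hs : 0 ≤ s) :
    ∃ F : Finset (Finset Pt), G.Cont (1 / 2 ^ 28) (9 * Real.exp s ^ 2) F ∧
      (F.card : ℝ) * F.card ≤ Real.exp (13 * (r * q * Real.log q) * (1 + s)) := by
  have hL := h.six_le_L
  have hLL := h.logL_le
  have hE : 1 ≤ Real.exp s ^ 2 := one_le_pow₀ (Real.one_le_exp hs)
  have hq : (0 : ℝ) ≤ q := Nat.cast_nonneg q
  have h1 : 6 * Real.exp s ^ 2 ≤ Real.exp s ^ 2 * Real.log q := by nlinarith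
  have h2 : Real.log q ≤ Real.exp s ^ 2 * Real.log q := by nlinarith
  obtain ⟨F, hF, hC⟩ := G.kl h.hq (w := 2 ^ 32 * 9 * (Real.exp s ^ 2 * Real.log q))
    (Om := 9 * Real.exp s ^ 2) (by linarith) (by linarith) (by linarith) (by linarith)
  refine ⟨F, hC, (mul_le_mul hF hF (Nat.cast_nonneg _) (Real.exp_pos _).le).trans ?_⟩
  rw [← Real.exp_add, Real.exp_le_exp]
  have h3 : Real.log (2 ^ 32 * 9 * (Real.exp s ^ 2 * Real.log q)) ≤ 25 + 2 * s + R := by
    rw [Real.log_mul (by norm_num) (by positivity),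
      Real.log_mul (x := Real.exp s ^ 2) (by positivity) (by linarith), Real.log_pow, Real.log_exp]
    have a1 : Real.log (2 ^ 32 * 9) ≤ Real.log (2 ^ 36) :=
      Real.log_le_log (by norm_num) (by norm_num)
    rw [Real.log_pow] at a1
    have a2 := Real.log_two_lt_d9
    push_cast at a1 ⊢
    linarith
  have h4 : (r : ℝ) = 4000 * 2 ^ 28 * (R + 2) := by rw [h.hr]; push_cast; ring
  have h5 : 0 ≤ q * Real.log q := mul_nonneg hq (by linarith)
  have h6 := mul_le_mul_of_nonneg_left h3 h5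
  have hR : (0 : ℝ) ≤ R := Nat.cast_nonneg R
  have h7 : 2 ^ 35 * (25 + 2 * s + R) ≤ 13 * (r : ℝ) * (1 + s) := by
    rw [h4]
    nlinarith [mul_nonneg hR hs]
  have h8 := mul_le_mul_of_nonneg_left h7 h5
  linarith

omit [Fintype Pt] in
theorem Sparse2_pool {R r k : ℕ} (h : FPar q R r k) {s : ℝ} (hs : 0 ≤ s) (Ω : Finset (Pt × Pt))
    (hΩ : (Ω.card : ℝ) ≤ 2700 * Real.exp s ^ 2 * (q : ℝ) ^ 3)
    (B : Finset (Pt × Pt) → Finset (Pt × Pt)) :
    wtC (pp q r k) (ww k) ((selIn (selIn Ω.powerset fun T =>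
        (T.card : ℝ) ≤ 13 * (r * q * Real.log q)) fun T =>
        ((B T).card : ℝ) ≤ 9 * Real.exp (-(s / 2)) * (q : ℝ) ^ 3).image fun T => (T, B T)) ≤
      Real.exp (13 * (r * q * Real.log q) * (1 + 2 * s) - (8 + s / 2) * k / 16) := by
  have hp := FPar.pp_nonneg q r k
  have hr := Sparse2_r h
  have hq : (1000 : ℝ) ≤ q := by exact_mod_cast h.hq
  have hE : 1 ≤ Real.exp s ^ 2 := one_le_pow₀ (Real.one_le_exp hs)
  have hβ : 44 * (9 * Real.exp (-(s / 2))) / (10000 * r) ≤ Real.exp (-(8 + s / 2)) := by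
    have a1 : Real.exp 8 ≤ 3 ^ 8 := by
      have := Real.exp_one_pow 8
      push_cast at this
      rw [← this]
      exact pow_le_pow_left₀ (Real.exp_pos _).le
        (Real.exp_one_lt_d9.le.trans (by norm_num)) 8
    rw [neg_add, Real.exp_add, Real.exp_neg 8, div_le_iff₀ (by positivity), mul_assoc _⁻¹,
      ← div_eq_inv_mul, le_div_iff₀ (Real.exp_pos _)]
    have a2 := Real.exp_pos (-(s / 2))
    have a3 := mul_le_mul_of_nonneg_left a1 a2.le
    have a4 := mul_le_mul_of_nonneg_left hr a2.le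
    linarith
  have h1 := sum_small_le Ω (p := pp q r k) (x := 1 / Real.exp s ^ 2)
    (t := 13 * (r * q * Real.log q)) hp (by positivity) ((div_le_one (by positivity)).2 hE)
  have h2 : 1 / Real.exp s ^ 2 * pp q r k * Ω.card ≤ 13 * (r * q * Real.log q) := by
    have a1 : 1 / Real.exp s ^ 2 * pp q r k * (2700 * Real.exp s ^ 2 * (q : ℝ) ^ 3) =
        2700 * k / (10000 * r) := by
      rw [pp]
      field_simp
    refine (mul_le_mul_of_nonneg_left hΩ (by positivity)).trans ?_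
    rw [a1, div_le_iff₀ (by positivity)]
    have a2 := h.hk2
    have a3 : 0 ≤ r * q * Real.log q := by
      have := h.six_le_L
      positivity
    have a4 := mul_le_mul_of_nonneg_left hr a3
    nlinarith
  rw [one_div_one_div, Real.log_pow, Real.log_exp] at h1
  refine (wtC_image_le hp _ _ _).trans ?_
  refine (sum_le_sum fun T hT => mul_le_mul_of_nonneg_left
    (h.pool_factor (y := 8 + s / 2) (by linarith) (mem_selIn.1 hT).2 hβ) (pow_nonneg hp _)).trans ?_
  rw [← sum_mul, sub_eq_add_neg, Real.exp_add]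
  refine mul_le_mul_of_nonneg_right ?_ (Real.exp_pos _).le
  refine (sum_le_sum_of_subset_of_nonneg (selIn_subset _ _) fun T _ _ => pow_nonneg hp _).trans
    (h1.trans (Real.exp_le_exp.2 ?_))
  push_cast
  linarith

/-- `x = 1/2^28`, `d = 12 dd + 1`, `t0 = 13 r q L`, `F j` from `kl` with `Om = 9 exp (2^j)^2`,
`w = 2^32 Om L` (`log w ≤ 25 + 2^(j+1) + R`). Level `j` consists of the pairs `(T, bad T)` with
`T ⊆ pool X Y`, `X, Y ∈ F j`, `|pool X Y| ≤ 300 Om q^3`, `|T| ≤ t0`,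
`|bad T| ≤ 9 exp (-2^j/2) q^3`. Weight: `|F j|^2 ≤ exp (t0 (1 + 2^j))` since
`t0 ≥ 2^43 (R+2) q L`; `sum_small_le` with `x = t0 / (300 Om k)` gives
`exp (t0 (16 + 2^(j+1)))` (`k / t0 ≤ 770`); `pool_factor` with `y = 8 + 2^j / 2`; and
`t0 ≤ k / 150`, so the exponent is at most `k (17 + 3 * 2^j) / 150 - k / 2 - 2^j k / 32 ≤ -k/4`.
Covering: `rounds`; the loss is `(R+2) 8 d q 2^28 ≤ k / 32`, and
`3 k / 32 - t0 ≥ k / 16 + 1`. -/
theorem sparse_cover {R r k : ℕ} (h : FPar q R r k) :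
    ∃ C : Finset (Finset (Pt × Pt) × Finset (Pt × Pt)),
      wtC (pp q r k) (ww k) C ≤ (R + 1) * Real.exp (-(k : ℝ) / 4) ∧
      ∀ Z, G.sparse (12 * dd q r k + 1) Z → k ≤ 8 * Z.card → Z.card ≤ k → hits C (ww k) Z := by
  choose F hF hc using fun j : ℕ => G.Sparse2_level h (2 ^ j) (by positivity)
  have hp := FPar.pp_nonneg q r k
  have hr := Sparse2_r h
  have hq : (1000 : ℝ) ≤ q := by exact_mod_cast h.hq
  have hL := h.six_le_L
  have hk1 : 2000 * (r * q * Real.log q) ≤ k := by linarith [h.hk1]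
  have hA : (1000 : ℝ) ≤ r * q * Real.log q := by
    have a1 : (1000 : ℝ) ≤ r * q := by nlinarith
    nlinarith
  refine ⟨(range (R + 1)).biUnion fun j => (selIn (F j ×ˢ F j) fun z =>
    ((G.pool z.1 z.2).card : ℝ) ≤ 2700 * Real.exp (2 ^ j) ^ 2 * (q : ℝ) ^ 3).biUnion fun z =>
      (selIn (selIn (G.pool z.1 z.2).powerset fun T =>
        (T.card : ℝ) ≤ 13 * (r * q * Real.log q)) fun T =>
        ((G.bad (1 / 2 ^ 28) (15 * Real.log q) T).card : ℝ) ≤
          9 * Real.exp (-(2 ^ j / 2)) * (q : ℝ) ^ 3).image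
        fun T => (T, G.bad (1 / 2 ^ 28) (15 * Real.log q) T), ?_, fun Z hZ h1 h2 => ?_⟩
  · refine (wtC_biUnion_le hp _ _ _).trans ?_
    refine (sum_le_card_nsmul _ _ (Real.exp (-(k : ℝ) / 4)) fun j _ => ?_).trans
      (by rw [card_range, nsmul_eq_mul]; push_cast; exact le_rfl)
    have hs : (1 : ℝ) ≤ 2 ^ j := one_le_pow₀ one_le_two
    refine (wtC_biUnion_le hp _ _ _).trans ?_
    refine (sum_le_card_nsmul _ _ _ fun z hz =>
      Sparse2_pool h (by positivity) _ (mem_selIn.1 hz).2 _).trans ?_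
    have a1 : ((selIn (F j ×ˢ F j) fun z => ((G.pool z.1 z.2).card : ℝ) ≤
        2700 * Real.exp (2 ^ j) ^ 2 * (q : ℝ) ^ 3).card : ℝ) ≤
        Real.exp (13 * (r * q * Real.log q) * (1 + 2 ^ j)) := by
      refine le_trans ?_ (hc j)
      rw [← Nat.cast_mul, ← card_product]
      exact_mod_cast card_le_card (selIn_subset _ _)
    rw [nsmul_eq_mul]
    refine (mul_le_mul_of_nonneg_right a1 (Real.exp_pos _).le).trans ?_
    rw [← Real.exp_add, Real.exp_le_exp]
    have a2 := mul_le_mul_of_nonneg_left hk1 (show (0 : ℝ) ≤ 2 ^ j by positivity)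
    have a3 : (0 : ℝ) ≤ 2 ^ j * k := by positivity
    generalize (2 : ℝ) ^ j = s at *
    generalize r * q * Real.log q = A at *
    nlinarith
  · have hrq : (0 : ℝ) < r * q := by positivity
    have hk0 : (0 : ℝ) < k := by linarith
    have d1 : (k : ℝ) ≤ dd q r k * (r * q) := (div_le_iff₀ hrq).1 h.dd_ge
    have d2 : ((12 * dd q r k + 1 : ℕ) : ℝ) * (r * q) ≤ 13 * k := by
      push_cast
      exact (le_div_iff₀ hrq).1 h.dd_le
    have d3 : 12 * k ≤ ((12 * dd q r k + 1 : ℕ) : ℝ) * (r * q) := by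
      push_cast
      linarith
    generalize 12 * dd q r k + 1 = d at *
    have d4 : 15 * Real.log q ≤ d := by
      refine le_of_mul_le_mul_right ?_ hrq
      linarith
    have d0 : (0 : ℝ) < d := by linarith
    have h4 : (r : ℝ) = 4000 * 2 ^ 28 * (R + 2) := by rw [h.hr]; push_cast; ring
    have d5 : (R + 2) * (8 * d * q / (1 / 2 ^ 28) : ℝ) ≤ k / 32 := by
      have a1 : (R + 2) * (8 * d * q / (1 / 2 ^ 28) : ℝ) = d * (r * q) / 500 := by
        rw [h4]
        field_simp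
        ring
      rw [a1]
      linarith
    have z1 : (k : ℝ) ≤ 8 * Z.card := by exact_mod_cast h1
    have z2 : (Z.card : ℝ) ≤ k := by exact_mod_cast h2
    have d6 : (8 * d * q / (1 / 2 ^ 28) : ℝ) < Z.card := by
      have a1 : (0 : ℝ) ≤ 8 * d * q / (1 / 2 ^ 28) := by positivity
      have a2 := mul_nonneg (Nat.cast_nonneg (α := ℝ) R) a1
      linarith
    obtain ⟨j, hj, X, hX, Y, hY, T, t1, t2, t3, t4, t5, t6⟩ :=
      G.rounds h.hq (x := 1 / 2 ^ 28) (by positivity) (by norm_num) d4 h.hR F (fun j _ => hF j) hZ d6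
    have t7 : (T.card : ℝ) ≤ 13 * (r * q * Real.log q) := by
      refine t4.trans ?_
      rw [div_le_iff₀ d0]
      have a1 := mul_le_mul_of_nonneg_left z2 (show 0 ≤ Real.log q by linarith)
      have a2 := mul_le_mul_of_nonneg_left d3 (show 0 ≤ Real.log q by linarith)
      have a3 : 0 ≤ Real.log q * k := by positivity
      linarith
    refine ⟨(T, G.bad (1 / 2 ^ 28) (15 * Real.log q) T), mem_biUnion.2 ⟨j,
      mem_range.2 (Nat.lt_succ_of_le hj), mem_biUnion.2 ⟨(X, Y),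
        mem_selIn.2 ⟨mem_product.2 ⟨hX, hY⟩, t3⟩, mem_image.2 ⟨T,
          mem_selIn.2 ⟨mem_selIn.2 ⟨mem_powerset.2 t2, t7⟩, t5⟩, rfl⟩⟩⟩, t1, ?_⟩
    have a1 : ((Z ∩ G.bad (1 / 2 ^ 28) (15 * Real.log q) T).card : ℝ) ≤
        ((Z ∩ G.bad (1 / 2 ^ 28) (15 * Real.log q) T) \ T).card + T.card := by
      exact_mod_cast card_le_card_sdiff_add_card
    have a2 := FPar.ww_le k
    have a3 : (ww k : ℝ) ≤ ((Z ∩ G.bad (1 / 2 ^ 28) (15 * Real.log q) T) \ T).card := by
      linarith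
    exact_mod_cast a3

end PG
end Pool.Agent.Work.MP_e10cd8_co.Four
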