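import Pool.Agent.Work.MP_e10cd8_co.Four.Cover
import Pool.Agent.Work.MP_e10cd8_co.Four.Asym
import Pool.Agent.Work.MP_e10cd8_co.Four.Exist

namespace Pool.Agent.Work.MP_e10cd8_co.Four

theorem top : ∃ c : ℝ, 0 < c ∧ ∃ n₀ : ℕ, ∀ n N : ℕ, n₀ ≤ n →
    (N : ℝ) ≤ c * (n : ℝ) ^ 3 / (Real.log n ^ 2 * Real.log (Real.log n) ^ 3) →
    ∃ D : Digraph (Fin N), (∀ v, ¬ D.Adj v v) ∧
      (¬ ∃ S : Finset (Fin N), S.card = n ∧ ∀ u ∈ S, ∀ v ∈ S, ¬ D.Adj u v) ∧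
      ¬ ∃ f : Fin 4 → Fin N, Function.Injective f ∧ ∀ i j, i < j → D.Adj (f i) (f j) := by
  obtain ⟨c, hc, n₀, h⟩ := params
  refine ⟨c, hc, n₀, fun n N hn hN => ?_⟩
  obtain ⟨q, R, r, hq, hF, hle⟩ := h n hn
  obtain ⟨Pt, _, _, ⟨G⟩⟩ := exists_PG q hq
  obtain ⟨X, hX, hcard, hI⟩ := G.host hF
  exact G.digraph hX hI (by exact_mod_cast hN.trans (hle.trans hcard))

end Pool.Agent.Work.MP_e10cd8_co.Four
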